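import Mathlib

set_option autoImplicit false

/-!
# Definitions for the torsion / eigenvalue problem
-/

namespace Pool.Agent.Lib.H38.Tor

open MeasureTheory Set

/-- The space. -/
abbrev E (d : ℕ) : Type := EuclideanSpace ℝ (Fin d)

/-- Admissible functions: `C^1` with compact support in `Ω`. -/
structure Adm {d : ℕ} (Ω : Set (E d)) (u : E d → ℝ) : Prop where
  c1 : ContDiff ℝ 1 u
  cs : HasCompactSupport u
  sub : tsupport u ⊆ Ω

/-- Rayleigh quotients. -/
def RaySet {d : ℕ} (Ω : Set (E d)) : Set ℝ :=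
  {r : ℝ | ∃ u : E d → ℝ, ContDiff ℝ 1 u ∧ HasCompactSupport u ∧ tsupport u ⊆ Ω ∧ u ≠ 0 ∧
    r = (∫ x, ‖fderiv ℝ u x‖ ^ 2) / (∫ x, u x ^ 2)}

/-- Torsion quotients. -/
def TorSet {d : ℕ} (Ω : Set (E d)) : Set ℝ :=
  {r : ℝ | ∃ u : E d → ℝ, ContDiff ℝ 1 u ∧ HasCompactSupport u ∧ tsupport u ⊆ Ω ∧ u ≠ 0 ∧
    r = (∫ x, u x) ^ 2 / (∫ x, ‖fderiv ℝ u x‖ ^ 2)}

/-- Volume of the unit ball. -/
noncomputable def omega (d : ℕ) : ℝ := (volume (Metric.ball (0 : E d) 1)).toReal

/-- Dirichlet energy. -/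
noncomputable def dir {d : ℕ} (u : E d → ℝ) : ℝ := ∫ x, ‖fderiv ℝ u x‖ ^ 2

/-- Distribution function. -/
noncomputable def mm {d : ℕ} (u : E d → ℝ) (t : ℝ) : ℝ := (volume {x | t < u x}).toReal

/-- Distribution function of the torsion function of the unit ball (it vanishes for
`t ≥ 1 / (2 d)` since `√` of a negative number is `0`). -/
noncomputable def mB (d : ℕ) (t : ℝ) : ℝ := omega d * √(1 - 2 * d * t) ^ d

/-- Torsional rigidity of the unit ball. -/
noncomputable def TB (d : ℕ) : ℝ := omega d / (d * (d + 2))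

/-- maximal value of the torsion function of the unit ball -/
noncomputable def WB (d : ℕ) : ℝ := 1 / (2 * d)

end Pool.Agent.Lib.H38.Tor
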