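import Mathlib
import Pool.Agent.Lib.H38.Tor.Defs

set_option autoImplicit false

namespace Pool.Agent.Lib.H38.Tor

/-- `x ↦ ψ (|x|^2)` solves `-Δ u = μ u`. -/
structure Radial (d : ℕ) (μ : ℝ) (ψ ψ' ψ'' : ℝ → ℝ) : Prop where
  h1 : ∀ s, HasDerivAt ψ (ψ' s) s
  h2 : ∀ s, HasDerivAt ψ' (ψ'' s) s
  h3 : Continuous ψ''
  ode : ∀ s, 4 * s * ψ'' s + 2 * d * ψ' s + μ * ψ s = 0

end Pool.Agent.Lib.H38.Tor
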