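import Mathlib
import Pool.Agent.Lib.H38.Tor.Defs
import Pool.Agent.Lib.H38.Tor.RadialDef

set_option autoImplicit false

/-!
# The ball: lower bound for the Rayleigh quotient by ground state substitution
-/

namespace Pool.Agent.Lib.H38.Tor

open MeasureTheory Set Filter Topology

/-- Euler's identity `∫ x · ∇ G = - d ∫ G`. -/
theorem integral_fderiv_self {d : ℕ} {G : E d → ℝ} (hG : ContDiff ℝ 1 G)
    (hc : HasCompactSupport G) : ∫ x, fderiv ℝ G x x = -((d : ℝ) * ∫ x, G x) := by
  have hGc := hG.continuous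
  have hG' : Continuous (fun x => fderiv ℝ G x) := hG.continuous_fderiv one_ne_zero
  have hcf : HasCompactSupport (fun x => fderiv ℝ G x) := hc.fderiv ℝ
  have hcoord : ∀ i : Fin d, ContDiff ℝ 1 (fun x : E d => x i) := fun i => by fun_prop
  have hint : ∀ i : Fin d, Integrable
      (fun x : E d => x i * fderiv ℝ G x (EuclideanSpace.single i 1)) := by
    intro i
    refine Continuous.integrable_of_hasCompactSupport ?_ ?_
    · fun_prop
    · refine hcf.mono' ?_
      intro x hx
      refine subset_closure ?_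
      intro h0
      apply hx
      simp only at h0 ⊢
      rw [h0]
      simp
  have key : ∀ i : Fin d, ∫ x : E d, x i * fderiv ℝ G x (EuclideanSpace.single i 1) =
      -∫ x, G x := by
    intro i
    have hfd : ∀ x : E d, fderiv ℝ (fun x : E d => x i) x (EuclideanSpace.single i 1) = 1 := by
      intro x
      have : HasFDerivAt (fun x : E d => x i)
          (EuclideanSpace.proj i : E d →L[ℝ] ℝ) x :=
        (EuclideanSpace.proj i : E d →L[ℝ] ℝ).hasFDerivAt
      rw [this.fderiv]
      simp
    have hGi : Integrable G := hGc.integrable_of_hasCompactSupport hc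
    rw [integral_mul_fderiv_eq_neg_fderiv_mul_of_integrable]
    · simp only [hfd, one_mul]
    · simpa only [hfd, one_mul] using hGi
    · exact hint i
    · refine Continuous.integrable_of_hasCompactSupport (by fun_prop) ?_
      exact hc.mul_left
    · intro x _
      exact ((hcoord i).differentiable one_ne_zero) x
    · intro x _
      exact (hG.differentiable one_ne_zero) x
  have hsum : ∀ x : E d, fderiv ℝ G x x =
      ∑ i, x i * fderiv ℝ G x (EuclideanSpace.single i 1) := by
    intro x
    have hx : x = ∑ i, x i • EuclideanSpace.single i (1 : ℝ) := by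
      have := (EuclideanSpace.basisFun (Fin d) ℝ).sum_repr x
      simpa using this.symm
    calc fderiv ℝ G x x = fderiv ℝ G x (∑ i, x i • EuclideanSpace.single i (1 : ℝ)) := by
          rw [← hx]
      _ = _ := by
          rw [map_sum]
          simp
  simp_rw [hsum]
  rw [integral_finsetSum _ (fun i _ => hint i)]
  simp_rw [key]
  simp

/-- CHUNK BALLRAY (ground state substitution). -/
theorem ray_ge {d : ℕ} (hd : 1 ≤ d) {μ : ℝ} {ψ ψ' ψ'' : ℝ → ℝ} (h : Radial d μ ψ ψ' ψ'')
    (hpos : ∀ s ∈ Ico (0 : ℝ) 1, 0 < ψ s) :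
    ∀ r ∈ RaySet (Metric.ball (0 : E d) 1), μ ≤ r := by
  rintro r ⟨u, hu, hcs, hsub, hne, rfl⟩
  have huc := hu.continuous
  have hu' : Continuous (fun x => fderiv ℝ u x) := hu.continuous_fderiv one_ne_zero
  have hu2 : 0 < ∫ x, u x ^ 2 := by
    refine Continuous.integral_pos_of_hasCompactSupport_nonneg_nonzero (x := ?_) ?_ ?_ ?_ ?_
    · exact (Function.ne_iff.mp hne).choose
    · fun_prop
    · refine hcs.mono' ?_
      intro x hx
      refine subset_closure ?_
      intro h0
      apply hx
      simp [h0]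
    · intro x; positivity
    · have := (Function.ne_iff.mp hne).choose_spec
      simpa using this
  rw [le_div_iff₀ hu2]
  -- the logarithmic derivative
  set κ : ℝ → ℝ := fun s => -2 * ψ' s / ψ s with hκ
  set κ' : ℝ → ℝ := fun s => -2 * ψ'' s / ψ s + 2 * ψ' s ^ 2 / ψ s ^ 2 with hκ'
  have hψc : Continuous ψ := continuous_iff_continuousAt.2 fun s => (h.h1 s).continuousAt
  have hψ'c : Continuous ψ' := continuous_iff_continuousAt.2 fun s => (h.h2 s).continuousAt
  have hκd : ∀ s, ψ s ≠ 0 → HasDerivAt κ (κ' s) s := by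
    intro s hs
    have := ((h.h2 s).const_mul (-2)).div (h.h1 s) hs
    convert! this using 1
    simp only [hκ']
    field_simp
    ring
  have hric : ∀ s, ψ s ≠ 0 → 2 * s * κ' s + d * κ s - s * κ s ^ 2 = μ := by
    intro s hs
    simp only [hκ', hκ]
    have := h.ode s
    field_simp
    linear_combination (-ψ s) * this
  -- the function G
  set G : E d → ℝ := fun x => u x ^ 2 * κ (‖x‖ ^ 2) with hG
  have hout : ∀ x, x ∉ tsupport u → u =ᶠ[𝓝 x] 0 := fun x hx =>
    notMem_tsupport_iff_eventuallyEq.mp hx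
  have hin : ∀ x, x ∈ tsupport u → ψ (‖x‖ ^ 2) ≠ 0 := by
    intro x hx
    have h1 := hsub hx
    rw [mem_ball_zero_iff] at h1
    have h0 := norm_nonneg x
    exact (hpos _ ⟨by positivity, by nlinarith⟩).ne'
  have hψ1 : ContDiff ℝ 1 ψ := by
    rw [contDiff_one_iff_deriv]
    refine ⟨fun s => (h.h1 s).differentiableAt, ?_⟩
    have : deriv ψ = ψ' := funext fun s => (h.h1 s).deriv
    rw [this]; exact hψ'c
  have hψ'1 : ContDiff ℝ 1 ψ' := by
    rw [contDiff_one_iff_deriv]
    refine ⟨fun s => (h.h2 s).differentiableAt, ?_⟩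
    have : deriv ψ' = ψ'' := funext fun s => (h.h2 s).deriv
    rw [this]; exact h.h3
  have hnorm : ContDiff ℝ 1 (fun x : E d => ‖x‖ ^ 2) := contDiff_norm_sq ℝ
  have hGC : ContDiff ℝ 1 G := by
    rw [contDiff_iff_contDiffAt]
    intro x
    by_cases hx : x ∈ tsupport u
    · refine ContDiffAt.mul (hu.contDiffAt.pow 2) ?_
      have h1 : ContDiffAt ℝ 1 κ (‖x‖ ^ 2) := by
        refine ContDiffAt.div ?_ hψ1.contDiffAt (hin x hx)
        exact contDiffAt_const.mul hψ'1.contDiffAt
      exact h1.comp x hnorm.contDiffAt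
    · have h1 : G =ᶠ[𝓝 x] fun _ => 0 := by
        filter_upwards [hout x hx] with y hy
        simp [hG, hy]
      exact contDiffAt_const.congr_of_eventuallyEq h1
  have hGcs : HasCompactSupport G := by
    refine hcs.mono' ?_
    intro x hx
    refine subset_closure ?_
    intro h0
    apply hx
    simp [hG, h0]
  have hGd : ∀ x, fderiv ℝ G x x + d * G x =
      2 * u x * κ (‖x‖ ^ 2) * fderiv ℝ u x x + u x ^ 2 * (μ + ‖x‖ ^ 2 * κ (‖x‖ ^ 2) ^ 2) := by
    intro x
    by_cases hx : x ∈ tsupport u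
    · have hu1 : HasFDerivAt u (fderiv ℝ u x) x :=
        ((hu.differentiable one_ne_zero) x).hasFDerivAt
      have hn1 : HasFDerivAt (fun x : E d => ‖x‖ ^ 2) (2 • innerSL ℝ x) x :=
        (hasStrictFDerivAt_norm_sq x).hasFDerivAt
      have hk1 := (hκd (‖x‖ ^ 2) (hin x hx)).comp_hasFDerivAt x hn1
      have hG1 := (hu1.pow 2).mul hk1
      have e : fderiv ℝ G x x = 2 * u x * κ (‖x‖ ^ 2) * fderiv ℝ u x x +
          u x ^ 2 * (2 * ‖x‖ ^ 2 * κ' (‖x‖ ^ 2)) := by
        have : G = (fun x => u x ^ 2) * κ ∘ fun x => ‖x‖ ^ 2 := rfl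
        rw [this, hG1.fderiv]
        simp [real_inner_self_eq_norm_sq]
        ring
      have e2 := hric (‖x‖ ^ 2) (hin x hx)
      rw [e]
      simp only [hG]
      linear_combination (u x ^ 2) * e2
    · have h1 : G =ᶠ[𝓝 x] fun _ => 0 := by
        filter_upwards [hout x hx] with y hy
        simp [hG, hy]
      have h2 : fderiv ℝ G x = 0 := by
        rw [h1.fderiv_eq]; simp
      have h3 : u x = 0 := (hout x hx).self_of_nhds
      rw [h2]
      simp [hG, h3]
  have hpt : ∀ x, -(fderiv ℝ G x x + d * G x) ≤ ‖fderiv ℝ u x‖ ^ 2 - μ * u x ^ 2 := by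
    intro x
    rw [hGd]
    set f := fderiv ℝ u x
    set k := κ (‖x‖ ^ 2)
    have h1 : |f x| ≤ ‖f‖ * ‖x‖ := f.le_opNorm x
    have h2 : -(2 * (|u x * k| * (‖f‖ * ‖x‖))) ≤ 2 * (u x * k * f x) := by
      have h3 : |u x * k * f x| ≤ |u x * k| * (‖f‖ * ‖x‖) := by
        rw [abs_mul]
        exact mul_le_mul_of_nonneg_left h1 (abs_nonneg _)
      have h4 := neg_abs_le (u x * k * f x)
      linarith
    have h5 : (|u x * k| * ‖x‖) ^ 2 = u x ^ 2 * (‖x‖ ^ 2 * k ^ 2) := by
      rw [mul_pow, sq_abs]; ring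
    nlinarith [sq_nonneg (‖f‖ - |u x * k| * ‖x‖)]
  have hI1 : Integrable (fun x => fderiv ℝ G x x) := by
    have hG' : Continuous (fun x => fderiv ℝ G x) := hGC.continuous_fderiv one_ne_zero
    refine Continuous.integrable_of_hasCompactSupport (by fun_prop) ?_
    refine (hGcs.fderiv ℝ).mono' ?_
    intro x hx
    refine subset_closure ?_
    intro h0
    apply hx
    simp only at h0 ⊢
    rw [h0]; simp
  have hI2 : Integrable G := hGC.continuous.integrable_of_hasCompactSupport hGcs
  have hI3 : Integrable (fun x => ‖fderiv ℝ u x‖ ^ 2) := by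
    refine Continuous.integrable_of_hasCompactSupport (by fun_prop) ?_
    refine (hcs.fderiv ℝ).mono' ?_
    intro x hx
    refine subset_closure ?_
    intro h0
    apply hx
    simp only at h0 ⊢
    rw [h0]; simp
  have hI4 : Integrable (fun x => u x ^ 2) := by
    refine Continuous.integrable_of_hasCompactSupport (by fun_prop) ?_
    refine hcs.mono' ?_
    intro x hx
    refine subset_closure ?_
    intro h0
    apply hx
    simp [h0]
  have hmain := integral_mono (hI1.add (hI2.const_mul (d : ℝ))).neg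
    (hI3.sub (hI4.const_mul μ)) hpt
  have e1 : ∫ x, (-((fun x => fderiv ℝ G x x) + fun x => (d : ℝ) * G x)) x = 0 := by
    have : ∀ x, (-((fun x => fderiv ℝ G x x) + fun x => (d : ℝ) * G x)) x =
        -(fderiv ℝ G x x + (d : ℝ) * G x) := fun x => rfl
    simp_rw [this]
    rw [integral_neg, integral_add hI1 (hI2.const_mul _), integral_fderiv_self hGC hGcs,
      integral_const_mul]
    ring
  have e2 : ∫ x, ((fun x => ‖fderiv ℝ u x‖ ^ 2) - fun x => μ * u x ^ 2) x =
      (∫ x, ‖fderiv ℝ u x‖ ^ 2) - μ * ∫ x, u x ^ 2 := by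
    have : ∀ x, ((fun x => ‖fderiv ℝ u x‖ ^ 2) - fun x => μ * u x ^ 2) x =
        ‖fderiv ℝ u x‖ ^ 2 - μ * u x ^ 2 := fun x => rfl
    simp_rw [this]
    rw [integral_sub hI3 (hI4.const_mul _), integral_const_mul]
  rw [e1, e2] at hmain
  linarith

end Pool.Agent.Lib.H38.Tor
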