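import Mathlib
import Pool.Agent.Lib.H38.Tor.Defs
import Pool.Agent.Lib.H38.Tor.BallRay

set_option autoImplicit false

/-!
# The torsion functional of the unit ball
-/

namespace Pool.Agent.Lib.H38.Tor

open MeasureTheory Set Filter Topology

theorem omega_pos' (d : ℕ) : 0 < omega d := by
  unfold omega
  refine ENNReal.toReal_pos ?_ measure_ball_lt_top.ne
  exact (Metric.measure_ball_pos volume _ one_pos).ne'

/-- Cauchy-Schwarz and Euler's identity. -/
theorem sq_integral_le {d : ℕ} (hd : 1 ≤ d) {u : E d → ℝ} (hu : ContDiff ℝ 1 u)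
    (hcs : HasCompactSupport u) (hsub : tsupport u ⊆ Metric.ball (0 : E d) 1) :
    (∫ x, u x) ^ 2 ≤ omega d / d ^ 2 * ∫ x, ‖fderiv ℝ u x‖ ^ 2 := by
  have hd0 : (0 : ℝ) < d := by exact_mod_cast hd
  have hω := omega_pos' d
  have hu' : Continuous (fun x => fderiv ℝ u x) := hu.continuous_fderiv one_ne_zero
  have hcf : HasCompactSupport (fun x => fderiv ℝ u x) := hcs.fderiv ℝ
  have hz : ∀ x, x ∉ Metric.ball (0 : E d) 1 → fderiv ℝ u x = 0 := by
    intro x hx
    have h1 : x ∉ tsupport (fderiv ℝ u) := fun h => hx (hsub (tsupport_fderiv_subset ℝ h))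
    exact image_eq_zero_of_notMem_tsupport h1
  have hI1 : Integrable (fun x => ‖fderiv ℝ u x‖) :=
    (hu'.norm).integrable_of_hasCompactSupport hcf.norm
  have hI2 : Integrable (fun x => ‖fderiv ℝ u x‖ ^ 2) := by
    refine Continuous.integrable_of_hasCompactSupport (by fun_prop) ?_
    refine hcf.mono' ?_
    intro x hx
    refine subset_closure ?_
    intro h0
    apply hx
    simp only at h0 ⊢
    rw [h0]; simp
  set A := ∫ x, ‖fderiv ℝ u x‖ with hA
  set D := ∫ x, ‖fderiv ℝ u x‖ ^ 2 with hD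
  have hA0 : 0 ≤ A := integral_nonneg fun x => norm_nonneg _
  -- step 1
  have h1 : |∫ x, u x| ≤ A / d := by
    have e := integral_fderiv_self hu hcs
    have h2 : |∫ x, fderiv ℝ u x x| ≤ A := by
      refine (abs_integral_le_integral_abs).trans ?_
      refine integral_mono_of_nonneg (Eventually.of_forall fun x => abs_nonneg _) hI1
        (Eventually.of_forall fun x => ?_)
      simp only
      by_cases hx : x ∈ Metric.ball (0 : E d) 1
      · rw [mem_ball_zero_iff] at hx
        calc |fderiv ℝ u x x| ≤ ‖fderiv ℝ u x‖ * ‖x‖ := (fderiv ℝ u x).le_opNorm x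
          _ ≤ ‖fderiv ℝ u x‖ * 1 := by gcongr
          _ = _ := mul_one _
      · rw [hz x hx]; simp
    rw [e, abs_neg, abs_mul, abs_of_pos hd0] at h2
    rw [le_div_iff₀ hd0]
    linarith
  -- step 2
  have h2 : A ^ 2 ≤ omega d * D := by
    set c := A / omega d with hc
    have h3 : 0 ≤ ∫ x in Metric.ball (0 : E d) 1, (‖fderiv ℝ u x‖ - c) ^ 2 :=
      integral_nonneg fun x => by positivity
    have e1 : ∫ x in Metric.ball (0 : E d) 1, ‖fderiv ℝ u x‖ = A := by
      rw [hA]
      refine setIntegral_eq_integral_of_forall_compl_eq_zero fun x hx => ?_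
      rw [hz x hx]; simp
    have e2 : ∫ x in Metric.ball (0 : E d) 1, ‖fderiv ℝ u x‖ ^ 2 = D := by
      rw [hD]
      refine setIntegral_eq_integral_of_forall_compl_eq_zero fun x hx => ?_
      rw [hz x hx]; simp
    have e3 : ∫ x in Metric.ball (0 : E d) 1, (‖fderiv ℝ u x‖ - c) ^ 2 =
        D - 2 * c * A + c ^ 2 * omega d := by
      have : ∀ x : E d, (‖fderiv ℝ u x‖ - c) ^ 2 =
          ‖fderiv ℝ u x‖ ^ 2 - 2 * c * ‖fderiv ℝ u x‖ + c ^ 2 := fun x => by ring
      simp_rw [this]
      have hf : IsFiniteMeasure ((volume : Measure (E d)).restrict (Metric.ball (0 : E d) 1)) :=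
        ⟨by rw [Measure.restrict_apply_univ]; exact measure_ball_lt_top⟩
      rw [integral_add, integral_sub, integral_const_mul, e1, e2, integral_const]
      · simp only [smul_eq_mul, Measure.real, Measure.restrict_apply_univ, omega]
        ring
      · exact hI2.integrableOn
      · exact (hI1.integrableOn).const_mul _
      · exact (hI2.integrableOn).sub ((hI1.integrableOn).const_mul _)
      · exact integrable_const _
    rw [e3, hc] at h3
    field_simp at h3
    have h4 : 0 ≤ omega d * D - A ^ 2 := by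
      by_contra hneg
      push Not at hneg
      have : omega d * (omega d * D - A ^ 2) < 0 := mul_neg_of_pos_of_neg hω hneg
      nlinarith
    linarith
  have h3 : (∫ x, u x) ^ 2 ≤ (A / d) ^ 2 := by
    rw [← sq_abs]
    exact pow_le_pow_left₀ (abs_nonneg _) h1 2
  calc (∫ x, u x) ^ 2 ≤ (A / d) ^ 2 := h3
    _ = A ^ 2 / d ^ 2 := by rw [div_pow]
    _ ≤ (omega d * D) / d ^ 2 := by gcongr
    _ = _ := by ring

/-- CHUNK BALLTOR (a). -/
theorem torB_bdd {d : ℕ} (hd : 1 ≤ d) : BddAbove (TorSet (Metric.ball (0 : E d) 1)) := by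
  refine ⟨omega d / d ^ 2, ?_⟩
  rintro r ⟨u, hu, hcs, hsub, hne, rfl⟩
  have h := sq_integral_le hd hu hcs hsub
  have hω := omega_pos' d
  have hD : 0 ≤ ∫ x, ‖fderiv ℝ u x‖ ^ 2 := integral_nonneg fun x => by positivity
  rcases hD.eq_or_lt with h0 | h0
  · rw [← h0]; simp only [div_zero]; positivity
  · rw [div_le_iff₀ h0]; exact h

/-- integral of the torsion function of the unit ball -/
theorem integral_wB {d : ℕ} (hd : 1 ≤ d) :
    ∫ x in Metric.ball (0 : E d) 1, (1 - ‖x‖ ^ 2) / (2 * d) = TB d := by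
  have hd0 : (0 : ℝ) < d := by exact_mod_cast hd
  have : Nontrivial (E d) := by
    have : Nonempty (Fin d) := ⟨⟨0, hd⟩⟩
    infer_instance
  rw [← integral_indicator measurableSet_ball]
  have e1 : ∀ x : E d, (Metric.ball (0 : E d) 1).indicator (fun x => (1 - ‖x‖ ^ 2) / (2 * d)) x =
      (fun y : ℝ => (Iio (1 : ℝ)).indicator (fun y => (1 - y ^ 2) / (2 * d)) y) ‖x‖ := by
    intro x
    by_cases hx : ‖x‖ < 1
    · rw [indicator_of_mem (mem_ball_zero_iff.2 hx)]
      simp only
      rw [indicator_of_mem (mem_Iio.2 hx)]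
    · rw [indicator_of_notMem (fun h => hx (mem_ball_zero_iff.1 h))]
      simp only
      rw [indicator_of_notMem (fun h => hx (mem_Iio.1 h))]
  simp_rw [e1]
  rw [integral_fun_norm_addHaar]
  have e2 : ∫ y in Ioi (0 : ℝ), y ^ (Module.finrank ℝ (E d) - 1) •
      (fun y : ℝ => (Iio (1 : ℝ)).indicator (fun y => (1 - y ^ 2) / (2 * d)) y) y =
      ∫ y in (0 : ℝ)..1, y ^ (d - 1) * ((1 - y ^ 2) / (2 * d)) := by
    rw [intervalIntegral.integral_of_le zero_le_one]
    rw [← integral_indicator measurableSet_Ioi, ← integral_indicator measurableSet_Ioc]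
    congr 1
    funext y
    simp only [finrank_euclideanSpace, Fintype.card_fin, smul_eq_mul]
    by_cases h0 : 0 < y
    · rw [indicator_of_mem (mem_Ioi.2 h0)]
      rcases lt_trichotomy y 1 with h1 | h1 | h1
      · rw [indicator_of_mem (mem_Iio.2 h1), indicator_of_mem (mem_Ioc.2 ⟨h0, h1.le⟩)]
      · rw [indicator_of_notMem (by rw [h1]; simp), indicator_of_mem (mem_Ioc.2 ⟨h0, h1.le⟩), h1]
        simp
      · rw [indicator_of_notMem (fun h => by rw [mem_Iio] at h; linarith),
          indicator_of_notMem (fun h => by have := h.2; linarith)]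
        simp
    · rw [indicator_of_notMem (fun h => h0 (mem_Ioi.1 h)),
        indicator_of_notMem (fun h => h0 h.1)]
  rw [e2]
  have e3 : ∫ y in (0 : ℝ)..1, y ^ (d - 1) * ((1 - y ^ 2) / (2 * d)) =
      1 / ((d : ℝ) ^ 2 * (d + 2)) := by
    have : ∀ y : ℝ, y ^ (d - 1) * ((1 - y ^ 2) / (2 * d)) =
        (1 / (2 * (d : ℝ))) * y ^ (d - 1) - (1 / (2 * (d : ℝ))) * y ^ (d + 1) := by
      intro y
      have : y ^ (d + 1) = y ^ (d - 1) * y ^ 2 := by
        rw [← pow_add]; congr 1; omega
      rw [this]; ring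
    simp_rw [this]
    rw [intervalIntegral.integral_sub, intervalIntegral.integral_const_mul,
      intervalIntegral.integral_const_mul, integral_pow, integral_pow]
    · have : ((d - 1 : ℕ) : ℝ) + 1 = d := by
        have : (d - 1 : ℕ) + 1 = d := by omega
        exact_mod_cast this
      rw [this]
      push_cast
      have hd1 : d - 1 + 1 ≠ 0 := by omega
      simp only [one_pow, ne_eq, hd1, not_false_eq_true, zero_pow, sub_zero]
      rw [zero_pow (by omega)]
      field_simp
      ring
    · exact (by fun_prop : Continuous fun y : ℝ => 1 / (2 * (d : ℝ)) * y ^ (d - 1)).intervalIntegrable _ _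
    · exact (by fun_prop : Continuous fun y : ℝ => 1 / (2 * (d : ℝ)) * y ^ (d + 1)).intervalIntegrable _ _
  rw [e3]
  simp only [finrank_euclideanSpace, Fintype.card_fin, smul_eq_mul, nsmul_eq_mul]
  unfold TB omega Measure.real
  field_simp

/-- cut-off -/
noncomputable def gk (κ t : ℝ) : ℝ := max 0 (min 1 ((t - κ) / κ))

lemma gk_cont (κ : ℝ) : Continuous (gk κ) := by unfold gk; fun_prop

lemma gk_nonneg (κ t : ℝ) : 0 ≤ gk κ t := le_max_left _ _

lemma gk_le_one (κ t : ℝ) : gk κ t ≤ 1 := max_le zero_le_one (min_le_left _ _)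

lemma gk_zero {κ t : ℝ} (hκ : 0 < κ) (ht : t ≤ κ) : gk κ t = 0 := by
  unfold gk
  refine max_eq_left ((min_le_right _ _).trans ?_)
  exact div_nonpos_of_nonpos_of_nonneg (by linarith) hκ.le

lemma gk_one {κ t : ℝ} (hκ : 0 < κ) (ht : 2 * κ ≤ t) : gk κ t = 1 := by
  unfold gk
  have : 1 ≤ (t - κ) / κ := by rw [le_div_iff₀ hκ]; linarith
  rw [min_eq_left this]; simp

/-- primitive of the cut-off -/
noncomputable def Pk (κ t : ℝ) : ℝ := ∫ τ in (0 : ℝ)..t, gk κ τ

lemma Pk_deriv (κ t : ℝ) : HasDerivAt (Pk κ) (gk κ t) t :=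
  intervalIntegral.integral_hasDerivAt_right ((gk_cont κ).intervalIntegrable _ _)
    ((gk_cont κ).stronglyMeasurableAtFilter _ _) (gk_cont κ).continuousAt

lemma Pk_zero {κ t : ℝ} (hκ : 0 < κ) (ht : t ≤ κ) : Pk κ t = 0 := by
  unfold Pk
  have : ∀ τ ∈ uIcc 0 t, gk κ τ = (fun _ => (0 : ℝ)) τ := by
    intro τ hτ
    apply gk_zero hκ
    rcases le_total 0 t with h | h
    · rw [uIcc_of_le h] at hτ; exact hτ.2.trans ht
    · rw [uIcc_of_ge h] at hτ; exact hτ.2.trans hκ.le
  rw [intervalIntegral.integral_congr this]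
  simp

lemma Pk_ge {κ t : ℝ} (hκ : 0 < κ) (ht : 0 ≤ t) : t - 2 * κ ≤ Pk κ t := by
  have hmono : Monotone (Pk κ) := by
    apply monotone_of_deriv_nonneg (fun t => (Pk_deriv κ t).differentiableAt)
    intro t
    rw [(Pk_deriv κ t).deriv]
    exact gk_nonneg _ _
  rcases le_total t (2 * κ) with h | h
  · have : Pk κ 0 ≤ Pk κ t := hmono ht
    have h0 : Pk κ 0 = 0 := Pk_zero hκ hκ.le
    linarith
  · unfold Pk
    rw [← intervalIntegral.integral_add_adjacent_intervals (b := 2 * κ)
      ((gk_cont κ).intervalIntegrable _ _) ((gk_cont κ).intervalIntegrable _ _)]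
    have h1 : 0 ≤ ∫ τ in (0 : ℝ)..(2 * κ), gk κ τ :=
      intervalIntegral.integral_nonneg (by linarith) (fun τ _ => gk_nonneg _ _)
    have h2 : ∫ τ in (2 * κ)..t, gk κ τ = t - 2 * κ := by
      have : ∀ τ ∈ uIcc (2 * κ) t, gk κ τ = (fun _ => (1 : ℝ)) τ := by
        intro τ hτ
        rw [uIcc_of_le h] at hτ
        exact gk_one hκ hτ.1
      rw [intervalIntegral.integral_congr this]
      simp
    linarith

lemma Pk_nonneg {κ : ℝ} (hκ : 0 < κ) (t : ℝ) : 0 ≤ Pk κ t := by
  have hmono : Monotone (Pk κ) := by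
    apply monotone_of_deriv_nonneg (fun t => (Pk_deriv κ t).differentiableAt)
    intro t
    rw [(Pk_deriv κ t).deriv]
    exact gk_nonneg _ _
  rcases le_total t κ with h | h
  · rw [Pk_zero hκ h]
  · have : Pk κ κ ≤ Pk κ t := hmono h
    rwa [Pk_zero hκ le_rfl] at this

/-- Main estimate for the test functions. -/
theorem tor_test {d : ℕ} (hd : 1 ≤ d) {κ : ℝ} (hκ : 0 < κ) (hκ2 : 2 * κ < 1 / (2 * d)) :
    TB d - 2 * κ * omega d ≤ sSup (TorSet (Metric.ball (0 : E d) 1)) := by
  have hd0 : (0 : ℝ) < d := by exact_mod_cast hd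
  have hω := omega_pos' d
  set w : E d → ℝ := fun x => (1 - ‖x‖ ^ 2) / (2 * d) with hw
  set u : E d → ℝ := fun x => Pk κ (w x) with hu
  have hwC : ContDiff ℝ 1 w := by
    have : ContDiff ℝ 1 (fun x : E d => ‖x‖ ^ 2) := contDiff_norm_sq ℝ
    exact (contDiff_const.sub this).div_const _
  have hPC : ContDiff ℝ 1 (Pk κ) := by
    rw [contDiff_one_iff_deriv]
    refine ⟨fun s => (Pk_deriv κ s).differentiableAt, ?_⟩
    have : deriv (Pk κ) = gk κ := funext fun s => (Pk_deriv κ s).deriv
    rw [this]; exact gk_cont κ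
  have huC : ContDiff ℝ 1 u := hPC.comp hwC
  have hsupp : tsupport u ⊆ {x : E d | κ ≤ w x} := by
    refine closure_minimal ?_ (isClosed_le continuous_const hwC.continuous)
    intro x hx
    by_contra h
    apply hx
    simp only [mem_ofPred_eq, not_le] at h
    exact Pk_zero hκ h.le
  have hsub : tsupport u ⊆ Metric.ball (0 : E d) 1 := by
    intro x hx
    have h1 : κ ≤ w x := hsupp hx
    rw [mem_ball_zero_iff]
    by_contra hcon
    push Not at hcon
    have : w x ≤ 0 := by
      simp only [hw]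
      apply div_nonpos_of_nonpos_of_nonneg _ (by positivity)
      nlinarith
    linarith
  have hcs : HasCompactSupport u := by
    refine (isCompact_closedBall (0 : E d) 1).of_isClosed_subset (isClosed_tsupport u) ?_
    exact hsub.trans Metric.ball_subset_closedBall
  have hne : u ≠ 0 := by
    intro h
    have h0 : u 0 = 0 := by rw [h]; rfl
    have h1 : w 0 = 1 / (2 * d) := by simp [hw]
    have h2 := Pk_ge hκ (t := w 0) (by rw [h1]; positivity)
    simp only [hu] at h0
    rw [h0, h1] at h2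
    linarith
  have hwd : ∀ x, HasFDerivAt w ((-(1 / (d : ℝ))) • innerSL ℝ x) x := by
    intro x
    have hn1 : HasFDerivAt (fun x : E d => ‖x‖ ^ 2) (2 • innerSL ℝ x) x :=
      (hasStrictFDerivAt_norm_sq x).hasFDerivAt
    have := (hn1.const_sub 1).mul_const (1 / (2 * (d : ℝ)))
    convert! this using 1
    · funext y
      simp only [hw]
      ring
    · ext y
      simp
      field_simp
  have hud : ∀ x, fderiv ℝ u x = (-(gk κ (w x) / d)) • innerSL ℝ x := by
    intro x
    have := (Pk_deriv κ (w x)).comp_hasFDerivAt x (hwd x)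
    rw [show u = Pk κ ∘ w from rfl, this.fderiv, smul_smul]
    congr 1
    field_simp
  have hI0 : Integrable u := huC.continuous.integrable_of_hasCompactSupport hcs
  have hI1 : Integrable (fun x => fderiv ℝ u x x) := by
    have hu' : Continuous (fun x => fderiv ℝ u x) := huC.continuous_fderiv one_ne_zero
    refine Continuous.integrable_of_hasCompactSupport (by fun_prop) ?_
    refine (hcs.fderiv ℝ).mono' ?_
    intro x hx
    refine subset_closure ?_
    intro h0
    apply hx
    simp only at h0 ⊢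
    rw [h0]; simp
  have hI2 : Integrable (fun x => ‖fderiv ℝ u x‖ ^ 2) := by
    have hu' : Continuous (fun x => fderiv ℝ u x) := huC.continuous_fderiv one_ne_zero
    refine Continuous.integrable_of_hasCompactSupport (by fun_prop) ?_
    refine (hcs.fderiv ℝ).mono' ?_
    intro x hx
    refine subset_closure ?_
    intro h0
    apply hx
    simp only at h0 ⊢
    rw [h0]; simp
  -- energy estimate
  have hDle : ∫ x, ‖fderiv ℝ u x‖ ^ 2 ≤ ∫ x, u x := by
    have e := integral_fderiv_self huC hcs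
    have h1 : ∫ x, ‖fderiv ℝ u x‖ ^ 2 ≤ ∫ x, -(1 / (d : ℝ)) * fderiv ℝ u x x := by
      refine integral_mono hI2 (hI1.const_mul _) fun x => ?_
      simp only
      rw [hud x]
      rw [norm_smul, innerSL_apply_norm]
      simp only [smul_apply, innerSL_apply_apply, real_inner_self_eq_norm_sq,
        smul_eq_mul, norm_neg, Real.norm_eq_abs]
      rw [abs_of_nonneg (div_nonneg (gk_nonneg _ _) hd0.le)]
      have h2 := gk_nonneg κ (w x)
      have h3 := gk_le_one κ (w x)
      have h4 : gk κ (w x) ^ 2 ≤ gk κ (w x) := by nlinarith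
      calc (gk κ (w x) / d * ‖x‖) ^ 2 = gk κ (w x) ^ 2 * (‖x‖ ^ 2 / d ^ 2) := by ring
        _ ≤ gk κ (w x) * (‖x‖ ^ 2 / d ^ 2) := by gcongr
        _ = _ := by ring
    rw [integral_const_mul, e] at h1
    refine h1.trans (le_of_eq ?_)
    field_simp
  have hnn : 0 ≤ ∫ x, u x := integral_nonneg fun x => Pk_nonneg hκ _
  have hD0 : 0 ≤ ∫ x, ‖fderiv ℝ u x‖ ^ 2 := integral_nonneg fun x => by positivity
  have hq : ∫ x, u x ≤ (∫ x, u x) ^ 2 / ∫ x, ‖fderiv ℝ u x‖ ^ 2 := by
    rcases hD0.eq_or_lt with h0 | h0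
    · have := sq_integral_le hd huC hcs hsub
      rw [← h0, mul_zero] at this
      have h1 : ∫ x, u x = 0 := by
        have := le_antisymm this (sq_nonneg _)
        exact pow_eq_zero_iff (two_ne_zero) |>.1 this
      rw [h1]; simp
    · rw [le_div_iff₀ h0]
      nlinarith
  have hint : TB d - 2 * κ * omega d ≤ ∫ x, u x := by
    have hf : IsFiniteMeasure ((volume : Measure (E d)).restrict (Metric.ball (0 : E d) 1)) :=
      ⟨by rw [Measure.restrict_apply_univ]; exact measure_ball_lt_top⟩
    have e1 : ∫ x, u x = ∫ x in Metric.ball (0 : E d) 1, u x := by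
      symm
      refine setIntegral_eq_integral_of_forall_compl_eq_zero fun x hx => ?_
      exact image_eq_zero_of_notMem_tsupport fun h => hx (hsub h)
    have hwI : IntegrableOn w (Metric.ball (0 : E d) 1) :=
      (hwC.continuous.continuousOn.integrableOn_compact
        (isCompact_closedBall (0 : E d) 1)).mono_set Metric.ball_subset_closedBall
    have e2 : ∫ x in Metric.ball (0 : E d) 1, (w x - 2 * κ) = TB d - 2 * κ * omega d := by
      rw [integral_sub hwI (integrable_const _)]
      simp only [hw]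
      rw [integral_wB hd, integral_const]
      simp only [smul_eq_mul, Measure.real, Measure.restrict_apply_univ, omega]
      ring
    rw [e1, ← e2]
    refine setIntegral_mono_on (hwI.sub (integrable_const _)) hI0.integrableOn measurableSet_ball
      fun x hx => ?_
    refine Pk_ge hκ ?_
    rw [mem_ball_zero_iff] at hx
    simp only [hw]
    apply div_nonneg _ (by positivity)
    have := norm_nonneg x
    nlinarith
  exact (hint.trans hq).trans (le_csSup (torB_bdd hd) ⟨u, huC, hcs, hsub, hne, rfl⟩)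

/-- CHUNK BALLTOR (b). -/
theorem torB_ge {d : ℕ} (hd : 1 ≤ d) : TB d ≤ sSup (TorSet (Metric.ball (0 : E d) 1)) := by
  have hd0 : (0 : ℝ) < d := by exact_mod_cast hd
  have hω := omega_pos' d
  refine le_of_forall_pos_le_add fun ε hε => ?_
  set κ := min (1 / (8 * (d : ℝ))) (ε / (2 * omega d)) with hκd
  have hκ : 0 < κ := lt_min (by positivity) (by positivity)
  have h1 : κ ≤ 1 / (8 * (d : ℝ)) := min_le_left _ _
  have h2 : κ ≤ ε / (2 * omega d) := min_le_right _ _
  have h3 : 2 * κ < 1 / (2 * d) := by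
    have : 2 * κ ≤ 1 / (4 * (d : ℝ)) := by
      calc 2 * κ ≤ 2 * (1 / (8 * (d : ℝ))) := by gcongr
        _ = _ := by field_simp; norm_num
    refine this.trans_lt ?_
    apply one_div_lt_one_div_of_lt (by positivity)
    linarith
  have h4 := tor_test hd hκ h3
  have h5 : 2 * κ * omega d ≤ ε := by
    rw [le_div_iff₀ (by positivity)] at h2
    linarith
  linarith

end Pool.Agent.Lib.H38.Tor
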