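import Mathlib
import Pool.Agent.Lib.H38.Tor.Defs
import Pool.Agent.Lib.H38.Tor.RadialDef

set_option autoImplicit false

/-!
# The radial eigenfunction of the ball
-/

namespace Pool.Agent.Lib.H38.Tor

open MeasureTheory Set Filter Topology

/-- power series -/
noncomputable def psum (c : ℕ → ℝ) (y : ℝ) : ℝ := ∑' k, c k * y ^ k

/-- coefficients of the derivative -/
def dcoef (c : ℕ → ℝ) : ℕ → ℝ := fun k => (k + 1) * c (k + 1)

/-- exponential-type bound for the coefficients -/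
def PSBound (c : ℕ → ℝ) : Prop :=
  ∃ C ρ : ℝ, 0 ≤ C ∧ 0 ≤ ρ ∧ ∀ k : ℕ, |c k| ≤ C * ρ ^ k / k.factorial

theorem PSBound.dcoef {c : ℕ → ℝ} (hc : PSBound c) : PSBound (dcoef c) := by
  obtain ⟨C, ρ, hC, hρ, h⟩ := hc
  refine ⟨C * ρ, ρ, by positivity, hρ, fun k => ?_⟩
  have h1 := h (k + 1)
  rw [Tor.dcoef, abs_mul, abs_of_nonneg (by positivity : (0 : ℝ) ≤ (k : ℝ) + 1)]
  calc ((k : ℝ) + 1) * |c (k + 1)| ≤ (k + 1) * (C * ρ ^ (k + 1) / (k + 1).factorial) := by gcongr
    _ = C * ρ * ρ ^ k / k.factorial := by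
        rw [Nat.factorial_succ]
        push_cast
        field_simp
        ring

theorem PSBound.summable_abs {c : ℕ → ℝ} (hc : PSBound c) (R : ℝ) (hR : 0 ≤ R) :
    Summable (fun k => |c k| * R ^ k) := by
  obtain ⟨C, ρ, hC, hρ, h⟩ := hc
  have h1 : Summable (fun k : ℕ => C * ((ρ * R) ^ k / k.factorial)) :=
    (Real.summable_pow_div_factorial (ρ * R)).mul_left C
  refine Summable.of_nonneg_of_le (fun k => by positivity) (fun k => ?_) h1
  calc |c k| * R ^ k ≤ C * ρ ^ k / k.factorial * R ^ k := by gcongr; exact h k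
    _ = C * ((ρ * R) ^ k / k.factorial) := by rw [mul_pow]; ring

theorem PSBound.summable {c : ℕ → ℝ} (hc : PSBound c) (y : ℝ) :
    Summable (fun k => c k * y ^ k) := by
  apply Summable.of_norm
  have := hc.summable_abs |y| (abs_nonneg y)
  refine this.congr fun k => ?_
  rw [Real.norm_eq_abs, abs_mul, abs_pow]

theorem PSBound.hasDerivAt {c : ℕ → ℝ} (hc : PSBound c) (y : ℝ) :
    HasDerivAt (psum c) (psum (Tor.dcoef c) y) y := by
  set R : ℝ := |y| + 1 with hR
  have hR0 : 0 ≤ R := by positivity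
  have hsum : Summable (fun k : ℕ => |c k| * (k * R ^ (k - 1))) := by
    rw [← summable_nat_add_iff 1]
    have h1 := hc.dcoef.summable_abs R hR0
    refine h1.congr fun k => ?_
    rw [Tor.dcoef, abs_mul, abs_of_nonneg (by positivity : (0 : ℝ) ≤ (k : ℝ) + 1)]
    push_cast
    ring
  have h := hasDerivAt_tsum_of_isPreconnected (g := fun (k : ℕ) (z : ℝ) => c k * z ^ k)
    (g' := fun (k : ℕ) (z : ℝ) => c k * (k * z ^ (k - 1))) hsum
    (Metric.isOpen_ball (x := (0 : ℝ)) (ε := R)) (convex_ball (0 : ℝ) R).isPreconnected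
    (fun k z _ => (hasDerivAt_pow k z).const_mul (c k))
    (fun k z hz => by
      have hz' : |z| ≤ R := by
        have := Metric.mem_ball.mp hz
        rw [Real.dist_eq, sub_zero] at this
        exact this.le
      rw [Real.norm_eq_abs, abs_mul, abs_mul, abs_pow, Nat.abs_cast]
      gcongr)
    (y₀ := 0) (Metric.mem_ball_self (by positivity)) (hc.summable 0) (y := y)
    (by rw [Metric.mem_ball, Real.dist_eq, sub_zero]; linarith [abs_nonneg y])
  have h2 : psum (Tor.dcoef c) y = ∑' k : ℕ, c k * (k * y ^ (k - 1)) := by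
    rw [tsum_eq_zero_add' (f := fun k : ℕ => c k * (k * y ^ (k - 1)))]
    · simp only [Nat.cast_zero, zero_mul, mul_zero, zero_add]
      rw [psum]
      refine tsum_congr fun k => ?_
      rw [Tor.dcoef]
      push_cast
      ring
    · refine (hc.dcoef.summable y).congr fun k => ?_
      rw [Tor.dcoef]
      push_cast
      ring
  rw [h2]
  exact h

/-- The coefficients of `J y = ∑ (-y)^k / (k! (d/2)_k)`. -/
noncomputable def bc (d : ℕ) : ℕ → ℝ
  | 0 => 1
  | k + 1 => -(bc d k) / ((k + 1) * (k + d / 2))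

theorem bc_bound {d : ℕ} (hd : 1 ≤ d) : PSBound (bc d) := by
  refine ⟨1, 2, zero_le_one, by norm_num, fun k => ?_⟩
  have hd' : (1 : ℝ) ≤ d := by exact_mod_cast hd
  induction k with
  | zero => simp [bc]
  | succ k ih =>
    have hk : (0 : ℝ) ≤ k := Nat.cast_nonneg k
    rw [bc, abs_div, abs_neg, abs_of_pos (by positivity : (0 : ℝ) < (k + 1) * (k + d / 2))]
    rw [Nat.factorial_succ, one_mul] at *
    rw [div_le_div_iff₀ (by positivity) (by positivity)]
    rw [le_div_iff₀ (by positivity)] at ih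
    push_cast
    calc |bc d k| * ((k + 1) * (k.factorial : ℝ)) = (|bc d k| * k.factorial) * (k + 1) := by ring
      _ ≤ 2 ^ k * (k + 1) := by gcongr
      _ ≤ 2 ^ k * (k + 1) * (2 * (k + d / 2)) := by
          apply le_mul_of_one_le_right (by positivity)
          linarith
      _ = 2 ^ (k + 1) * ((k + 1) * (k + d / 2)) := by rw [pow_succ]; ring

theorem bc_rec {d : ℕ} (hd : 1 ≤ d) (k : ℕ) :
    ((k : ℝ) + 1) * (k + d / 2) * bc d (k + 1) + bc d k = 0 := by
  have hd' : (1 : ℝ) ≤ d := by exact_mod_cast hd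
  have hk : (0 : ℝ) ≤ k := Nat.cast_nonneg k
  rw [bc]
  have h1 : (k : ℝ) + 1 ≠ 0 := by positivity
  have h2 : (k : ℝ) + d / 2 ≠ 0 := by positivity
  field_simp
  ring

/-- `J`, `J'`, `J''` -/
noncomputable def J0 (d : ℕ) : ℝ → ℝ := psum (bc d)
noncomputable def J1 (d : ℕ) : ℝ → ℝ := psum (dcoef (bc d))
noncomputable def J2 (d : ℕ) : ℝ → ℝ := psum (dcoef (dcoef (bc d)))

theorem bessel_ode {d : ℕ} (hd : 1 ≤ d) (y : ℝ) : y * J2 d y + d / 2 * J1 d y + J0 d y = 0 := by
  have s0 := (bc_bound hd).summable y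
  have s1 := (bc_bound hd).dcoef.summable y
  have s2 := (bc_bound hd).dcoef.dcoef.summable y
  have s3 : Summable (fun k : ℕ => (k : ℝ) * (k + 1) * bc d (k + 1) * y ^ k) := by
    rw [← summable_nat_add_iff 1]
    refine (s2.mul_left y).congr fun k => ?_
    simp only [dcoef]
    push_cast
    ring
  have e3 : y * J2 d y = ∑' k : ℕ, (k : ℝ) * (k + 1) * bc d (k + 1) * y ^ k := by
    rw [s3.tsum_eq_zero_add]
    simp only [Nat.cast_zero, zero_mul, zero_add]
    rw [J2, psum, ← tsum_mul_left]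
    refine tsum_congr fun k => ?_
    simp only [dcoef]
    push_cast
    ring
  rw [e3, J1, J0, psum, psum, ← tsum_mul_left, ← s3.tsum_add (s1.mul_left _),
    ← (s3.add (s1.mul_left _)).tsum_add s0]
  have : ∀ k : ℕ, (k : ℝ) * (k + 1) * bc d (k + 1) * y ^ k + d / 2 * (dcoef (bc d) k * y ^ k) +
      bc d k * y ^ k = 0 := by
    intro k
    have h := bc_rec hd k
    have : (k : ℝ) * (k + 1) * bc d (k + 1) * y ^ k + d / 2 * (dcoef (bc d) k * y ^ k) +
      bc d k * y ^ k = (((k : ℝ) + 1) * (k + d / 2) * bc d (k + 1) + bc d k) * y ^ k := by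
      rw [dcoef]; ring
    rw [this, h, zero_mul]
  simp [this]

theorem J0_deriv {d : ℕ} (hd : 1 ≤ d) (y : ℝ) : HasDerivAt (J0 d) (J1 d y) y :=
  (bc_bound hd).hasDerivAt y

theorem J1_deriv {d : ℕ} (hd : 1 ≤ d) (y : ℝ) : HasDerivAt (J1 d) (J2 d y) y :=
  (bc_bound hd).dcoef.hasDerivAt y

theorem J2_cont {d : ℕ} (hd : 1 ≤ d) : Continuous (J2 d) :=
  continuous_iff_continuousAt.mpr fun y => ((bc_bound hd).dcoef.dcoef.hasDerivAt y).continuousAt

theorem J0_zero (d : ℕ) : J0 d 0 = 1 := by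
  rw [J0, psum, tsum_eq_single 0]
  · simp [bc]
  · intro k hk; simp [hk]

theorem J1_zero {d : ℕ} (hd : 1 ≤ d) : J1 d 0 < 0 := by
  have h := bessel_ode hd 0
  rw [zero_mul, zero_add, J0_zero] at h
  have hd' : (0 : ℝ) < d := by exact_mod_cast hd
  nlinarith

/-- `ψ s = J (μ s / 4)` is radial. -/
theorem radial_J {d : ℕ} (hd : 1 ≤ d) (μ : ℝ) :
    Radial d μ (fun s => J0 d (μ / 4 * s)) (fun s => μ / 4 * J1 d (μ / 4 * s))
      (fun s => (μ / 4) ^ 2 * J2 d (μ / 4 * s)) where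
  h1 s := by
    have h := (J0_deriv hd (μ / 4 * s)).comp s ((hasDerivAt_id s).const_mul (μ / 4))
    exact h.congr_deriv (by ring)
  h2 s := by
    have h := ((J1_deriv hd (μ / 4 * s)).comp s ((hasDerivAt_id s).const_mul (μ / 4))).const_mul (μ / 4)
    exact h.congr_deriv (by ring)
  h3 := by
    have := J2_cont hd
    fun_prop
  ode s := by
    have h := bessel_ode hd (μ / 4 * s)
    linear_combination μ * h

/-- As long as `J > 0`, `J' < 0`. -/
theorem J1_neg {d : ℕ} (hd : 1 ≤ d) {Y : ℝ} (hpos : ∀ y ∈ Ico (0 : ℝ) Y, 0 < J0 d y) :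
    ∀ y ∈ Icc (0 : ℝ) Y, J1 d y < 0 := by
  intro y hy
  rcases hy.1.eq_or_lt with h0 | h0
  · rw [← h0]; exact J1_zero hd
  have hd' : (0 : ℝ) < d := by exact_mod_cast hd
  have hJ1c : Continuous (J1 d) := continuous_iff_continuousAt.mpr fun y => (J1_deriv hd y).continuousAt
  have hanti : StrictAntiOn (fun z : ℝ => z ^ ((d : ℝ) / 2) * J1 d z) (Icc 0 y) := by
    apply strictAntiOn_of_deriv_neg (convex_Icc 0 y)
    · apply ContinuousOn.mul
      · exact (Real.continuous_rpow_const (by positivity)).continuousOn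
      · exact hJ1c.continuousOn
    · intro z hz
      rw [interior_Icc] at hz
      have hz0 : 0 < z := hz.1
      have hder : HasDerivAt (fun z : ℝ => z ^ ((d : ℝ) / 2) * J1 d z)
          (((d : ℝ) / 2) * z ^ ((d : ℝ) / 2 - 1) * J1 d z + z ^ ((d : ℝ) / 2) * J2 d z) z :=
        (Real.hasDerivAt_rpow_const (Or.inl hz0.ne')).mul (J1_deriv hd z)
      rw [hder.deriv]
      have h1 : z ^ ((d : ℝ) / 2) = z ^ ((d : ℝ) / 2 - 1) * z := by
        rw [← Real.rpow_add_one hz0.ne']; ring_nf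
      have h2 := bessel_ode hd z
      have h3 : 0 < J0 d z := hpos z ⟨hz0.le, hz.2.trans_le hy.2⟩
      have h4 : 0 < z ^ ((d : ℝ) / 2 - 1) := Real.rpow_pos_of_pos hz0 _
      have h5 : ((d : ℝ) / 2) * z ^ ((d : ℝ) / 2 - 1) * J1 d z + z ^ ((d : ℝ) / 2) * J2 d z =
          - (z ^ ((d : ℝ) / 2 - 1) * J0 d z) := by
        rw [h1]
        linear_combination z ^ ((d : ℝ) / 2 - 1) * h2
      rw [h5]
      have := mul_pos h4 h3
      linarith
  have h1 := hanti (left_mem_Icc.mpr h0.le) (right_mem_Icc.mpr h0.le) h0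
  simp only at h1
  rw [Real.zero_rpow (by positivity), zero_mul] at h1
  have h2 : 0 < y ^ ((d : ℝ) / 2) := Real.rpow_pos_of_pos h0 _
  by_contra hcon
  push Not at hcon
  have := mul_nonneg h2.le hcon
  linarith

/-- CHUNK BESSEL. -/
theorem exists_radial {d : ℕ} (hd : 1 ≤ d) {Λ : ℝ}
    (hΛ : ∀ (μ : ℝ) (ψ ψ' ψ'' : ℝ → ℝ), Radial d μ ψ ψ' ψ'' →
      (∀ s ∈ Ico (0 : ℝ) 1, 0 < ψ s) → μ ≤ Λ) :
    ∃ (μ : ℝ) (ψ ψ' ψ'' : ℝ → ℝ), 0 < μ ∧ Radial d μ ψ ψ' ψ'' ∧ ψ 1 = 0 ∧
      (∀ s ∈ Ico (0 : ℝ) 1, 0 < ψ s) ∧ (∀ s ∈ Icc (0 : ℝ) 1, ψ' s < 0) := by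
  have hJc : Continuous (J0 d) := continuous_iff_continuousAt.mpr fun y => (J0_deriv hd y).continuousAt
  -- `J` vanishes somewhere
  have hex : ∃ y, 0 ≤ y ∧ J0 d y ≤ 0 := by
    by_contra hcon
    push Not at hcon
    have h1 := hΛ (max Λ 0 + 1) _ _ _ (radial_J hd (max Λ 0 + 1)) (by
      intro s hs
      apply hcon
      have : 0 ≤ max Λ 0 := le_max_right _ _
      have := hs.1
      positivity)
    have := le_max_left Λ 0
    linarith
  let Z : Set ℝ := {y | 0 ≤ y ∧ J0 d y ≤ 0}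
  have hZc : IsClosed Z := (isClosed_le continuous_const continuous_id).inter
    (isClosed_le hJc continuous_const)
  have hZb : BddBelow Z := ⟨0, fun y hy => hy.1⟩
  set y0 := sInf Z with hy0
  have hmem : y0 ∈ Z := hZc.csInf_mem hex hZb
  have hlt : ∀ y, 0 ≤ y → y < y0 → 0 < J0 d y := by
    intro y h1 h2
    by_contra hcon
    push Not at hcon
    exact absurd (csInf_le hZb (show y ∈ Z from ⟨h1, hcon⟩)) (not_le.mpr h2)
  have hy0pos : 0 < y0 := by
    rcases hmem.1.eq_or_lt with h | h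
    · exfalso
      have := hmem.2
      rw [← h, J0_zero] at this
      linarith
    · exact h
  have hzero : J0 d y0 = 0 := by
    apply le_antisymm hmem.2
    have h1 : Tendsto (J0 d) (𝓝[<] y0) (𝓝 (J0 d y0)) := hJc.continuousAt.tendsto.mono_left nhdsWithin_le_nhds
    apply ge_of_tendsto h1
    filter_upwards [Ioo_mem_nhdsLT hy0pos] with y hy
    exact (hlt y hy.1.le hy.2).le
  refine ⟨4 * y0, _, _, _, by positivity, radial_J hd (4 * y0), ?_, ?_, ?_⟩
  · beta_reduce
    rw [show 4 * y0 / 4 * 1 = y0 by ring, hzero]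
  · intro s hs
    beta_reduce
    apply hlt
    · have := hs.1
      positivity
    · have := hs.2
      nlinarith
  · intro s hs
    beta_reduce
    have h1 := J1_neg hd (Y := y0) (fun y hy => hlt y hy.1 hy.2) (4 * y0 / 4 * s) (by
      constructor
      · have := hs.1
        positivity
      · have := hs.2
        nlinarith)
    have h2 : 0 < 4 * y0 / 4 := by positivity
    nlinarith

end Pool.Agent.Lib.H38.Tor
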