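import Mathlib
import Pool.Agent.Lib.H38.Tor.Defs
import Pool.Agent.Lib.H31.IsoL1

set_option autoImplicit false

/-!
# Near minimizers of the torsion functional
-/

namespace Pool.Agent.Lib.H38.Tor

open MeasureTheory Set Filter Topology

/-! ### Primitives -/

/-- the primitive vanishing at `0` -/
noncomputable def Pr (g : ℝ → ℝ) (t : ℝ) : ℝ := ∫ τ in (0 : ℝ)..t, g τ

lemma Pr_zero (g : ℝ → ℝ) : Pr g 0 = 0 := by unfold Pr; simp

lemma Pr_hasDerivAt {g : ℝ → ℝ} (hg : Continuous g) (t : ℝ) : HasDerivAt (Pr g) (g t) t :=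
  intervalIntegral.integral_hasDerivAt_right (hg.intervalIntegrable _ _)
    (hg.stronglyMeasurableAtFilter _ _) hg.continuousAt

lemma Pr_continuous {g : ℝ → ℝ} (hg : Continuous g) : Continuous (Pr g) :=
  continuous_iff_continuousAt.2 fun t => (Pr_hasDerivAt hg t).continuousAt

lemma Pr_contDiff {g : ℝ → ℝ} (hg : Continuous g) : ContDiff ℝ 1 (Pr g) := by
  rw [contDiff_one_iff_deriv]
  refine ⟨fun t => (Pr_hasDerivAt hg t).differentiableAt, ?_⟩
  have : deriv (Pr g) = g := by funext t; exact (Pr_hasDerivAt hg t).deriv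
  rw [this]
  exact hg

lemma Pr_sub {g : ℝ → ℝ} (hg : Continuous g) (a b : ℝ) :
    Pr g b - Pr g a = ∫ τ in a..b, g τ := by
  unfold Pr
  exact intervalIntegral.integral_interval_sub_left (hg.intervalIntegrable _ _)
    (hg.intervalIntegrable _ _)

lemma Pr_mono {g : ℝ → ℝ} (hg : Continuous g) {a b : ℝ} (hab : a ≤ b)
    (h : ∀ t ∈ Icc a b, 0 ≤ g t) : Pr g a ≤ Pr g b := by
  have := Pr_sub hg a b
  have h2 : 0 ≤ ∫ τ in a..b, g τ := intervalIntegral.integral_nonneg hab h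
  linarith

/-! ### Basic facts on admissible functions -/

section adm

variable {d : ℕ} {Ω : Set (E d)} {w : E d → ℝ}

lemma Adm.cont (hw : Adm Ω w) : Continuous w := hw.c1.continuous

lemma Adm.contD (hw : Adm Ω w) : Continuous (fderiv ℝ w) := hw.c1.continuous_fderiv one_ne_zero

lemma Adm.csD (hw : Adm Ω w) : HasCompactSupport (fderiv ℝ w) := hw.cs.fderiv ℝ

lemma Adm.comp (hw : Adm Ω w) {F : ℝ → ℝ} (hF : ContDiff ℝ 1 F) (h0 : F 0 = 0) :
    Adm Ω (fun x => F (w x)) where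
  c1 := hF.comp hw.c1
  cs := hw.cs.comp_left h0
  sub := by
    refine (closure_mono ?_).trans hw.sub
    intro x hx
    simp only [Function.mem_support] at hx ⊢
    intro h
    exact hx (by rw [h, h0])

lemma Adm.pr (hw : Adm Ω w) {g : ℝ → ℝ} (hg : Continuous g) : Adm Ω (fun x => Pr g (w x)) :=
  hw.comp (Pr_contDiff hg) (Pr_zero g)

lemma Adm.fderiv_pr (hw : Adm Ω w) {g : ℝ → ℝ} (hg : Continuous g) (x : E d) :
    fderiv ℝ (fun x => Pr g (w x)) x = g (w x) • fderiv ℝ w x := by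
  have h1 : HasFDerivAt w (fderiv ℝ w x) x :=
    (hw.c1.differentiable one_ne_zero x).hasFDerivAt
  exact ((Pr_hasDerivAt hg (w x)).comp_hasFDerivAt x h1).fderiv

lemma Adm.norm_fderiv_pr (hw : Adm Ω w) {g : ℝ → ℝ} (hg : Continuous g) (x : E d) :
    ‖fderiv ℝ (fun x => Pr g (w x)) x‖ = |g (w x)| * ‖fderiv ℝ w x‖ := by
  rw [hw.fderiv_pr hg, norm_smul, Real.norm_eq_abs]

lemma Adm.smul (hw : Adm Ω w) (c : ℝ) : Adm Ω (fun x => c * w x) :=
  hw.comp (F := fun t => c * t) (by fun_prop) (by simp)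

lemma Adm.norm_fderiv_smul (hw : Adm Ω w) (c : ℝ) (x : E d) :
    ‖fderiv ℝ (fun x => c * w x) x‖ = |c| * ‖fderiv ℝ w x‖ := by
  have h1 : HasFDerivAt w (fderiv ℝ w x) x :=
    (hw.c1.differentiable one_ne_zero x).hasFDerivAt
  rw [(h1.const_mul c).fderiv, norm_smul, Real.norm_eq_abs]

/-- continuous functions of `w` vanishing at `0` are integrable -/
lemma Adm.int_comp (hw : Adm Ω w) {F : ℝ → ℝ} (hF : Continuous F) (h0 : F 0 = 0) :
    Integrable (fun x => F (w x)) :=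
  (hF.comp hw.cont).integrable_of_hasCompactSupport (hw.cs.comp_left h0)

lemma Adm.int (hw : Adm Ω w) : Integrable w :=
  hw.cont.integrable_of_hasCompactSupport hw.cs

lemma Adm.int_sq (hw : Adm Ω w) : Integrable (fun x => w x ^ 2) :=
  hw.int_comp (F := fun t => t ^ 2) (by fun_prop) (by simp)

lemma Adm.int_G1 (hw : Adm Ω w) {G : ℝ → ℝ} (hG : Continuous G) :
    Integrable (fun x => G (w x) * ‖fderiv ℝ w x‖) := by
  refine Continuous.integrable_of_hasCompactSupport ?_ ?_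
  · exact (hG.comp hw.cont).mul hw.contD.norm
  · exact (hw.csD.norm).mul_left

lemma Adm.int_G2 (hw : Adm Ω w) {G : ℝ → ℝ} (hG : Continuous G) :
    Integrable (fun x => G (w x) * ‖fderiv ℝ w x‖ ^ 2) := by
  refine Continuous.integrable_of_hasCompactSupport ?_ ?_
  · exact (hG.comp hw.cont).mul (hw.contD.norm.pow 2)
  · have : HasCompactSupport (fun x => ‖fderiv ℝ w x‖ ^ 2) :=
      hw.csD.norm.comp_left (g := fun t : ℝ => t ^ 2) (by simp)
    exact this.mul_left

lemma Adm.int_D2 (hw : Adm Ω w) : Integrable (fun x => ‖fderiv ℝ w x‖ ^ 2) := by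
  have := hw.int_G2 (G := fun _ => 1) continuous_const
  simpa using this

lemma Adm.meas_lt (hw : Adm Ω w) {t : ℝ} (ht : 0 ≤ t) : volume {x | t < w x} < ⊤ := by
  refine lt_of_le_of_lt (measure_mono ?_) hw.cs.isCompact.measure_lt_top
  intro x hx
  apply subset_tsupport
  simp only [Function.mem_support]
  intro h
  have hx : t < w x := hx
  rw [h] at hx
  linarith

lemma Adm.subset_lt (hw : Adm Ω w) {t : ℝ} (ht : 0 ≤ t) : {x | t < w x} ⊆ Ω := by
  intro x hx
  apply hw.sub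
  apply subset_tsupport
  simp only [Function.mem_support]
  intro h
  have hx : t < w x := hx
  rw [h] at hx
  linarith

lemma mm_nonneg (w : E d → ℝ) (t : ℝ) : 0 ≤ mm w t := ENNReal.toReal_nonneg

lemma Adm.mm_anti (hw : Adm Ω w) {s t : ℝ} (hs : 0 ≤ s) (hst : s ≤ t) : mm w t ≤ mm w s := by
  unfold mm
  refine ENNReal.toReal_mono (hw.meas_lt hs).ne (measure_mono ?_)
  intro x hx
  exact lt_of_le_of_lt hst hx

lemma Adm.meas_set (hw : Adm Ω w) (t : ℝ) : MeasurableSet {x | t < w x} :=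
  (isOpen_lt continuous_const hw.cont).measurableSet

/-- a nonzero admissible function has positive energy -/
lemma Adm.dir_pos (hd : 1 ≤ d) (hw : Adm Ω w) (h0 : w ≠ 0) : 0 < dir w := by
  have : Nonempty (Fin d) := ⟨⟨0, hd⟩⟩
  unfold dir
  have hne : ∃ x, ‖fderiv ℝ w x‖ ^ 2 ≠ 0 := by
    by_contra h
    push Not at h
    have h1 : ∀ x, fderiv ℝ w x = 0 := by
      intro x
      have := h x
      simpa using this
    have h2 : ∀ x y, w x = w y := is_const_of_fderiv_eq_zero (hw.c1.differentiable one_ne_zero) h1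
    apply h0
    obtain ⟨y, hy⟩ : ∃ y, y ∉ tsupport w := by
      by_contra hcon
      push Not at hcon
      have h3 : tsupport w = univ := eq_univ_of_forall hcon
      have h4 : IsCompact (univ : Set (E d)) := h3 ▸ hw.cs.isCompact
      exact noncompact_univ (E d) h4
    funext x
    rw [h2 x y]
    exact image_eq_zero_of_notMem_tsupport hy
  obtain ⟨x, hx⟩ := hne
  exact Continuous.integral_pos_of_hasCompactSupport_nonneg_nonzero (x := x)
    (hw.contD.norm.pow 2)
    (hw.csD.norm.comp_left (g := fun t : ℝ => t ^ 2) (by simp)) (fun x => by positivity) hx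

end adm

/-! ### Cauchy-Schwarz -/

lemma integral_lin3 {α : Type*} [MeasurableSpace α] {μ : Measure α} {f g h : α → ℝ}
    (hf : Integrable f μ) (hg : Integrable g μ) (hh : Integrable h μ) (a b : ℝ) :
    ∫ x, (f x + a * g x + b * h x) ∂μ = (∫ x, f x ∂μ) + a * (∫ x, g x ∂μ) + b * ∫ x, h x ∂μ := by
  have h1 : Integrable (fun x => f x + a * g x) μ := hf.add (hg.const_mul a)
  rw [integral_add h1 (hh.const_mul b), integral_add hf (hg.const_mul a), integral_const_mul,
    integral_const_mul]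

lemma cs_real {α : Type*} [MeasurableSpace α] {μ : Measure α} {f g : α → ℝ}
    (hf : Integrable (fun x => f x ^ 2) μ) (hg : Integrable (fun x => g x ^ 2) μ)
    (hfg : Integrable (fun x => f x * g x) μ) :
    (∫ x, f x * g x ∂μ) ^ 2 ≤ (∫ x, f x ^ 2 ∂μ) * ∫ x, g x ^ 2 ∂μ := by
  have h : ∀ t : ℝ, 0 ≤ (∫ x, g x ^ 2 ∂μ) * (t * t) + (2 * ∫ x, f x * g x ∂μ) * t +
      ∫ x, f x ^ 2 ∂μ := by
    intro t
    have h1 : 0 ≤ ∫ x, (f x + t * g x) ^ 2 ∂μ := integral_nonneg (fun x => by positivity)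
    have h2 : (fun x => (f x + t * g x) ^ 2) =
        fun x => (f x ^ 2 + (2 * t) * (f x * g x)) + (t * t) * g x ^ 2 := by
      funext x; ring
    rw [h2, integral_lin3 hf hfg hg] at h1
    linarith
  have := discrim_le_zero h
  unfold discrim at this
  nlinarith

/-! ### Torsion functional -/

section tor

variable {d : ℕ} {Ω : Set (E d)} {w : E d → ℝ}

lemma sq_int_le (hd : 1 ≤ d) (hb : BddAbove (TorSet Ω)) (hw : Adm Ω w) :
    (∫ x, w x) ^ 2 ≤ sSup (TorSet Ω) * dir w := by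
  by_cases h0 : w = 0
  · subst h0
    simp [dir]
  · have hpos := hw.dir_pos hd h0
    have h1 : (∫ x, w x) ^ 2 / dir w ∈ TorSet Ω := ⟨w, hw.c1, hw.cs, hw.sub, h0, rfl⟩
    have h2 := le_csSup hb h1
    rwa [div_le_iff₀ hpos] at h2

lemma torSet_nonneg {r : ℝ} (hr : r ∈ TorSet Ω) : 0 ≤ r := by
  obtain ⟨u, -, -, -, -, rfl⟩ := hr
  exact div_nonneg (sq_nonneg _) (integral_nonneg (fun x => by positivity))

lemma sSup_nonneg' : 0 ≤ sSup (TorSet Ω) := Real.sSup_nonneg (fun _ hr => torSet_nonneg hr)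

/-- the torsion functional is at least `-T` -/
lemma J_ge (hd : 1 ≤ d) (hb : BddAbove (TorSet Ω)) (hw : Adm Ω w) :
    -sSup (TorSet Ω) ≤ dir w - 2 * ∫ x, w x := by
  have h1 := sq_int_le hd hb hw
  have h2 := sSup_nonneg' (Ω := Ω)
  have h3 : 0 ≤ dir w := integral_nonneg (fun x => by positivity)
  set T := sSup (TorSet Ω)
  set I := ∫ x, w x
  have h4 : (2 * I) ^ 2 ≤ (dir w + T) ^ 2 := by nlinarith [sq_nonneg (dir w - T)]
  have h5 := abs_le_of_sq_le_sq' h4 (by positivity)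
  linarith [h5.2]

/-- first variation along `Pr g ∘ w` -/
lemma first_variation (hd : 1 ≤ d) (hb : BddAbove (TorSet Ω)) (hw : Adm Ω w) {η : ℝ}
    (hJ : dir w - 2 * (∫ x, w x) ≤ -sSup (TorSet Ω) + η) {g : ℝ → ℝ} (hg : Continuous g) :
    ((∫ x, g (w x) * ‖fderiv ℝ w x‖ ^ 2) - ∫ x, Pr g (w x)) ^ 2 ≤
      η * ∫ x, g (w x) ^ 2 * ‖fderiv ℝ w x‖ ^ 2 := by
  set A := ∫ x, g (w x) * ‖fderiv ℝ w x‖ ^ 2 with hA
  set C := ∫ x, g (w x) ^ 2 * ‖fderiv ℝ w x‖ ^ 2 with hC
  set P := ∫ x, Pr g (w x) with hP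
  have hi1 := hw.int_G2 hg
  have hi2 := hw.int_G2 (G := fun t => g t ^ 2) (hg.pow 2)
  have hi3 := (hw.pr hg).int
  have h : ∀ t : ℝ, 0 ≤ C * (t * t) + (2 * (A - P)) * t + η := by
    intro t
    set g' : ℝ → ℝ := fun τ => 1 + t * g τ with hg'
    have hgc : Continuous g' := by fun_prop
    have hadm := hw.pr hgc
    have hJ' := J_ge hd hb hadm
    have e1 : ∀ x, Pr g' (w x) = w x + t * Pr g (w x) := by
      intro x
      unfold Pr
      rw [hg', intervalIntegral.integral_add (continuous_const.intervalIntegrable _ _)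
        ((hg.const_mul t).intervalIntegrable _ _), intervalIntegral.integral_const_mul]
      simp
    have e2 : (∫ x, Pr g' (w x)) = (∫ x, w x) + t * P := by
      rw [hP, ← integral_const_mul, ← integral_add hw.int (hi3.const_mul t)]
      exact integral_congr_ae (Eventually.of_forall e1)
    have e3 : dir (fun x => Pr g' (w x)) = dir w + 2 * t * A + t * t * C := by
      unfold dir
      have : (fun x => ‖fderiv ℝ (fun x => Pr g' (w x)) x‖ ^ 2) = fun x =>
          (‖fderiv ℝ w x‖ ^ 2 + (2 * t) * (g (w x) * ‖fderiv ℝ w x‖ ^ 2)) +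
            (t * t) * (g (w x) ^ 2 * ‖fderiv ℝ w x‖ ^ 2) := by
        funext x
        rw [hw.norm_fderiv_pr hgc, mul_pow, sq_abs, hg']
        ring
      rw [this, integral_lin3 hw.int_D2 hi1 hi2]
    rw [e2, e3] at hJ'
    linarith
  have := discrim_le_zero h
  unfold discrim at this
  nlinarith

/-- near minimizers -/
lemma exists_near (hd : 1 ≤ d) (hb : BddAbove (TorSet Ω)) (hne : (TorSet Ω).Nonempty) {η : ℝ}
    (hη : 0 < η) :
    ∃ w : E d → ℝ, Adm Ω w ∧ dir w ≤ sSup (TorSet Ω) ∧ sSup (TorSet Ω) - η ≤ ∫ x, w x ∧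
      dir w - 2 * (∫ x, w x) ≤ -sSup (TorSet Ω) + η := by
  obtain ⟨r, hr, hrη⟩ := exists_lt_of_lt_csSup hne (show sSup (TorSet Ω) - η < sSup (TorSet Ω) by
    linarith)
  obtain ⟨u, h1, h2, h3, h4, h5⟩ := hr
  have hu : Adm Ω u := ⟨h1, h2, h3⟩
  have hpos := hu.dir_pos hd h4
  have hle := sq_int_le hd hb hu
  set I := ∫ x, u x with hI
  set c := I / dir u with hc
  have e1 : (∫ x, c * u x) = I ^ 2 / dir u := by
    rw [integral_const_mul, hc, ← hI]; ring
  have e2 : dir (fun x => c * u x) = I ^ 2 / dir u := by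
    unfold dir
    have : (fun x => ‖fderiv ℝ (fun x => c * u x) x‖ ^ 2) =
        fun x => c ^ 2 * ‖fderiv ℝ u x‖ ^ 2 := by
      funext x
      rw [hu.norm_fderiv_smul, mul_pow, sq_abs]
    rw [this, integral_const_mul]
    change c ^ 2 * dir u = I ^ 2 / dir u
    rw [hc]
    field_simp
  have e3 : r = I ^ 2 / dir u := h5
  have e4 : I ^ 2 / dir u ≤ sSup (TorSet Ω) := by rw [div_le_iff₀ hpos]; exact hle
  refine ⟨fun x => c * u x, hu.smul c, ?_, ?_, ?_⟩
  · rw [e2]; exact e4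
  · rw [e1, ← e3]; exact hrη.le
  · rw [e1, e2]; rw [e3] at hrη; linarith

end tor

end Pool.Agent.Lib.H38.Tor
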