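import Mathlib
import Pool.Agent.Lib.H38.Tor.Near

set_option autoImplicit false

/-!
# The discrete differential inequality for the distribution function
-/

namespace Pool.Agent.Lib.H38.Tor

open MeasureTheory Set Filter Topology

variable {d : ℕ} {Ω : Set (E d)} {w : E d → ℝ}

lemma Pr_eq_zero {χ : ℝ → ℝ} {s : ℝ} (hs : 0 ≤ s) (hs0 : ∀ t, t ≤ s → χ t = 0) {t : ℝ}
    (ht : t ≤ s) : Pr χ t = 0 := by
  unfold Pr
  have : ∀ τ ∈ uIcc 0 t, χ τ = (fun _ => (0 : ℝ)) τ := by
    intro τ hτ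
    apply hs0
    rcases le_total 0 t with h | h
    · rw [uIcc_of_le h] at hτ; exact hτ.2.trans ht
    · rw [uIcc_of_ge h] at hτ; exact hτ.2.trans hs
  rw [intervalIntegral.integral_congr this]
  simp

lemma Pr_nonneg {χ : ℝ → ℝ} (hχ : Continuous χ) (h0 : ∀ t, 0 ≤ χ t) {s : ℝ} (hs : 0 ≤ s)
    (hs0 : ∀ t, t ≤ s → χ t = 0) (t : ℝ) : 0 ≤ Pr χ t := by
  rcases le_total t s with h | h
  · rw [Pr_eq_zero hs hs0 h]
  · rw [← Pr_eq_zero hs hs0 le_rfl]
    exact Pr_mono hχ h (fun t _ => h0 t)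

lemma iso_cs (hd : 1 ≤ d) (hw : Adm Ω w) {s r : ℝ} (hs : 0 ≤ s) (hr : 0 < r)
    (hm : mm w s ≤ omega d * r ^ d) {χ : ℝ → ℝ} (hχ : Continuous χ) (h0 : ∀ t, 0 ≤ χ t)
    (hs0 : ∀ t, t ≤ s → χ t = 0) {S : Set (E d)} (hS : MeasurableSet S) (hSfin : volume S < ⊤)
    (hSχ : ∀ x, χ (w x) ≠ 0 → x ∈ S) :
    (d * ∫ x, Pr χ (w x)) ^ 2 ≤
      r ^ 2 * ((volume S).toReal * ∫ x, χ (w x) ^ 2 * ‖fderiv ℝ w x‖ ^ 2) := by
  have hadm := hw.pr hχ
  have hPn := Pr_nonneg hχ h0 hs hs0
  have hiso := Pool.Agent.Lib.H31.iso_L1 hd hadm.c1 hadm.cs (fun x => hPn (w x)) hr (by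
    refine le_trans ?_ hm
    unfold mm
    refine ENNReal.toReal_mono (hw.meas_lt hs).ne (measure_mono ?_)
    intro x hx
    by_contra hcon
    simp only [mem_ofPred_eq, not_lt] at hcon hx
    rw [Pr_eq_zero hs hs0 hcon] at hx
    exact lt_irrefl _ hx)
  have e1 : (∫ x, ‖fderiv ℝ (fun x => Pr χ (w x)) x‖) =
      ∫ x, (S.indicator (fun _ => (1 : ℝ)) x) * (χ (w x) * ‖fderiv ℝ w x‖) := by
    refine integral_congr_ae (Eventually.of_forall (fun x => ?_))
    simp only
    rw [hw.norm_fderiv_pr hχ, abs_of_nonneg (h0 _)]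
    by_cases hx : x ∈ S
    · rw [indicator_of_mem hx]; ring
    · have : χ (w x) = 0 := by
        by_contra h
        exact hx (hSχ x h)
      rw [this]; ring
  have hf : Integrable (fun x => (S.indicator (fun _ => (1 : ℝ)) x) ^ 2) volume := by
    have : (fun x => (S.indicator (fun _ => (1 : ℝ)) x) ^ 2) = S.indicator (fun _ => (1 : ℝ)) := by
      funext x
      by_cases hx : x ∈ S <;> simp [hx]
    rw [this]
    exact (integrable_indicator_iff hS).2 (integrableOn_const hSfin.ne)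
  have hg : Integrable (fun x => (χ (w x) * ‖fderiv ℝ w x‖) ^ 2) volume := by
    have := hw.int_G2 (G := fun t => χ t ^ 2) (hχ.pow 2)
    refine this.congr (Eventually.of_forall (fun x => ?_))
    simp only
    ring
  have hfg : Integrable (fun x => (S.indicator (fun _ => (1 : ℝ)) x) *
      (χ (w x) * ‖fderiv ℝ w x‖)) volume := by
    refine (hw.int_G1 hχ).congr (Eventually.of_forall (fun x => ?_))
    simp only
    by_cases hx : x ∈ S
    · rw [indicator_of_mem hx]; ring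
    · have : χ (w x) = 0 := by
        by_contra h
        exact hx (hSχ x h)
      rw [this]; ring
  have hcs := cs_real hf hg hfg
  have e2 : (∫ x, (S.indicator (fun _ => (1 : ℝ)) x) ^ 2) = (volume S).toReal := by
    have : (fun x => (S.indicator (fun _ => (1 : ℝ)) x) ^ 2) = S.indicator (fun _ => (1 : ℝ)) := by
      funext x
      by_cases hx : x ∈ S <;> simp [hx]
    rw [this, integral_indicator hS]
    simp [Measure.real]
  have e3 : (∫ x, (χ (w x) * ‖fderiv ℝ w x‖) ^ 2) = ∫ x, χ (w x) ^ 2 * ‖fderiv ℝ w x‖ ^ 2 := by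
    refine integral_congr_ae (Eventually.of_forall (fun x => ?_))
    simp only
    ring
  rw [e2, e3] at hcs
  rw [e1] at hiso
  have hI : 0 ≤ ∫ x, Pr χ (w x) := integral_nonneg (fun x => hPn (w x))
  calc (d * ∫ x, Pr χ (w x)) ^ 2 ≤
      (r * ∫ x, (S.indicator (fun _ => (1 : ℝ)) x) * (χ (w x) * ‖fderiv ℝ w x‖)) ^ 2 := by
        gcongr
    _ = r ^ 2 * (∫ x, (S.indicator (fun _ => (1 : ℝ)) x) * (χ (w x) * ‖fderiv ℝ w x‖)) ^ 2 := by
        ring
    _ ≤ _ := by gcongr

/-- energies of truncations are at most the total energy -/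
lemma energy_le (hw : Adm Ω w) {G : ℝ → ℝ} (hG : Continuous G) {K : ℝ} (hK : ∀ t, G t ≤ K) :
    (∫ x, G (w x) * ‖fderiv ℝ w x‖ ^ 2) ≤ K * dir w := by
  unfold dir
  rw [← integral_const_mul]
  refine integral_mono (hw.int_G2 hG) (hw.int_D2.const_mul K) (fun x => ?_)
  have := hK (w x)
  simp only
  gcongr

/-- main inequality before smoothing is removed -/
lemma step_ineq (hd : 1 ≤ d) (hb : BddAbove (TorSet Ω)) (hw : Adm Ω w) {η : ℝ} (hη : 0 ≤ η)
    (hdir : dir w ≤ sSup (TorSet Ω))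
    (hJ : dir w - 2 * (∫ x, w x) ≤ -sSup (TorSet Ω) + η)
    {s h r : ℝ} (hs : 0 ≤ s) (hh : 0 ≤ h) (hr : 0 < r) (hm : mm w s ≤ omega d * r ^ d)
    {χ : ℝ → ℝ} (hχ : Continuous χ) (h0 : ∀ t, 0 ≤ χ t) (h1 : ∀ t, χ t ≤ 1)
    (hs0 : ∀ t, t ≤ s → χ t = 0) (hs1 : ∀ t, s + h < t → χ t = 0) :
    (d * ∫ x, Pr χ (w x)) ^ 2 ≤ r ^ 2 * ((mm w s - mm w (s + h)) *
      ((∫ x, Pr χ (w x)) + √(η * sSup (TorSet Ω)))) := by
  set T := sSup (TorSet Ω) with hT
  set S : Set (E d) := {x | s < w x} \ {x | s + h < w x} with hS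
  have hSm : MeasurableSet S := (hw.meas_set s).diff (hw.meas_set (s + h))
  have hsub : {x | s + h < w x} ⊆ {x | s < w x} := fun x hx => by
    have hx : s + h < w x := hx
    have : s < w x := by linarith
    exact this
  have hSfin : volume S < ⊤ := lt_of_le_of_lt (measure_mono sdiff_subset) (hw.meas_lt hs)
  have hSv : (volume S).toReal = mm w s - mm w (s + h) := by
    unfold mm
    rw [hS, measure_sdiff hsub (hw.meas_set (s + h)).nullMeasurableSet
      (hw.meas_lt (by linarith)).ne, ENNReal.toReal_sub_of_le (measure_mono hsub)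
      (hw.meas_lt hs).ne]
  have h3 := iso_cs hd hw hs hr hm hχ h0 hs0 hSm hSfin (by
    intro x hx
    refine ⟨?_, ?_⟩
    · by_contra hcon
      simp only [mem_ofPred_eq, not_lt] at hcon
      exact hx (hs0 _ hcon)
    · intro hcon
      exact hx (hs1 _ hcon))
  rw [hSv] at h3
  refine h3.trans ?_
  have hD : 0 ≤ mm w s - mm w (s + h) := by rw [← hSv]; exact ENNReal.toReal_nonneg
  have hfv := first_variation hd hb hw hJ hχ
  have hC1 : (∫ x, χ (w x) ^ 2 * ‖fderiv ℝ w x‖ ^ 2) ≤ T := by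
    have := energy_le hw (G := fun t => χ t ^ 2) (hχ.pow 2) (K := 1)
      (fun t => pow_le_one₀ (h0 t) (h1 t))
    linarith
  have hC2 : (∫ x, χ (w x) ^ 2 * ‖fderiv ℝ w x‖ ^ 2) ≤ ∫ x, χ (w x) * ‖fderiv ℝ w x‖ ^ 2 := by
    refine integral_mono (hw.int_G2 (G := fun t => χ t ^ 2) (hχ.pow 2)) (hw.int_G2 hχ)
      (fun x => ?_)
    have e1 := h0 (w x)
    have e2 := h1 (w x)
    simp only
    have : χ (w x) ^ 2 ≤ χ (w x) := by nlinarith
    gcongr
  have hfv2 : (∫ x, χ (w x) * ‖fderiv ℝ w x‖ ^ 2) - (∫ x, Pr χ (w x)) ≤ √(η * T) := by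
    apply Real.le_sqrt_of_sq_le
    exact hfv.trans (by gcongr)
  gcongr
  linarith

/-- trapezoidal cut-off -/
noncomputable def trap (s h δ t : ℝ) : ℝ := max 0 (min 1 (min ((t - s) / δ) ((s + h - t) / δ)))

lemma trap_cont (s h δ : ℝ) : Continuous (trap s h δ) := by unfold trap; fun_prop

lemma trap_nonneg (s h δ t : ℝ) : 0 ≤ trap s h δ t := le_max_left _ _

lemma trap_le_one (s h δ t : ℝ) : trap s h δ t ≤ 1 :=
  max_le zero_le_one (min_le_left _ _)

lemma trap_left {s h δ t : ℝ} (hδ : 0 < δ) (ht : t ≤ s) : trap s h δ t = 0 := by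
  unfold trap
  apply max_eq_left
  refine (min_le_right _ _).trans ((min_le_left _ _).trans ?_)
  exact div_nonpos_of_nonpos_of_nonneg (by linarith) hδ.le

lemma trap_right {s h δ t : ℝ} (hδ : 0 < δ) (ht : s + h < t) : trap s h δ t = 0 := by
  unfold trap
  apply max_eq_left
  refine (min_le_right _ _).trans ((min_le_right _ _).trans ?_)
  exact div_nonpos_of_nonpos_of_nonneg (by linarith) hδ.le

lemma trap_mid {s h δ t : ℝ} (hδ : 0 < δ) (h1 : s + δ ≤ t) (h2 : t ≤ s + h - δ) :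
    trap s h δ t = 1 := by
  unfold trap
  have e1 : 1 ≤ (t - s) / δ := by rw [le_div_iff₀ hδ]; linarith
  have e2 : 1 ≤ (s + h - t) / δ := by rw [le_div_iff₀ hδ]; linarith
  rw [min_eq_left (le_min e1 e2)]
  exact max_eq_right zero_le_one

lemma Pr_trap_ge {s h δ t : ℝ} (hs : 0 ≤ s) (hδ : 0 < δ) (hδh : 2 * δ ≤ h) (ht : s + h ≤ t) :
    h - 2 * δ ≤ Pr (trap s h δ) t := by
  have hc := trap_cont s h δ
  have e1 : Pr (trap s h δ) (s + δ) ≥ 0 :=
    Pr_nonneg hc (trap_nonneg s h δ) hs (fun t ht => trap_left hδ ht) _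
  have e2 : Pr (trap s h δ) (s + h - δ) ≤ Pr (trap s h δ) t :=
    Pr_mono hc (by linarith) (fun t _ => trap_nonneg s h δ t)
  have e3 := Pr_sub hc (s + δ) (s + h - δ)
  have e4 : (∫ τ in (s + δ)..(s + h - δ), trap s h δ τ) = h - 2 * δ := by
    have : ∀ τ ∈ uIcc (s + δ) (s + h - δ), trap s h δ τ = (fun _ => (1 : ℝ)) τ := by
      intro τ hτ
      rw [uIcc_of_le (by linarith)] at hτ
      exact trap_mid hδ hτ.1 hτ.2
    rw [intervalIntegral.integral_congr this]
    simp
    ring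
  linarith

/-- The discrete differential inequality. -/
theorem discrete_ineq (hd : 1 ≤ d) (hb : BddAbove (TorSet Ω)) (hw : Adm Ω w) {η : ℝ}
    (hη : 0 ≤ η) (hdir : dir w ≤ sSup (TorSet Ω))
    (hJ : dir w - 2 * (∫ x, w x) ≤ -sSup (TorSet Ω) + η)
    {s h r : ℝ} (hs : 0 ≤ s) (hh : 0 < h) (hr : 0 < r) (hm : mm w s ≤ omega d * r ^ d) :
    (d : ℝ) ^ 2 * (h * mm w (s + h)) ^ 2 ≤ r ^ 2 * ((mm w s - mm w (s + h)) *
      (h * mm w (s + h) + √(η * sSup (TorSet Ω)))) := by
  set e := √(η * sSup (TorSet Ω)) with he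
  have he0 : 0 ≤ e := Real.sqrt_nonneg _
  set m' := mm w (s + h) with hm'
  have hm'0 : 0 ≤ m' := mm_nonneg _ _
  have hD : 0 ≤ mm w s - m' := by
    have := hw.mm_anti hs (show s ≤ s + h by linarith)
    linarith
  -- for small δ
  have key : ∀ δ : ℝ, 0 < δ → 2 * δ ≤ h → (d : ℝ) ^ 2 * ((h - 2 * δ) * m') ^ 2 ≤
      r ^ 2 * ((mm w s - m') * ((h - 2 * δ) * m' + e)) := by
    intro δ hδ hδh
    have h1 := step_ineq hd hb hw hη hdir hJ hs hh.le hr hm (trap_cont s h δ)
      (trap_nonneg s h δ) (trap_le_one s h δ) (fun t ht => trap_left hδ ht)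
      (fun t ht => trap_right hδ ht)
    set I := ∫ x, Pr (trap s h δ) (w x) with hI
    set I0 := (h - 2 * δ) * m' with hI0
    have hI00 : 0 ≤ I0 := mul_nonneg (by linarith) hm'0
    have hII : I0 ≤ I := by
      have e1 : I0 = ∫ x, ({x | s + h < w x}).indicator (fun _ => (h - 2 * δ)) x := by
        rw [integral_indicator (hw.meas_set _), setIntegral_const]
        rw [hI0, hm', mm, Measure.real, smul_eq_mul, mul_comm]
      rw [e1, hI]
      refine integral_mono ?_ (hw.pr (trap_cont s h δ)).int (fun x => ?_)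
      · exact (integrable_indicator_iff (hw.meas_set _)).2
          (integrableOn_const (hw.meas_lt (by linarith)).ne)
      · by_cases hx : x ∈ {x | s + h < w x}
        · rw [indicator_of_mem hx]
          exact Pr_trap_ge hs hδ hδh (le_of_lt hx)
        · rw [indicator_of_notMem hx]
          exact Pr_nonneg (trap_cont s h δ) (trap_nonneg s h δ) hs
            (fun t ht => trap_left hδ ht) _
    have hI1 : 0 ≤ I := hI00.trans hII
    rcases eq_or_lt_of_le (add_nonneg hI1 he0) with h2 | h2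
    · have hI2 : I = 0 := by linarith
      have hI3 : I0 = 0 := by linarith
      rw [hI3]
      have : 0 ≤ r ^ 2 * ((mm w s - m') * (0 + e)) := by positivity
      simpa using this
    · have h3 : (d : ℝ) ^ 2 * I0 ^ 2 * (I + e) ≤ r ^ 2 * ((mm w s - m') * (I0 + e)) * (I + e) := by
        have h4 : I0 ^ 2 * (I + e) ≤ I ^ 2 * (I0 + e) := by nlinarith [mul_nonneg hI00 hI1, mul_nonneg (mul_nonneg hI00 hI1) (sub_nonneg.2 hII), mul_nonneg he0 (mul_nonneg (sub_nonneg.2 hII) (add_nonneg hI1 hI00))]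
        calc (d : ℝ) ^ 2 * I0 ^ 2 * (I + e) = (d : ℝ) ^ 2 * (I0 ^ 2 * (I + e)) := by ring
          _ ≤ (d : ℝ) ^ 2 * (I ^ 2 * (I0 + e)) := by gcongr
          _ = (d * I) ^ 2 * (I0 + e) := by ring
          _ ≤ (r ^ 2 * ((mm w s - m') * (I + e))) * (I0 + e) := by gcongr
          _ = _ := by ring
      exact le_of_mul_le_mul_right h3 h2
  -- let δ → 0
  have hl : Tendsto (fun δ : ℝ => (d : ℝ) ^ 2 * ((h - 2 * δ) * m') ^ 2) (𝓝[>] 0)
      (𝓝 ((d : ℝ) ^ 2 * ((h - 2 * 0) * m') ^ 2)) := by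
    apply Tendsto.mono_left _ nhdsWithin_le_nhds
    exact Continuous.tendsto (by fun_prop) 0
  have hr' : Tendsto (fun δ : ℝ => r ^ 2 * ((mm w s - m') * ((h - 2 * δ) * m' + e))) (𝓝[>] 0)
      (𝓝 (r ^ 2 * ((mm w s - m') * ((h - 2 * 0) * m' + e)))) := by
    apply Tendsto.mono_left _ nhdsWithin_le_nhds
    exact Continuous.tendsto (by fun_prop) 0
  have hfin := le_of_tendsto_of_tendsto hl hr' (by
    filter_upwards [Ioo_mem_nhdsGT (show (0 : ℝ) < h / 2 by positivity)] with δ hδ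
    exact key δ hδ.1 (by linarith [hδ.2]))
  simpa using hfin

/-- one-sided ramp -/
noncomputable def ramp (s t : ℝ) : ℝ := max 0 (min 1 (t - s))

lemma ramp_cont (s : ℝ) : Continuous (ramp s) := by unfold ramp; fun_prop

lemma ramp_nonneg (s t : ℝ) : 0 ≤ ramp s t := le_max_left _ _

lemma ramp_le_one (s t : ℝ) : ramp s t ≤ 1 := max_le zero_le_one (min_le_left _ _)

lemma ramp_left {s t : ℝ} (ht : t ≤ s) : ramp s t = 0 := by
  unfold ramp
  apply max_eq_left
  exact (min_le_right _ _).trans (by linarith)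

lemma int_lin (s t : ℝ) : ∫ τ in s..t, (τ - s) = (t - s) ^ 2 / 2 := by
  rw [intervalIntegral.integral_comp_sub_right (fun x => x) s]
  simp

/-- `(t - s)_+ ≤ Pr (ramp s) t + 1/2` for `t > s` -/
lemma Pr_ramp_ge {s t : ℝ} (hs : 0 ≤ s) (ht : s ≤ t) : t - s ≤ Pr (ramp s) t + 1 / 2 := by
  have hc := ramp_cont s
  have e0 : Pr (ramp s) s = 0 := Pr_eq_zero hs (fun t ht => ramp_left ht) le_rfl
  have e1 := Pr_sub hc s t
  rw [e0, sub_zero] at e1
  rw [e1]
  have e2 : ∫ τ in s..t, (min 1 (τ - s)) ≤ ∫ τ in s..t, ramp s τ := by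
    refine intervalIntegral.integral_mono_on ht ?_ (hc.intervalIntegrable _ _) (fun τ _ => le_max_right _ _)
    exact Continuous.intervalIntegrable (by fun_prop) _ _
  rcases le_total t (s + 1) with h | h
  · have e3 : ∫ τ in s..t, (τ - s) = (t - s) ^ 2 / 2 := int_lin s t
    have e4 : ∫ τ in s..t, (min 1 (τ - s)) = ∫ τ in s..t, (τ - s) := by
      refine intervalIntegral.integral_congr (fun τ hτ => ?_)
      rw [uIcc_of_le ht] at hτ
      exact min_eq_right (by linarith [hτ.2])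
    nlinarith [sq_nonneg (t - s - 1)]
  · have e5 : ∫ τ in s..t, (min 1 (τ - s)) =
        (∫ τ in s..(s + 1), (min 1 (τ - s))) + ∫ τ in (s + 1)..t, (min 1 (τ - s)) := by
      rw [intervalIntegral.integral_add_adjacent_intervals]
      · exact Continuous.intervalIntegrable (by fun_prop) _ _
      · exact Continuous.intervalIntegrable (by fun_prop) _ _
    have e6 : ∫ τ in s..(s + 1), (min 1 (τ - s)) = 1 / 2 := by
      have e4 : ∫ τ in s..(s + 1), (min 1 (τ - s)) = ∫ τ in s..(s + 1), (τ - s) := by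
        refine intervalIntegral.integral_congr (fun τ hτ => ?_)
        rw [uIcc_of_le (by linarith)] at hτ
        exact min_eq_right (by linarith [hτ.2])
      rw [e4, int_lin]
      ring
    have e7 : ∫ τ in (s + 1)..t, (min 1 (τ - s)) = t - (s + 1) := by
      have e4 : ∫ τ in (s + 1)..t, (min 1 (τ - s)) = ∫ τ in (s + 1)..t, (1 : ℝ) := by
        refine intervalIntegral.integral_congr (fun τ hτ => ?_)
        rw [uIcc_of_le h] at hτ
        exact min_eq_left (by linarith [hτ.1])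
      rw [e4]
      simp
    linarith

/-- the tail estimate -/
theorem tail_ineq (hd : 1 ≤ d) (hw : Adm Ω w) {s : ℝ} (hs : 0 ≤ s)
    (hm : mm w s ≤ omega d) :
    (∫ x, max (w x - s) 0) ≤ √(mm w s * dir w) + mm w s := by
  set χ := ramp s
  have hc : Continuous χ := ramp_cont s
  have h1 := iso_cs hd hw hs one_pos (by simpa using hm) hc (ramp_nonneg s)
    (fun t ht => ramp_left ht) (hw.meas_set s) (hw.meas_lt hs) (by
      intro x hx
      by_contra hcon
      simp only [mem_ofPred_eq, not_lt] at hcon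
      exact hx (ramp_left hcon))
  have h2 : (∫ x, χ (w x) ^ 2 * ‖fderiv ℝ w x‖ ^ 2) ≤ dir w := by
    have := energy_le hw (G := fun t => χ t ^ 2) (hc.pow 2) (K := 1)
      (fun t => pow_le_one₀ (ramp_nonneg s t) (ramp_le_one s t))
    linarith
  set I := ∫ x, Pr χ (w x) with hI
  have hIn : 0 ≤ I := integral_nonneg (fun x => Pr_nonneg hc (ramp_nonneg s) hs
    (fun t ht => ramp_left ht) _)
  have hd' : (1 : ℝ) ≤ d := by exact_mod_cast hd
  have h3 : I ≤ √(mm w s * dir w) := by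
    apply Real.le_sqrt_of_sq_le
    have e1 : I ^ 2 ≤ (d * I) ^ 2 := by
      rw [mul_pow]
      have : (1 : ℝ) ≤ (d : ℝ) ^ 2 := one_le_pow₀ hd'
      nlinarith [sq_nonneg I]
    refine e1.trans (h1.trans ?_)
    rw [one_pow, one_mul]
    have := mm_nonneg w s
    unfold mm at this ⊢
    gcongr
  have h4 : (∫ x, max (w x - s) 0) ≤ I + (1 / 2) * mm w s := by
    have e1 : (1 / 2) * mm w s = ∫ x, ({x | s < w x}).indicator (fun _ => (1 / 2 : ℝ)) x := by
      rw [integral_indicator (hw.meas_set _), setIntegral_const]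
      rw [mm, Measure.real, smul_eq_mul, mul_comm]
    have hint : Integrable (({x | s < w x}).indicator (fun _ => (1 / 2 : ℝ))) :=
      (integrable_indicator_iff (hw.meas_set _)).2 (integrableOn_const (hw.meas_lt hs).ne)
    rw [e1, hI, ← integral_add (hw.pr hc).int hint]
    refine integral_mono (hw.int_comp (F := fun t => max (t - s) 0) (by fun_prop)
      (by simpa using hs)) ((hw.pr hc).int.add hint) (fun x => ?_)
    by_cases hx : x ∈ {x | s < w x}
    · have hx' : s < w x := hx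
      simp only [indicator_of_mem hx]
      rw [max_eq_left (by linarith)]
      exact Pr_ramp_ge hs hx'.le
    · have hx' : w x ≤ s := by
        simpa using hx
      simp only [indicator_of_notMem hx]
      rw [max_eq_right (by linarith), add_zero]
      exact Pr_nonneg hc (ramp_nonneg s) hs (fun t ht => ramp_left ht) _
  have := mm_nonneg w s
  linarith

end Pool.Agent.Lib.H38.Tor
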