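import Mathlib
import Pool.Agent.Lib.H38.Tor.Near

set_option autoImplicit false

/-!
# Layer cake formula
-/

namespace Pool.Agent.Lib.H38.Tor

open MeasureTheory Set Filter Topology

variable {d : ℕ} {Ω : Set (E d)} {w : E d → ℝ}

lemma Pr_min_eq (g : ℝ → ℝ) {L : ℝ} (hL : 0 ≤ L) (y : ℝ) :
    Pr g (min (max y 0) L) = ∫ t in Ioc 0 L, g t * (if t < y then 1 else 0) := by
  set m := min (max y 0) L with hm
  have hm0 : 0 ≤ m := le_min (le_max_right _ _) hL
  have hmL : m ≤ L := min_le_right _ _
  have h1 : Pr g m = ∫ t in Ioc 0 m, g t := by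
    unfold Pr
    rw [intervalIntegral.integral_of_le hm0]
  rw [h1]
  have h2 : (∫ t in Ioc 0 L, g t * (if t < y then 1 else 0)) =
      ∫ t in Ioc 0 L, (Iio y).indicator g t := by
    refine integral_congr_ae (Eventually.of_forall (fun t => ?_))
    simp only [indicator, mem_Iio]
    split_ifs <;> simp
  rw [h2, setIntegral_indicator measurableSet_Iio]
  refine setIntegral_congr_set ?_
  -- the two sets agree up to a null set
  have h3 : (Ioc 0 L ∩ Iio y : Set ℝ) =ᵐ[volume] (Ioc 0 L ∩ Iic y : Set ℝ) :=
    (ae_eq_refl (Ioc 0 L : Set ℝ)).inter Iio_ae_eq_Iic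
  have h4 : Ioc (0 : ℝ) L ∩ Iic y = Ioc 0 m := by
    ext t
    simp only [mem_inter_iff, mem_Ioc, mem_Iic, hm, le_min_iff, le_max_iff]
    constructor
    · rintro ⟨⟨h1, h2⟩, h3⟩
      exact ⟨h1, Or.inl h3, h2⟩
    · rintro ⟨h1, h2, h3⟩
      refine ⟨⟨h1, h3⟩, ?_⟩
      rcases h2 with h2 | h2
      · exact h2
      · linarith
  rw [h4] at h3
  exact h3.symm

/-- Layer cake: `∫ Pr g (min (w⁺) L) = ∫_0^L g(t) |{w > t}| dt`. -/
theorem layer (hw : Adm Ω w) {g : ℝ → ℝ} (hg : Continuous g) {L : ℝ} (hL : 0 ≤ L) :
    ∫ x, Pr g (min (max (w x) 0) L) = ∫ t in (0 : ℝ)..L, g t * mm w t := by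
  have h1 : (∫ x, Pr g (min (max (w x) 0) L)) =
      ∫ x, ∫ t in Ioc 0 L, g t * (if t < w x then 1 else 0) :=
    integral_congr_ae (Eventually.of_forall (fun x => Pr_min_eq g hL (w x)))
  rw [h1, integral_integral_swap]
  · rw [intervalIntegral.integral_of_le hL]
    refine setIntegral_congr_fun measurableSet_Ioc (fun t ht => ?_)
    rw [integral_const_mul]
    congr 1
    have h2 : (fun x => (if t < w x then (1 : ℝ) else 0)) =
        ({x | t < w x}).indicator (fun _ => (1 : ℝ)) := by
      funext x
      simp [indicator]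
    rw [h2, integral_indicator (hw.meas_set t)]
    simp [mm, Measure.real]
  · -- integrability on the product
    have hK : IsCompact (tsupport w) := hw.cs.isCompact
    obtain ⟨C, hC⟩ := (isCompact_Icc (a := (0 : ℝ)) (b := L)).exists_bound_of_continuousOn
      hg.continuousOn
    have hmeas : Measurable (Function.uncurry fun (x : E d) (t : ℝ) =>
        g t * (if t < w x then (1 : ℝ) else 0)) := by
      refine Measurable.mul (hg.measurable.comp measurable_snd) ?_
      refine Measurable.ite ?_ measurable_const measurable_const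
      exact measurableSet_lt measurable_snd (hw.cont.measurable.comp measurable_fst)
    have hfin : IsFiniteMeasure ((volume : Measure (E d)).restrict (tsupport w)) :=
      ⟨by rw [Measure.restrict_apply_univ]; exact hK.measure_lt_top⟩
    have hint : Integrable (Function.uncurry fun (x : E d) (t : ℝ) =>
        g t * (if t < w x then (1 : ℝ) else 0))
        (((volume : Measure (E d)).restrict (tsupport w)).prod (volume.restrict (Ioc 0 L))) := by
      refine Integrable.mono' (g := fun _ => C) (integrable_const _) hmeas.aestronglyMeasurable ?_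
      have : ∀ᵐ p : E d × ℝ ∂(((volume : Measure (E d)).restrict (tsupport w)).prod
          (volume.restrict (Ioc 0 L))), p.2 ∈ Ioc 0 L := by
        have h5 : ∀ᵐ t ∂(volume.restrict (Ioc 0 L)), t ∈ Ioc (0 : ℝ) L :=
          ae_restrict_mem measurableSet_Ioc
        exact (Measure.quasiMeasurePreserving_snd.ae h5)
      filter_upwards [this] with p hp
      have h6 := hC p.2 ⟨hp.1.le, hp.2⟩
      simp only [Function.uncurry]
      split_ifs
      · simpa using h6
      · simp only [mul_zero, norm_zero]
        exact (norm_nonneg _).trans h6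
    have hrest : ((volume : Measure (E d)).restrict (tsupport w)).prod (volume.restrict (Ioc 0 L)) =
        ((volume : Measure (E d)).prod (volume.restrict (Ioc 0 L))).restrict
          (tsupport w ×ˢ univ) := by
      rw [← Measure.prod_restrict, Measure.restrict_univ]
    rw [hrest] at hint
    have hint2 : IntegrableOn (Function.uncurry fun (x : E d) (t : ℝ) =>
        g t * (if t < w x then (1 : ℝ) else 0)) (tsupport w ×ˢ univ)
        ((volume : Measure (E d)).prod (volume.restrict (Ioc 0 L))) := hint
    refine hint2.integrable_of_ae_notMem_eq_zero ?_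
    have : ∀ᵐ p : E d × ℝ ∂((volume : Measure (E d)).prod
        (volume.restrict (Ioc 0 L))), p.2 ∈ Ioc 0 L := by
      have h5 : ∀ᵐ t ∂(volume.restrict (Ioc 0 L)), t ∈ Ioc (0 : ℝ) L :=
        ae_restrict_mem measurableSet_Ioc
      exact (Measure.quasiMeasurePreserving_snd.ae h5)
    filter_upwards [this] with p hp hnot
    have h7 : p.1 ∉ tsupport w := fun h => hnot ⟨h, mem_univ _⟩
    have h8 : w p.1 = 0 := image_eq_zero_of_notMem_tsupport h7
    have h9 : ¬ p.2 < w p.1 := by rw [h8]; exact not_lt.2 hp.1.le
    simp [Function.uncurry, h9]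

end Pool.Agent.Lib.H38.Tor
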