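import Mathlib
import Pool.Agent.Lib.H38.Tor.Defs

set_option autoImplicit false

/-!
# Abstract comparison and the final algebra
-/

namespace Pool.Agent.Lib.H38.Tor

open MeasureTheory Set Filter Topology

lemma ode_step {d : ℕ} (hd : 1 ≤ d) {a b h κ : ℝ} (hb : 0 < b) (hba : b ≤ a) (hh : 0 < h)
    (hκ : 0 < κ) (hκb : κ ≤ b ^ 2)
    (H : (d : ℝ) ^ 2 * h * b ^ d ≤ a ^ 2 * (a ^ d - b ^ d)) :
    2 * d * h / (1 + ((d : ℝ) ^ 2 + 2 * d) * h / κ) ≤ a ^ 2 - b ^ 2 := by
  have ha : 0 < a := hb.trans_le hba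
  have hd' : (1 : ℝ) ≤ d := by exact_mod_cast hd
  set D : ℝ := (d : ℝ) with hD
  have hH : 1 + D ^ 2 * h / a ^ 2 ≤ (a / b) ^ d := by
    rw [div_pow, le_div_iff₀ (by positivity)]
    have h1 : (1 + D ^ 2 * h / a ^ 2) * b ^ d * a ^ 2 ≤ a ^ d * a ^ 2 := by
      have e : (1 + D ^ 2 * h / a ^ 2) * b ^ d * a ^ 2 = (a ^ 2 + D ^ 2 * h) * b ^ d := by
        field_simp
      rw [e]
      nlinarith
    exact le_of_mul_le_mul_right h1 (by positivity)
  have h1 : 0 < 1 + D ^ 2 * h / a ^ 2 := by positivity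
  have hlog : 1 - (1 + D ^ 2 * h / a ^ 2)⁻¹ ≤ D * Real.log (a / b) := by
    have e1 := Real.one_sub_inv_le_log_of_pos h1
    have e2 := Real.log_le_log h1 hH
    rw [Real.log_pow] at e2
    linarith
  have hlog2 : 2 * Real.log (a / b) ≤ a ^ 2 / b ^ 2 - 1 := by
    have e1 := Real.log_le_sub_one_of_pos (show 0 < (a / b) ^ 2 by positivity)
    rw [Real.log_pow, div_pow] at e1
    exact_mod_cast e1
  have e3 : 2 * (1 - (1 + D ^ 2 * h / a ^ 2)⁻¹) ≤ D * (a ^ 2 / b ^ 2 - 1) := by nlinarith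
  have e4 : 1 - (1 + D ^ 2 * h / a ^ 2)⁻¹ = D ^ 2 * h / (a ^ 2 + D ^ 2 * h) := by
    field_simp
    ring
  rw [e4] at e3
  have e5 : 2 * D * h / (a ^ 2 + D ^ 2 * h) ≤ a ^ 2 / b ^ 2 - 1 := by
    have e6 : 2 * (D ^ 2 * h / (a ^ 2 + D ^ 2 * h)) = D * (2 * D * h / (a ^ 2 + D ^ 2 * h)) := by ring
    rw [e6] at e3
    exact le_of_mul_le_mul_left e3 (by linarith)
  have e7 : b ^ 2 * (a ^ 2 + (D ^ 2 + 2 * D) * h) ≤ a ^ 2 * (a ^ 2 + D ^ 2 * h) := by
    have e8 : 2 * D * h / (a ^ 2 + D ^ 2 * h) + 1 ≤ a ^ 2 / b ^ 2 := by linarith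
    have e9 : 2 * D * h / (a ^ 2 + D ^ 2 * h) + 1 =
        (a ^ 2 + (D ^ 2 + 2 * D) * h) / (a ^ 2 + D ^ 2 * h) := by
      field_simp
      ring
    rw [e9, div_le_div_iff₀ (by positivity) (by positivity)] at e8
    linarith
  have e10 : 2 * D * h / (1 + (D ^ 2 + 2 * D) * h / a ^ 2) ≤ a ^ 2 - b ^ 2 := by
    have e11 : 2 * D * h / (1 + (D ^ 2 + 2 * D) * h / a ^ 2) =
        2 * D * h * a ^ 2 / (a ^ 2 + (D ^ 2 + 2 * D) * h) := by
      field_simp
    rw [e11, div_le_iff₀ (by positivity)]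
    nlinarith
  refine le_trans ?_ e10
  have hκa : κ ≤ a ^ 2 := hκb.trans (by nlinarith)
  gcongr

/-- CHUNK ODE: abstract comparison. -/
theorem ode_compare {d : ℕ} (hd : 1 ≤ d) {ρ : ℝ → ℝ} (h0 : ∀ t, 0 ≤ t → 0 ≤ ρ t)
    (hanti : ∀ s t, 0 ≤ s → s ≤ t → ρ t ≤ ρ s) (h1 : ρ 0 ≤ 1)
    (H : ∀ s t, 0 ≤ s → s < t →
      (d : ℝ) ^ 2 * (t - s) * ρ t ^ d ≤ ρ s ^ 2 * (ρ s ^ d - ρ t ^ d)) :
    ∀ t, 0 ≤ t → ρ t ≤ √(1 - 2 * d * t) := by
  intro t ht
  rcases ht.eq_or_lt with ht0 | htpos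
  · rw [← ht0]; simpa using h1
  rcases (h0 t ht).eq_or_lt with hr0 | hrpos
  · rw [← hr0]; positivity
  have hd' : (1 : ℝ) ≤ d := by exact_mod_cast hd
  set κ : ℝ := ρ t ^ 2 with hκ
  have hκpos : 0 < κ := by positivity
  have hN : ∀ N : ℕ, 1 ≤ N →
      2 * d * t / (1 + ((d : ℝ) ^ 2 + 2 * d) * t / κ * (1 / (N : ℝ))) ≤ 1 - ρ t ^ 2 := by
    intro N hN
    have hN' : (0 : ℝ) < N := by exact_mod_cast hN
    set h : ℝ := t / N with hh
    have hhpos : 0 < h := by positivity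
    have hNh : (N : ℝ) * h = t := by rw [hh]; field_simp
    set c : ℝ := 2 * d * h / (1 + ((d : ℝ) ^ 2 + 2 * d) * h / κ) with hc
    have hk : ∀ k : ℕ, k ≤ N → (k : ℝ) * c ≤ ρ 0 ^ 2 - ρ (k * h) ^ 2 := by
      intro k
      induction k with
      | zero => intro _; simp
      | succ k ih =>
        intro hkN
        have ih' := ih (by lia)
        have hk1 : ((k + 1 : ℕ) : ℝ) ≤ N := by exact_mod_cast hkN
        push_cast at hk1
        have hle : ((k : ℝ) + 1) * h ≤ t := by rw [← hNh]; gcongr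
        have hρt : ρ t ≤ ρ (((k : ℝ) + 1) * h) := hanti _ _ (by positivity) hle
        have hstep := ode_step hd (a := ρ (k * h)) (b := ρ (((k : ℝ) + 1) * h)) (h := h) (κ := κ)
          (hrpos.trans_le hρt) (hanti _ _ (by positivity) (by nlinarith)) hhpos hκpos
          (by rw [hκ]; gcongr) (by
            have := H (k * h) (((k : ℝ) + 1) * h) (by positivity) (by nlinarith)
            have e : ((k : ℝ) + 1) * h - k * h = h := by ring
            rwa [e] at this)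
        push_cast
        have e : ((k : ℝ) + 1) * c = k * c + c := by ring
        rw [e]
        linarith
    have hfin := hk N le_rfl
    rw [hNh] at hfin
    have h01 : ρ 0 ^ 2 ≤ 1 := pow_le_one₀ (h0 0 le_rfl) h1
    have e : (N : ℝ) * c =
        2 * d * t / (1 + ((d : ℝ) ^ 2 + 2 * d) * t / κ * (1 / (N : ℝ))) := by
      rw [hc, ← hNh]
      field_simp
    rw [← e]
    linarith
  have hlim : Tendsto (fun N : ℕ =>
      2 * d * t / (1 + ((d : ℝ) ^ 2 + 2 * d) * t / κ * (1 / (N : ℝ)))) atTop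
      (𝓝 (2 * d * t / (1 + ((d : ℝ) ^ 2 + 2 * d) * t / κ * 0))) := by
    refine Tendsto.div tendsto_const_nhds ?_ (by simp)
    exact tendsto_const_nhds.add ((tendsto_const_div_atTop_nhds_zero_nat 1).const_mul _)
  rw [mul_zero, add_zero, div_one] at hlim
  have hle : 2 * d * t ≤ 1 - ρ t ^ 2 := by
    refine le_of_tendsto hlim ?_
    filter_upwards [eventually_ge_atTop 1] with N hN1
    exact hN N hN1
  apply Real.le_sqrt_of_sq_le
  linarith

/-- CHUNK ALG. -/
theorem final_alg {ω T0 μ D C : ℝ} (hω : 0 < ω) (hT0 : 0 < T0) (hμ : 0 < μ) (hD : 0 < D)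
    (hC : 0 < C) :
    ∃ Q : ℝ, 1 < Q ∧ ∀ q : ℝ, Q ≤ q → ∀ lam T : ℝ, 0 ≤ lam → 0 ≤ T → T ≤ T0 →
      lam * T ≤ ω → lam * (D - C * (T0 - T)) ≤ μ * D → lam * T ^ q ≤ μ * T0 ^ q := by
  set c : ℝ := C * T0 / D with hc
  have hcpos : 0 < c := by positivity
  -- threshold for the far case
  set K : ℝ := ω / (T0 * μ) with hK
  have hKpos : 0 < K := by positivity
  have hlogK := abs_nonneg (Real.log K)
  have hcl : 0 ≤ 2 * c * |Real.log K| := by positivity
  refine ⟨2 + 2 * c + 2 * c * |Real.log K|, by linarith, ?_⟩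
  intro q hq lam T hlam hT hTT hlT hlD
  rcases hT.eq_or_lt with hT00 | hTpos
  · rw [← hT00, Real.zero_rpow (by linarith), mul_zero]
    positivity
  set x : ℝ := T / T0 with hx
  have hxpos : 0 < x := by positivity
  have hx1 : x ≤ 1 := by rw [hx, div_le_one hT0]; exact hTT
  have hTx : T = T0 * x := by rw [hx]; field_simp
  have hlogx : Real.log x ≤ x - 1 := Real.log_le_sub_one_of_pos hxpos
  have hpow : ∀ p : ℝ, 0 ≤ p → T ^ p ≤ T0 ^ p * Real.exp (-(p * (1 - x))) := by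
    intro p hp
    rw [hTx, Real.mul_rpow hT0.le hxpos.le]
    have : x ^ p ≤ Real.exp (-(p * (1 - x))) := by
      rw [Real.rpow_def_of_pos hxpos, Real.exp_le_exp]
      nlinarith
    gcongr
  by_cases hcase : c * (1 - x) ≤ 1 / 2
  · set y : ℝ := c * (1 - x) with hy
    have hy0 : 0 ≤ y := by
      have : 0 ≤ 1 - x := by linarith
      positivity
    have h1 : lam * (1 - y) ≤ μ := by
      have e : lam * (D - C * (T0 - T)) = lam * (1 - y) * D := by
        rw [hy, hc, hx]; field_simp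
      rw [e] at hlD
      exact le_of_mul_le_mul_right hlD hD
    have h2 : 1 ≤ (1 - y) * Real.exp (2 * y) := by
      have := Real.add_one_le_exp (2 * y)
      nlinarith
    have h3 : lam ≤ μ * Real.exp (2 * y) := by
      calc lam = lam * 1 := by ring
        _ ≤ lam * ((1 - y) * Real.exp (2 * y)) := by gcongr
        _ = (lam * (1 - y)) * Real.exp (2 * y) := by ring
        _ ≤ μ * Real.exp (2 * y) := by gcongr
    have h4 := hpow q (by linarith)
    calc lam * T ^ q ≤ (μ * Real.exp (2 * y)) * (T0 ^ q * Real.exp (-(q * (1 - x)))) := by gcongr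
      _ = μ * T0 ^ q * (Real.exp (2 * y) * Real.exp (-(q * (1 - x)))) := by ring
      _ ≤ μ * T0 ^ q * 1 := by
          gcongr
          rw [← Real.exp_add, Real.exp_le_one_iff, hy]
          nlinarith
      _ = μ * T0 ^ q := by ring
  · push Not at hcase
    have h4 := hpow (q - 1) (by linarith)
    have h5 : |Real.log K| ≤ (q - 1) * (1 - x) := by
      have h6 : 1 / (2 * c) ≤ 1 - x := by
        rw [div_le_iff₀ (by positivity)]
        nlinarith
      have h7 : 2 * c * |Real.log K| ≤ q - 1 := by linarith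
      have hq1 : 0 ≤ q - 1 := by linarith
      calc |Real.log K| = (2 * c * |Real.log K|) * (1 / (2 * c)) := by field_simp
        _ ≤ (q - 1) * (1 - x) := by gcongr
    have h6 : Real.exp (-((q - 1) * (1 - x))) ≤ K⁻¹ := by
      have h7 : K⁻¹ = Real.exp (-Real.log K) := by rw [Real.exp_neg, Real.exp_log hKpos]
      rw [h7, Real.exp_le_exp]
      have := le_abs_self (Real.log K)
      linarith
    have h7 : T ^ q = T * T ^ (q - 1) := by
      rw [Real.rpow_sub_one hTpos.ne']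
      field_simp
    have h8 : T0 ^ q = T0 * T0 ^ (q - 1) := by
      rw [Real.rpow_sub_one hT0.ne']
      field_simp
    calc lam * T ^ q = (lam * T) * T ^ (q - 1) := by rw [h7]; ring
      _ ≤ ω * (T0 ^ (q - 1) * Real.exp (-((q - 1) * (1 - x)))) := by gcongr
      _ ≤ ω * (T0 ^ (q - 1) * K⁻¹) := by gcongr
      _ = μ * T0 ^ q := by
          rw [h8, hK]
          field_simp

end Pool.Agent.Lib.H38.Tor
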