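import Mathlib
import Pool.Agent.Lib.H38.Tor.Disc
import Pool.Agent.Lib.H38.Tor.Ode
import Pool.Agent.Lib.H38.Tor.Layer

set_option autoImplicit false

/-!
# Comparison of distribution functions for near minimizers
-/

namespace Pool.Agent.Lib.H38.Tor

open MeasureTheory Set Filter Topology

variable {d : ℕ} {Ω : Set (E d)}

lemma omega_pos (hd : 1 ≤ d) : 0 < omega d := by
  have : Nonempty (Fin d) := ⟨⟨0, hd⟩⟩
  unfold omega
  exact ENNReal.toReal_pos (Metric.measure_ball_pos _ _ one_pos).ne' measure_ball_lt_top.ne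

lemma mB_nonneg (hd : 1 ≤ d) (t : ℝ) : 0 ≤ mB d t := by
  have := omega_pos hd
  unfold mB
  positivity

lemma mB_cont (d : ℕ) : Continuous (mB d) := by
  unfold mB
  fun_prop

lemma mB_zero_of_ge (hd : 1 ≤ d) {t : ℝ} (ht : WB d ≤ t) : mB d t = 0 := by
  have hd' : (1 : ℝ) ≤ d := by exact_mod_cast hd
  unfold mB
  have : 1 - 2 * d * t ≤ 0 := by
    unfold WB at ht
    rw [div_le_iff₀ (by positivity)] at ht
    linarith
  rw [Real.sqrt_eq_zero_of_nonpos this, zero_pow (by lia), mul_zero]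

lemma exists_bump {Ω : Set (E d)} (hΩ : IsOpen Ω) (hne : Ω.Nonempty) :
    ∃ u : E d → ℝ, Adm Ω u ∧ u ≠ 0 := by
  obtain ⟨c, hc⟩ := hne
  obtain ⟨r, hr, hball⟩ := Metric.isOpen_iff.1 hΩ c hc
  let f : ContDiffBump c := ⟨r / 4, r / 2, by positivity, by linarith⟩
  refine ⟨f, ⟨f.contDiff, f.hasCompactSupport, ?_⟩, ?_⟩
  · rw [f.tsupport_eq]
    refine (Metric.closedBall_subset_ball ?_).trans hball
    change r / 2 < r
    linarith
  · intro h
    have h1 : f c = 1 := f.one_of_mem_closedBall (Metric.mem_closedBall_self (by positivity))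
    rw [h] at h1
    simp at h1

lemma torSet_nonempty {Ω : Set (E d)} (hΩ : IsOpen Ω) (hne : Ω.Nonempty) :
    (TorSet Ω).Nonempty := by
  obtain ⟨u, hu, h0⟩ := exists_bump hΩ hne
  exact ⟨_, u, hu.c1, hu.cs, hu.sub, h0, rfl⟩

lemma raySet_nonempty {Ω : Set (E d)} (hΩ : IsOpen Ω) (hne : Ω.Nonempty) :
    (RaySet Ω).Nonempty := by
  obtain ⟨u, hu, h0⟩ := exists_bump hΩ hne
  exact ⟨_, u, hu.c1, hu.cs, hu.sub, h0, rfl⟩

/-- Pointwise asymptotic comparison. -/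
theorem eventually_mm_lt (hd : 1 ≤ d) (hb : BddAbove (TorSet Ω))
    (hvol : volume Ω = volume (Metric.ball (0 : E d) 1)) {w : ℕ → E d → ℝ} {η : ℕ → ℝ}
    (hη0 : ∀ n, 0 ≤ η n) (hη : Tendsto η atTop (𝓝 0)) (hw : ∀ n, Adm Ω (w n))
    (hdir : ∀ n, dir (w n) ≤ sSup (TorSet Ω))
    (hJ : ∀ n, dir (w n) - 2 * (∫ x, w n x) ≤ -sSup (TorSet Ω) + η n) {t : ℝ} (ht : 0 ≤ t)
    {ε : ℝ} (hε : 0 < ε) : ∀ᶠ n in atTop, mm (w n) t < mB d t + ε := by
  by_contra hcon
  have hd' : (1 : ℝ) ≤ d := by exact_mod_cast hd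
  have hd0 : d ≠ 0 := by lia
  have hω := omega_pos hd
  set T := sSup (TorSet Ω) with hT
  -- uniform bound
  have hmm : ∀ n τ, 0 ≤ τ → mm (w n) τ ≤ omega d := by
    intro n τ hτ
    unfold mm omega
    rw [← hvol]
    refine ENNReal.toReal_mono ?_ (measure_mono ((hw n).subset_lt hτ))
    rw [hvol]
    exact measure_ball_lt_top.ne
  -- the ultrafilter
  have hfr : ∃ᶠ n in atTop, ¬ (mm (w n) t < mB d t + ε) := Filter.not_eventually.1 hcon
  set S : Set ℕ := {n | ¬ (mm (w n) t < mB d t + ε)} with hS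
  have hne : (atTop ⊓ 𝓟 S).NeBot := by
    rw [← frequently_mem_iff_neBot]
    exact hfr
  set 𝓤 : Ultrafilter ℕ := Ultrafilter.of (atTop ⊓ 𝓟 S) with h𝓤
  have hU1 : (𝓤 : Filter ℕ) ≤ atTop := (Ultrafilter.of_le _).trans inf_le_left
  have hU2 : S ∈ 𝓤 := by
    have : (𝓤 : Filter ℕ) ≤ 𝓟 S := (Ultrafilter.of_le _).trans inf_le_right
    exact this (mem_principal_self S)
  have hlim : ∀ τ : ℝ, ∃ M : ℝ, (0 ≤ τ → M ∈ Icc 0 (omega d) ∧
      Tendsto (fun n => mm (w n) τ) 𝓤 (𝓝 M)) := by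
    intro τ
    by_cases hτ : 0 ≤ τ
    · have hle : ((𝓤.map (fun n => mm (w n) τ) : Ultrafilter ℝ) : Filter ℝ) ≤
          𝓟 (Icc 0 (omega d)) := by
        rw [Ultrafilter.coe_map, le_principal_iff, mem_map]
        exact Filter.univ_mem' (fun n => ⟨mm_nonneg _ _, hmm n τ hτ⟩)
      obtain ⟨M, hM, hM2⟩ := (isCompact_Icc (a := (0 : ℝ)) (b := omega d)).ultrafilter_le_nhds _ hle
      exact ⟨M, fun _ => ⟨hM, hM2⟩⟩
    · exact ⟨0, fun h => absurd h hτ⟩
  choose M hM using hlim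
  set ρ : ℝ → ℝ := fun τ => (M τ / omega d) ^ ((d : ℝ)⁻¹) with hρ
  have hMnn : ∀ τ, 0 ≤ τ → 0 ≤ M τ / omega d := fun τ hτ => div_nonneg (hM τ hτ).1.1 hω.le
  have hρd : ∀ τ, 0 ≤ τ → ρ τ ^ d = M τ / omega d := by
    intro τ hτ
    rw [hρ]
    exact Real.rpow_inv_natCast_pow (hMnn τ hτ) hd0
  have hρ0 : ∀ τ, 0 ≤ τ → 0 ≤ ρ τ := fun τ hτ => Real.rpow_nonneg (hMnn τ hτ) _
  have hMd : ∀ τ, 0 ≤ τ → M τ = omega d * ρ τ ^ d := by
    intro τ hτ; rw [hρd τ hτ]; field_simp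
  have hMa : ∀ s τ, 0 ≤ s → s ≤ τ → M τ ≤ M s := by
    intro s τ hs hsτ
    exact le_of_tendsto_of_tendsto (hM τ (hs.trans hsτ)).2 (hM s hs).2
      (Eventually.of_forall (fun n => (hw n).mm_anti hs hsτ))
  have hcmp := ode_compare hd (ρ := ρ) hρ0 (by
    intro s τ hs hsτ
    rw [hρ]
    exact Real.rpow_le_rpow (hMnn τ (hs.trans hsτ)) (by gcongr; exact hMa s τ hs hsτ)
      (by positivity)) (by
    have h1 : ρ 0 ^ d ≤ 1 := by
      rw [hρd 0 le_rfl, div_le_one hω]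
      exact (hM 0 le_rfl).1.2
    exact (pow_le_one_iff_of_nonneg (hρ0 0 le_rfl) hd0).1 h1) (by
    intro s τ hs hsτ
    have hτ : 0 ≤ τ := hs.trans hsτ.le
    set h := τ - s with hh
    have hhpos : 0 < h := by rw [hh]; linarith
    have hsh : s + h = τ := by rw [hh]; ring
    have hineq : ∀ r : ℝ, ρ s < r → (d : ℝ) ^ 2 * (h * M τ) ^ 2 ≤
        r ^ 2 * ((M s - M τ) * (h * M τ + √(0 * T))) := by
      intro r hr
      have hrpos : 0 < r := (hρ0 s hs).trans_lt hr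
      have hMs : M s < omega d * r ^ d := by
        rw [hMd s hs]
        have : ρ s ^ d < r ^ d := pow_lt_pow_left₀ hr (hρ0 s hs) hd0
        gcongr
      have hev : ∀ᶠ n in (𝓤 : Filter ℕ), mm (w n) s < omega d * r ^ d :=
        (hM s hs).2.eventually_lt_const hMs
      have hl : Tendsto (fun n => (d : ℝ) ^ 2 * (h * mm (w n) τ) ^ 2) 𝓤
          (𝓝 ((d : ℝ) ^ 2 * (h * M τ) ^ 2)) :=
        (((hM τ hτ).2.const_mul h).pow 2).const_mul _
      have hr' : Tendsto (fun n => r ^ 2 * ((mm (w n) s - mm (w n) τ) *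
          (h * mm (w n) τ + √(η n * T)))) 𝓤
          (𝓝 (r ^ 2 * ((M s - M τ) * (h * M τ + √(0 * T))))) := by
        have hsq : Tendsto (fun n => √(η n * T)) 𝓤 (𝓝 (√(0 * T))) :=
          (Real.continuous_sqrt.tendsto _).comp ((hη.mono_left hU1).mul_const T)
        exact ((((hM s hs).2.sub (hM τ hτ).2)).mul (((hM τ hτ).2.const_mul h).add hsq)).const_mul _
      refine le_of_tendsto_of_tendsto hl hr' ?_
      filter_upwards [hev] with n hn
      have := discrete_ineq hd hb (hw n) (hη0 n) (hdir n) (hJ n) hs hhpos hrpos hn.le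
      rwa [hsh] at this
    have hineq2 : (d : ℝ) ^ 2 * (h * M τ) ^ 2 ≤ ρ s ^ 2 * ((M s - M τ) * (h * M τ)) := by
      have hc : Tendsto (fun r : ℝ => r ^ 2 * ((M s - M τ) * (h * M τ + √(0 * T)))) (𝓝[>] (ρ s))
          (𝓝 (ρ s ^ 2 * ((M s - M τ) * (h * M τ + √(0 * T))))) := by
        apply Tendsto.mono_left _ nhdsWithin_le_nhds
        exact Continuous.tendsto (by fun_prop) _
      have := ge_of_tendsto hc (by
        filter_upwards [self_mem_nhdsWithin] with r hr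
        exact hineq r hr)
      simpa using this
    rcases (hM τ hτ).1.1.eq_or_lt with h0 | hpos
    · have : ρ τ ^ d = 0 := by rw [hρd τ hτ, ← h0]; simp
      rw [this]
      have := hρ0 s hs
      simp only [mul_zero, sub_zero]
      positivity
    · have h3 : (d : ℝ) ^ 2 * h * M τ ≤ ρ s ^ 2 * (M s - M τ) := by
        have h4 : ((d : ℝ) ^ 2 * h * M τ) * (h * M τ) ≤ (ρ s ^ 2 * (M s - M τ)) * (h * M τ) := by
          nlinarith
        exact le_of_mul_le_mul_right h4 (by positivity)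
      rw [hMd τ hτ, hMd s hs] at h3
      have h5 : ((d : ℝ) ^ 2 * h * ρ τ ^ d) * omega d ≤
          (ρ s ^ 2 * (ρ s ^ d - ρ τ ^ d)) * omega d := by nlinarith
      exact le_of_mul_le_mul_right h5 hω)
  have hfin : M t ≤ mB d t := by
    rw [hMd t ht]
    unfold mB
    have := hcmp t ht
    have h0 := hρ0 t ht
    gcongr
  have hge : mB d t + ε ≤ M t := by
    refine ge_of_tendsto (hM t ht).2 ?_
    filter_upwards [hU2] with n hn
    exact not_lt.1 hn
  linarith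

end Pool.Agent.Lib.H38.Tor
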