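import Mathlib
import Pool.Agent.Lib.H38.Tor.Defs
import Pool.Agent.Lib.H38.Tor.RadialDef

set_option autoImplicit false

/-!
# Radial integrals
-/

namespace Pool.Agent.Lib.H38.Tor

open MeasureTheory Set

/-- The substitution `t = (1 - ρ ^ 2) / (2 d)`. -/
theorem subst_radial {d : ℕ} (hd : 1 ≤ d) {g : ℝ → ℝ} (hg : Continuous g) :
    ∫ t in (0 : ℝ)..WB d, g t * mB d t =
      ∫ ρ in (0 : ℝ)..1, g ((1 - ρ ^ 2) / (2 * d)) * (omega d * ρ ^ d) * (ρ / d) := by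
  have hd0 : (d : ℝ) ≠ 0 := by positivity
  have hcont : Continuous (fun t => g t * mB d t) := by
    unfold mB
    fun_prop
  have hder : ∀ ρ ∈ uIcc (0 : ℝ) 1,
      HasDerivAt (fun ρ : ℝ => (1 - ρ ^ 2) / (2 * d)) (-(ρ / d)) ρ := by
    intro ρ _
    have h1 : HasDerivAt (fun ρ : ℝ => (1 - ρ ^ 2) / (2 * d)) ((0 - (2 : ℕ) * ρ ^ (2 - 1)) / (2 * d)) ρ :=
      ((hasDerivAt_const ρ (1 : ℝ)).sub (hasDerivAt_pow 2 ρ)).div_const _
    convert h1 using 1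
    field_simp
    push_cast
    ring
  have h := intervalIntegral.integral_comp_mul_deriv (g := fun t => g t * mB d t) hder
    (by fun_prop) hcont
  have e0 : (1 - (0 : ℝ) ^ 2) / (2 * d) = WB d := by rw [WB]; ring
  have e1 : (1 - (1 : ℝ) ^ 2) / (2 * d) = 0 := by ring
  rw [e0, e1, intervalIntegral.integral_symm (0 : ℝ) (WB d)] at h
  have h2 : ∫ t in (0 : ℝ)..WB d, g t * mB d t =
      -∫ x in (0 : ℝ)..1, ((fun t => g t * mB d t) ∘ fun ρ => (1 - ρ ^ 2) / (2 * d)) x * -(x / d) := by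
    rw [h, neg_neg]
  rw [h2, ← intervalIntegral.integral_neg]
  apply intervalIntegral.integral_congr
  intro ρ hρ
  rw [uIcc_of_le zero_le_one] at hρ
  have h3 : √(1 - 2 * d * ((1 - ρ ^ 2) / (2 * d))) = ρ := by
    have : 1 - 2 * d * ((1 - ρ ^ 2) / (2 * d)) = ρ ^ 2 := by field_simp; ring
    rw [this, Real.sqrt_sq hρ.1]
  simp only [Function.comp_apply, mB, h3]
  ring

/-- CHUNK RADIAL (a): substitute `t = (1 - ρ^2) / (2 d)` and integrate by parts in `ρ ∈ [0,1]`. -/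
theorem radial_identity {d : ℕ} (hd : 1 ≤ d) {μ : ℝ} {ψ ψ' ψ'' : ℝ → ℝ}
    (h : Radial d μ ψ ψ' ψ'') (h1 : ψ 1 = 0) :
    ∫ t in (0 : ℝ)..WB d, (-(2 * d * ψ' (1 - 2 * d * t))) ^ 2 * mB d t =
      μ * ∫ t in (0 : ℝ)..WB d,
        2 * ψ (1 - 2 * d * t) * (-(2 * d * ψ' (1 - 2 * d * t))) * mB d t := by
  have hd0 : (d : ℝ) ≠ 0 := by positivity
  have cψ : Continuous ψ := continuous_iff_continuousAt.mpr fun s => (h.h1 s).continuousAt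
  have cψ' : Continuous ψ' := continuous_iff_continuousAt.mpr fun s => (h.h2 s).continuousAt
  rw [subst_radial hd (g := fun t => (-(2 * d * ψ' (1 - 2 * d * t))) ^ 2) (by fun_prop),
    subst_radial hd (g := fun t => 2 * ψ (1 - 2 * d * t) * (-(2 * d * ψ' (1 - 2 * d * t))))
      (by fun_prop)]
  have hs : ∀ ρ : ℝ, 1 - 2 * d * ((1 - ρ ^ 2) / (2 * d)) = ρ ^ 2 := by
    intro ρ; field_simp; ring
  simp only [hs]
  obtain ⟨n, rfl⟩ : ∃ n, d = n + 1 := ⟨d - 1, by omega⟩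
  -- derivatives
  have dψ : ∀ ρ : ℝ, HasDerivAt (fun ρ : ℝ => ψ (ρ ^ 2)) (ψ' (ρ ^ 2) * (2 * ρ)) ρ := by
    intro ρ
    exact ((h.h1 (ρ ^ 2)).comp ρ (hasDerivAt_pow 2 ρ)).congr_deriv (by simp)
  have dψ' : ∀ ρ : ℝ, HasDerivAt (fun ρ : ℝ => ψ' (ρ ^ 2)) (ψ'' (ρ ^ 2) * (2 * ρ)) ρ := by
    intro ρ
    exact ((h.h2 (ρ ^ 2)).comp ρ (hasDerivAt_pow 2 ρ)).congr_deriv (by simp)
  have dp : ∀ ρ : ℝ, HasDerivAt (fun ρ : ℝ => ρ ^ (n + 1)) (((n : ℝ) + 1) * ρ ^ n) ρ := by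
    intro ρ
    have := hasDerivAt_pow (n + 1) ρ
    simpa using this
  have I1 : ∫ ρ in (0 : ℝ)..1, (2 * ρ ^ (n + 2) * ψ' (ρ ^ 2) ^ 2 - μ / 2 * (ρ ^ n * ψ (ρ ^ 2) ^ 2)) = 0 := by
    have hder : ∀ ρ ∈ uIcc (0 : ℝ) 1, HasDerivAt
        (fun ρ : ℝ => ψ (ρ ^ 2) * ψ' (ρ ^ 2) * ρ ^ (n + 1))
        (2 * ρ ^ (n + 2) * ψ' (ρ ^ 2) ^ 2 - μ / 2 * (ρ ^ n * ψ (ρ ^ 2) ^ 2)) ρ := by
      intro ρ _
      refine (((dψ ρ).mul (dψ' ρ)).mul (dp ρ)).congr_deriv ?_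
      have hode := h.ode (ρ ^ 2)
      push_cast at hode
      have : (ψ' (ρ ^ 2) * (2 * ρ) * ψ' (ρ ^ 2) + ψ (ρ ^ 2) * (ψ'' (ρ ^ 2) * (2 * ρ))) * ρ ^ (n + 1) +
          ψ (ρ ^ 2) * ψ' (ρ ^ 2) * (((n : ℝ) + 1) * ρ ^ n) -
          (2 * ρ ^ (n + 2) * ψ' (ρ ^ 2) ^ 2 - μ / 2 * (ρ ^ n * ψ (ρ ^ 2) ^ 2)) =
          ρ ^ n * ψ (ρ ^ 2) / 2 *
            (4 * ρ ^ 2 * ψ'' (ρ ^ 2) + 2 * (n + 1) * ψ' (ρ ^ 2) + μ * ψ (ρ ^ 2)) := by
        ring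
      rw [hode, mul_zero] at this
      simp only [Pi.mul_apply]
      linarith
    rw [intervalIntegral.integral_eq_sub_of_hasDerivAt hder
      (by apply Continuous.intervalIntegrable; fun_prop)]
    simp [h1]
  have I2 : ∫ ρ in (0 : ℝ)..1, (4 * ρ ^ (n + 2) * (ψ (ρ ^ 2) * ψ' (ρ ^ 2)) +
      ((n : ℝ) + 1) * (ρ ^ n * ψ (ρ ^ 2) ^ 2)) = 0 := by
    have hder : ∀ ρ ∈ uIcc (0 : ℝ) 1, HasDerivAt
        (fun ρ : ℝ => ψ (ρ ^ 2) * ψ (ρ ^ 2) * ρ ^ (n + 1))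
        (4 * ρ ^ (n + 2) * (ψ (ρ ^ 2) * ψ' (ρ ^ 2)) +
      ((n : ℝ) + 1) * (ρ ^ n * ψ (ρ ^ 2) ^ 2)) ρ := by
      intro ρ _
      refine (((dψ ρ).mul (dψ ρ)).mul (dp ρ)).congr_deriv ?_
      simp only [Pi.mul_apply]
      ring
    rw [intervalIntegral.integral_eq_sub_of_hasDerivAt hder
      (by apply Continuous.intervalIntegrable; fun_prop)]
    simp [h1]
  have i1 : IntervalIntegrable (fun ρ : ℝ => ρ ^ (n + 2) * ψ' (ρ ^ 2) ^ 2) volume 0 1 := by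
    apply Continuous.intervalIntegrable; fun_prop
  have i2 : IntervalIntegrable (fun ρ : ℝ => ρ ^ n * ψ (ρ ^ 2) ^ 2) volume 0 1 := by
    apply Continuous.intervalIntegrable; fun_prop
  have i3 : IntervalIntegrable (fun ρ : ℝ => ρ ^ (n + 2) * (ψ (ρ ^ 2) * ψ' (ρ ^ 2))) volume 0 1 := by
    apply Continuous.intervalIntegrable; fun_prop
  set X := ∫ ρ in (0 : ℝ)..1, ρ ^ (n + 2) * ψ' (ρ ^ 2) ^ 2 with hX
  set Y := ∫ ρ in (0 : ℝ)..1, ρ ^ n * ψ (ρ ^ 2) ^ 2 with hY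
  set Z := ∫ ρ in (0 : ℝ)..1, ρ ^ (n + 2) * (ψ (ρ ^ 2) * ψ' (ρ ^ 2)) with hZ
  have J1 : 2 * X - μ / 2 * Y = 0 := by
    rw [← I1, hX, hY, ← intervalIntegral.integral_const_mul, ← intervalIntegral.integral_const_mul,
      ← intervalIntegral.integral_sub (i1.const_mul _) (i2.const_mul _)]
    apply intervalIntegral.integral_congr
    intro ρ _
    ring
  have J2 : 4 * Z + ((n : ℝ) + 1) * Y = 0 := by
    rw [← I2, hZ, hY, ← intervalIntegral.integral_const_mul, ← intervalIntegral.integral_const_mul,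
      ← intervalIntegral.integral_add (i3.const_mul _) (i2.const_mul _)]
    apply intervalIntegral.integral_congr
    intro ρ _
    ring
  have L : ∫ ρ in (0 : ℝ)..1, (-(2 * ((n + 1 : ℕ) : ℝ) * ψ' (ρ ^ 2))) ^ 2 *
      (omega (n + 1) * ρ ^ (n + 1)) * (ρ / ((n + 1 : ℕ) : ℝ)) = 4 * omega (n + 1) * ((n : ℝ) + 1) * X := by
    rw [hX, ← intervalIntegral.integral_const_mul]
    apply intervalIntegral.integral_congr
    intro ρ _
    have : ((n : ℝ) + 1) ≠ 0 := by positivity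
    simp only
    push_cast
    field_simp
    ring
  have R : ∫ ρ in (0 : ℝ)..1, 2 * ψ (ρ ^ 2) * (-(2 * ((n + 1 : ℕ) : ℝ) * ψ' (ρ ^ 2))) *
      (omega (n + 1) * ρ ^ (n + 1)) * (ρ / ((n + 1 : ℕ) : ℝ)) = -(4 * omega (n + 1)) * Z := by
    rw [hZ, ← intervalIntegral.integral_const_mul]
    apply intervalIntegral.integral_congr
    intro ρ _
    have : ((n : ℝ) + 1) ≠ 0 := by positivity
    simp only
    push_cast
    field_simp
    ring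
  rw [L, R]
  have J3 : ((n : ℝ) + 1) * X = -μ * Z := by
    linear_combination (((n : ℝ) + 1) / 2) * J1 + (μ / 4) * J2
  linear_combination (4 * omega (n + 1)) * J3

/-- CHUNK RADIAL (b). -/
theorem integral_mB {d : ℕ} (hd : 1 ≤ d) : ∫ t in (0 : ℝ)..WB d, mB d t = TB d := by
  have hd0 : (d : ℝ) ≠ 0 := by positivity
  have h := subst_radial hd (g := fun _ => 1) continuous_const
  simp only [one_mul] at h
  rw [h, TB]
  have h2 : ∫ ρ in (0 : ℝ)..1, omega d * ρ ^ d * (ρ / d) = omega d / d * ∫ ρ in (0 : ℝ)..1, ρ ^ (d + 1) := by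
    rw [← intervalIntegral.integral_const_mul]
    apply intervalIntegral.integral_congr
    intro ρ _
    simp only
    rw [pow_succ]
    field_simp
  rw [h2, integral_pow]
  have : (d : ℝ) + 2 ≠ 0 := by positivity
  simp
  field_simp
  ring

end Pool.Agent.Lib.H38.Tor
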