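import Mathlib
import Pool.Agent.Lib.H38.Tor.Cmp
import Pool.Agent.Lib.H38.Tor.Radial

set_option autoImplicit false

/-!
# Passage to the limit along near minimizers
-/

namespace Pool.Agent.Lib.H38.Tor

open MeasureTheory Set Filter Topology

variable {d : ℕ} {Ω : Set (E d)}

lemma ray_le {u : E d → ℝ} (hu : Adm Ω u) :
    sInf (RaySet Ω) * (∫ x, u x ^ 2) ≤ dir u := by
  by_cases h0 : u = 0
  · subst h0
    simp [dir]
  · have hpos : 0 < ∫ x, u x ^ 2 := by
      obtain ⟨x, hx⟩ : ∃ x, u x ≠ 0 := by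
        by_contra h
        push Not at h
        exact h0 (funext h)
      exact Continuous.integral_pos_of_hasCompactSupport_nonneg_nonzero (x := x)
        (hu.cont.pow 2) (hu.cs.comp_left (g := fun t : ℝ => t ^ 2) (by simp))
        (fun x => by positivity) (by positivity)
    have hbdd : BddBelow (RaySet Ω) := by
      refine ⟨0, ?_⟩
      rintro r ⟨v, -, -, -, -, rfl⟩
      exact div_nonneg (integral_nonneg (fun x => by positivity))
        (integral_nonneg (fun x => by positivity))
    have h1 : dir u / (∫ x, u x ^ 2) ∈ RaySet Ω := ⟨u, hu.c1, hu.cs, hu.sub, h0, rfl⟩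
    have h2 := csInf_le hbdd h1
    rwa [le_div_iff₀ hpos] at h2

lemma sInf_ray_nonneg : 0 ≤ sInf (RaySet Ω) := by
  refine Real.sInf_nonneg ?_
  rintro r ⟨v, -, -, -, -, rfl⟩
  exact div_nonneg (integral_nonneg (fun x => by positivity))
    (integral_nonneg (fun x => by positivity))

lemma WB_pos (hd : 1 ≤ d) : 0 < WB d := by
  have hd' : (1 : ℝ) ≤ d := by exact_mod_cast hd
  unfold WB
  positivity

/-- `mm w` is interval integrable against continuous functions on `[0, L]`. -/
lemma Adm.mm_ii {w : E d → ℝ} (hw : Adm Ω w) {g : ℝ → ℝ} (hg : Continuous g) {L : ℝ}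
    (hL : 0 ≤ L) : IntervalIntegrable (fun t => g t * mm w t) volume 0 L := by
  have h1 : IntervalIntegrable (mm w) volume 0 L := by
    refine AntitoneOn.intervalIntegrable ?_
    rw [uIcc_of_le hL]
    intro s hs t ht hst
    exact hw.mm_anti hs.1 hst
  exact h1.continuousOn_mul hg.continuousOn

lemma Adm.mm_ii1 {w : E d → ℝ} (hw : Adm Ω w) {L : ℝ} (hL : 0 ≤ L) :
    IntervalIntegrable (mm w) volume 0 L := by
  have := hw.mm_ii (g := fun _ => 1) continuous_const hL
  simpa using this

/-- sequences of near minimizers -/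
structure NearSeq (Ω : Set (E d)) (w : ℕ → E d → ℝ) (η : ℕ → ℝ) : Prop where
  hη0 : ∀ n, 0 ≤ η n
  hη : Tendsto η atTop (𝓝 0)
  hw : ∀ n, Adm Ω (w n)
  hdir : ∀ n, dir (w n) ≤ sSup (TorSet Ω)
  hint : ∀ n, sSup (TorSet Ω) - η n ≤ ∫ x, w n x
  hJ : ∀ n, dir (w n) - 2 * (∫ x, w n x) ≤ -sSup (TorSet Ω) + η n

lemma exists_nearSeq (hd : 1 ≤ d) (hΩ : IsOpen Ω) (hne : Ω.Nonempty)
    (hb : BddAbove (TorSet Ω)) : ∃ w η, NearSeq Ω w η := by
  have h : ∀ n : ℕ, ∃ w : E d → ℝ, Adm Ω w ∧ dir w ≤ sSup (TorSet Ω) ∧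
      sSup (TorSet Ω) - 1 / ((n : ℝ) + 1) ≤ ∫ x, w x ∧
      dir w - 2 * (∫ x, w x) ≤ -sSup (TorSet Ω) + 1 / ((n : ℝ) + 1) := fun n =>
    exists_near hd hb (torSet_nonempty hΩ hne) (by positivity)
  choose w h1 h2 h3 h4 using h
  exact ⟨w, fun n => 1 / ((n : ℝ) + 1), fun n => by positivity,
    tendsto_one_div_add_atTop_nhds_zero_nat, h1, h2, h3, h4⟩

section seq

variable {w : ℕ → E d → ℝ} {η : ℕ → ℝ}

lemma mm_le_omega (hvol : volume Ω = volume (Metric.ball (0 : E d) 1)) (hN : NearSeq Ω w η)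
    (n : ℕ) {τ : ℝ} (hτ : 0 ≤ τ) : mm (w n) τ ≤ omega d := by
  unfold mm omega
  rw [← hvol]
  refine ENNReal.toReal_mono ?_ (measure_mono ((hN.hw n).subset_lt hτ))
  rw [hvol]
  exact measure_ball_lt_top.ne

lemma tendsto_excess (hd : 1 ≤ d) (hb : BddAbove (TorSet Ω))
    (hvol : volume Ω = volume (Metric.ball (0 : E d) 1)) (hN : NearSeq Ω w η) {t : ℝ}
    (ht : 0 ≤ t) : Tendsto (fun n => max (mm (w n) t - mB d t) 0) atTop (𝓝 0) := by
  rw [Metric.tendsto_atTop]
  intro ε hε
  have h := eventually_mm_lt hd hb hvol hN.hη0 hN.hη hN.hw hN.hdir hN.hJ ht hε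
  obtain ⟨N, hN'⟩ := eventually_atTop.1 h
  refine ⟨N, fun n hn => ?_⟩
  have h1 := hN' n hn
  rw [Real.dist_eq, sub_zero, abs_of_nonneg (le_max_right _ _)]
  exact max_lt (by linarith) hε

lemma tendsto_pp (hd : 1 ≤ d) (hb : BddAbove (TorSet Ω))
    (hvol : volume Ω = volume (Metric.ball (0 : E d) 1)) (hN : NearSeq Ω w η) {L : ℝ}
    (hL : 0 ≤ L) :
    Tendsto (fun n => ∫ t in (0 : ℝ)..L, max (mm (w n) t - mB d t) 0) atTop (𝓝 0) := by
  have h := intervalIntegral.tendsto_integral_filter_of_dominated_convergence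
    (μ := volume) (a := 0) (b := L) (l := atTop)
    (F := fun (n : ℕ) (t : ℝ) => max (mm (w n) t - mB d t) 0) (f := fun _ => (0 : ℝ))
    (fun _ => omega d) ?_ ?_ (by simp) ?_
  · simpa using h
  · refine Eventually.of_forall (fun n => ?_)
    have h1 := (((hN.hw n).mm_ii1 hL).sub ((mB_cont d).intervalIntegrable 0 L))
    have hc : Continuous (fun y : ℝ => max y 0) := by fun_prop
    rw [uIoc_of_le hL]
    exact hc.comp_aestronglyMeasurable h1.aestronglyMeasurable
  · refine Eventually.of_forall (fun n => Eventually.of_forall (fun t ht => ?_))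
    rw [uIoc_of_le hL] at ht
    have h1 := mm_le_omega hvol hN n ht.1.le
    have h2 := mB_nonneg hd t
    have h3 := omega_pos hd
    rw [Real.norm_eq_abs, abs_of_nonneg (le_max_right _ _)]
    exact max_le (by linarith) h3.le
  · refine Eventually.of_forall (fun t ht => ?_)
    rw [uIoc_of_le hL] at ht
    exact tendsto_excess hd hb hvol hN ht.1.le

/-- the tail tends to zero -/
lemma tendsto_tail (hd : 1 ≤ d) (hb : BddAbove (TorSet Ω))
    (hvol : volume Ω = volume (Metric.ball (0 : E d) 1)) (hN : NearSeq Ω w η) :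
    Tendsto (fun n => ∫ x, max (w n x - WB d) 0) atTop (𝓝 0) := by
  have hW := WB_pos hd
  have h1 : Tendsto (fun n => mm (w n) (WB d)) atTop (𝓝 0) := by
    have := tendsto_excess hd hb hvol hN hW.le
    rw [mB_zero_of_ge hd le_rfl] at this
    refine this.congr (fun n => ?_)
    rw [sub_zero, max_eq_left (mm_nonneg _ _)]
  have h2 : Tendsto (fun n => √(mm (w n) (WB d) * sSup (TorSet Ω)) + mm (w n) (WB d)) atTop
      (𝓝 (√(0 * sSup (TorSet Ω)) + 0)) :=
    (((Real.continuous_sqrt.tendsto _).comp (h1.mul_const _))).add h1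
  simp only [zero_mul, Real.sqrt_zero, add_zero] at h2
  refine squeeze_zero (fun n => integral_nonneg (fun x => le_max_right _ _)) (fun n => ?_) h2
  refine (tail_ineq hd (hN.hw n) hW.le (mm_le_omega hvol hN n hW.le)).trans ?_
  have := mm_nonneg (w n) (WB d)
  have h3 := hN.hdir n
  gcongr

lemma layer_one {v : E d → ℝ} (hv : Adm Ω v) {L : ℝ} (hL : 0 ≤ L) :
    ∫ x, min (max (v x) 0) L = ∫ t in (0 : ℝ)..L, mm v t := by
  have := layer hv (g := fun _ => 1) continuous_const hL
  simpa [Pr] using this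

/-- lower bound for the truncated mass -/
lemma mass_ge (hd : 1 ≤ d) (hN : NearSeq Ω w η) (n : ℕ) :
    sSup (TorSet Ω) - η n - (∫ x, max (w n x - WB d) 0) ≤ ∫ t in (0 : ℝ)..WB d, mm (w n) t := by
  have hW := WB_pos hd
  rw [← layer_one (hN.hw n) hW.le]
  have h1 := hN.hint n
  have i1 : Integrable (fun x => min (max (w n x) 0) (WB d)) :=
    (hN.hw n).int_comp (F := fun t => min (max t 0) (WB d)) (by fun_prop) (by simp [hW.le])
  have i2 : Integrable (fun x => max (w n x - WB d) 0) :=
    (hN.hw n).int_comp (F := fun t => max (t - WB d) 0) (by fun_prop) (by simp [hW.le])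
  have h2 : (∫ x, w n x) ≤ (∫ x, min (max (w n x) 0) (WB d)) + ∫ x, max (w n x - WB d) 0 := by
    rw [← integral_add i1 i2]
    refine integral_mono (hN.hw n).int (i1.add i2) (fun x => ?_)
    simp only
    rcases le_total (w n x) 0 with h | h
    · have e1 : 0 ≤ min (max (w n x) 0) (WB d) := le_min (le_max_right _ _) hW.le
      have e2 : 0 ≤ max (w n x - WB d) 0 := le_max_right _ _
      linarith
    · rw [max_eq_left h]
      rcases le_total (w n x) (WB d) with h3 | h3
      · rw [min_eq_left h3]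
        have e2 : 0 ≤ max (w n x - WB d) 0 := le_max_right _ _
        linarith
      · rw [min_eq_right h3, max_eq_left (by linarith)]
        linarith
  linarith

/-- for a continuous weight `0 ≤ G ≤ K` on `[0, L]` -/
lemma weight_le (hN : NearSeq Ω w η) (n : ℕ) {G : ℝ → ℝ} (hG : Continuous G) {K L : ℝ}
    (hL : 0 ≤ L) (hG0 : ∀ t ∈ Icc 0 L, 0 ≤ G t) (hK : ∀ t ∈ Icc 0 L, G t ≤ K) :
    (∫ t in (0 : ℝ)..L, G t * mm (w n) t) ≤ (∫ t in (0 : ℝ)..L, G t * mB d t) +
      K * ∫ t in (0 : ℝ)..L, max (mm (w n) t - mB d t) 0 := by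
  have hi1 := (hN.hw n).mm_ii hG hL
  have hi2 : IntervalIntegrable (fun t => G t * mB d t) volume 0 L :=
    (hG.mul (mB_cont d)).intervalIntegrable _ _
  have hi3 : IntervalIntegrable (fun t => max (mm (w n) t - mB d t) 0) volume 0 L := by
    have h1 := (((hN.hw n).mm_ii1 hL).sub ((mB_cont d).intervalIntegrable 0 L))
    have h2 : (fun t => max (mm (w n) t - mB d t) 0) =
        fun t => (mm (w n) t - mB d t + |mm (w n) t - mB d t|) / 2 := by
      funext t
      rcases le_total 0 (mm (w n) t - mB d t) with h | h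
      · rw [max_eq_left h, abs_of_nonneg h]; ring
      · rw [max_eq_right h, abs_of_nonpos h]; ring
    rw [h2]
    exact (h1.add h1.abs).div_const 2
  rw [← intervalIntegral.integral_const_mul, ← intervalIntegral.integral_add hi2
    (hi3.const_mul K)]
  refine intervalIntegral.integral_mono_on hL hi1 (hi2.add (hi3.const_mul K)) (fun t ht => ?_)
  have e1 := hG0 t ht
  have e2 := hK t ht
  have e3 := le_max_left (mm (w n) t - mB d t) 0
  have e4 := le_max_right (mm (w n) t - mB d t) 0
  nlinarith [mul_le_mul_of_nonneg_left e3 e1, mul_le_mul_of_nonneg_right e2 e4]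

/-- Saint-Venant -/
lemma sSup_le_TB (hd : 1 ≤ d) (hb : BddAbove (TorSet Ω))
    (hvol : volume Ω = volume (Metric.ball (0 : E d) 1)) (hN : NearSeq Ω w η) :
    sSup (TorSet Ω) ≤ TB d := by
  have hW := WB_pos hd
  have h1 : ∀ n, sSup (TorSet Ω) - η n - (∫ x, max (w n x - WB d) 0) ≤
      TB d + 1 * ∫ t in (0 : ℝ)..WB d, max (mm (w n) t - mB d t) 0 := by
    intro n
    refine (mass_ge hd hN n).trans ?_
    have := weight_le hN n (G := fun _ => 1) continuous_const (K := 1) hW.le (by simp) (by simp)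
    simp only [one_mul] at this ⊢
    rwa [integral_mB hd] at this
  have h2 : Tendsto (fun n => sSup (TorSet Ω) - η n - (∫ x, max (w n x - WB d) 0)) atTop
      (𝓝 (sSup (TorSet Ω) - 0 - 0)) :=
    (tendsto_const_nhds.sub hN.hη).sub (tendsto_tail hd hb hvol hN)
  have h3 : Tendsto (fun n => TB d + 1 * ∫ t in (0 : ℝ)..WB d, max (mm (w n) t - mB d t) 0) atTop
      (𝓝 (TB d + 1 * 0)) :=
    tendsto_const_nhds.add ((tendsto_pp hd hb hvol hN hW.le).const_mul 1)
  have := le_of_tendsto_of_tendsto' h2 h3 h1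
  simpa using this

/-- deficit -/
lemma deficit_le (hd : 1 ≤ d) (hN : NearSeq Ω w η) (n : ℕ) :
    (∫ t in (0 : ℝ)..WB d, max (mB d t - mm (w n) t) 0) ≤
      TB d - sSup (TorSet Ω) + η n + (∫ x, max (w n x - WB d) 0) +
        ∫ t in (0 : ℝ)..WB d, max (mm (w n) t - mB d t) 0 := by
  have hW := WB_pos hd
  have hi1 := (hN.hw n).mm_ii1 hW.le
  have hi2 : IntervalIntegrable (fun t => mB d t) volume 0 (WB d) :=
    (mB_cont d).intervalIntegrable _ _
  have hi3 : IntervalIntegrable (fun t => max (mm (w n) t - mB d t) 0) volume 0 (WB d) := by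
    have h1 := hi1.sub hi2
    have h2 : (fun t => max (mm (w n) t - mB d t) 0) =
        fun t => (mm (w n) t - mB d t + |mm (w n) t - mB d t|) / 2 := by
      funext t
      rcases le_total 0 (mm (w n) t - mB d t) with h | h
      · rw [max_eq_left h, abs_of_nonneg h]; ring
      · rw [max_eq_right h, abs_of_nonpos h]; ring
    rw [h2]
    exact (h1.add h1.abs).div_const 2
  have h1 : (∫ t in (0 : ℝ)..WB d, max (mB d t - mm (w n) t) 0) =
      (∫ t in (0 : ℝ)..WB d, mB d t) - (∫ t in (0 : ℝ)..WB d, mm (w n) t) +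
        ∫ t in (0 : ℝ)..WB d, max (mm (w n) t - mB d t) 0 := by
    rw [← intervalIntegral.integral_sub hi2 hi1, ← intervalIntegral.integral_add
      (hi2.sub hi1) hi3]
    refine intervalIntegral.integral_congr (fun t _ => ?_)
    rcases le_total (mB d t) (mm (w n) t) with h | h
    · rw [max_eq_right (by linarith), max_eq_left (by linarith)]; ring
    · rw [max_eq_left (by linarith), max_eq_right (by linarith)]; ring
  rw [h1, integral_mB hd]
  have := mass_ge hd hN n
  linarith

end seq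

/-- CHUNK LIMIT: Talenti comparison for near minimizers. -/
theorem main_limit {d : ℕ} (hd : 1 ≤ d) {Ω : Set (E d)} (hΩ : IsOpen Ω)
    (hvol : volume Ω = volume (Metric.ball (0 : E d) 1)) (hb : BddAbove (TorSet Ω)) :
    sSup (TorSet Ω) ≤ TB d ∧ ∀ (g : ℝ → ℝ) (C : ℝ), Continuous g →
      (∀ t ∈ Icc 0 (WB d), 0 ≤ g t) →
      (∀ t ∈ Icc 0 (WB d), 2 * (∫ τ in (0 : ℝ)..t, g τ) * g t ≤ C) →
      sInf (RaySet Ω) * ((∫ t in (0 : ℝ)..WB d, 2 * (∫ τ in (0 : ℝ)..t, g τ) * g t * mB d t) -
        C * (TB d - sSup (TorSet Ω))) ≤ ∫ t in (0 : ℝ)..WB d, g t ^ 2 * mB d t := by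
  have hne : Ω.Nonempty := by
    have : Nonempty (Fin d) := ⟨⟨0, hd⟩⟩
    rw [nonempty_iff_ne_empty]
    intro h
    rw [h, measure_empty] at hvol
    exact (Metric.measure_ball_pos (volume : Measure (E d)) (0 : E d) one_pos).ne hvol
  obtain ⟨w, η, hN⟩ := exists_nearSeq hd hΩ hne hb
  refine ⟨sSup_le_TB hd hb hvol hN, ?_⟩
  intro g C hg hg0 hgC
  set W := WB d with hWdef
  have hW : 0 < W := WB_pos hd
  set T := sSup (TorSet Ω) with hT
  have hT0 : 0 ≤ T := sSup_nonneg'
  -- the extended profile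
  set gt : ℝ → ℝ := fun t => g (min (max t 0) W) * max 0 (min 1 (2 - t / W)) with hgt
  have hgtc : Continuous gt := by
    have h1 : Continuous (fun t : ℝ => g (min (max t 0) W)) := hg.comp (by fun_prop)
    have h2 : Continuous (fun t : ℝ => max 0 (min 1 (2 - t / W))) := by fun_prop
    exact h1.mul h2
  have hclamp : ∀ t : ℝ, min (max t 0) W ∈ Icc 0 W := fun t =>
    ⟨le_min (le_max_right _ _) hW.le, min_le_right _ _⟩
  have hgt0 : ∀ t, 0 ≤ gt t := fun t => mul_nonneg (hg0 _ (hclamp t)) (le_max_left _ _)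
  have hgt1 : ∀ t ∈ Icc 0 W, gt t = g t := by
    intro t ht
    have e1 : min (max t 0) W = t := by rw [max_eq_left ht.1, min_eq_left ht.2]
    have e2 : max 0 (min 1 (2 - t / W)) = 1 := by
      have : t / W ≤ 1 := by rw [div_le_one hW]; exact ht.2
      rw [min_eq_left (by linarith), max_eq_right zero_le_one]
    rw [hgt]
    simp only
    rw [e1, e2, mul_one]
  have hgt2 : ∀ t, 2 * W ≤ t → gt t = 0 := by
    intro t ht
    have e2 : max 0 (min 1 (2 - t / W)) = 0 := by
      have : 2 ≤ t / W := by rw [le_div_iff₀ hW]; exact ht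
      exact max_eq_left ((min_le_right _ _).trans (by linarith))
    rw [hgt]
    simp only
    rw [e2, mul_zero]
  obtain ⟨K, hK⟩ := (isCompact_Icc (a := (0 : ℝ)) (b := W)).exists_bound_of_continuousOn
    hg.continuousOn
  have hK0 : 0 ≤ K := (norm_nonneg _).trans (hK 0 ⟨le_rfl, hW.le⟩)
  have hgtK : ∀ t, gt t ≤ K := by
    intro t
    have h1 := hK _ (hclamp t)
    rw [Real.norm_eq_abs, abs_of_nonneg (hg0 _ (hclamp t))] at h1
    have h2 : max 0 (min 1 (2 - t / W)) ≤ 1 := max_le zero_le_one (min_le_left _ _)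
    calc gt t = g (min (max t 0) W) * max 0 (min 1 (2 - t / W)) := rfl
      _ ≤ K * 1 := by gcongr
      _ = K := mul_one K
  -- primitives agree on [0, W]
  have hPr : ∀ t ∈ Icc 0 W, Pr gt t = ∫ τ in (0 : ℝ)..t, g τ := by
    intro t ht
    unfold Pr
    refine intervalIntegral.integral_congr (fun τ hτ => ?_)
    rw [uIcc_of_le ht.1] at hτ
    exact hgt1 τ ⟨hτ.1, hτ.2.trans ht.2⟩
  -- energy side
  set G : ℝ → ℝ := fun t => gt t ^ 2 with hG
  have hGc : Continuous G := hgtc.pow 2
  have hG0 : ∀ t, 0 ≤ G t := fun t => sq_nonneg _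
  have hGK : ∀ t, G t ≤ K ^ 2 := fun t => by
    rw [hG]
    exact pow_le_pow_left₀ (hgt0 t) (hgtK t) 2
  have hPrG : ∀ y, Pr G y ≤ Pr G (min (max y 0) (2 * W)) := by
    intro y
    rcases le_total y 0 with h | h
    · rw [max_eq_right h, min_eq_left (by positivity)]
      exact Pr_mono hGc h (fun t _ => hG0 t)
    · rw [max_eq_left h]
      rcases le_total y (2 * W) with h2 | h2
      · rw [min_eq_left h2]
      · rw [min_eq_right h2]
        have := Pr_sub hGc (2 * W) y
        have e : (∫ τ in (2 * W)..y, G τ) = 0 := by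
          have : ∀ τ ∈ uIcc (2 * W) y, G τ = (fun _ => (0 : ℝ)) τ := by
            intro τ hτ
            rw [uIcc_of_le h2] at hτ
            simp only [hG]
            rw [hgt2 τ hτ.1]
            norm_num
          rw [intervalIntegral.integral_congr this]
          simp
        linarith
  have hmBG : (∫ t in (0 : ℝ)..(2 * W), G t * mB d t) = ∫ t in (0 : ℝ)..W, g t ^ 2 * mB d t := by
    have hc : Continuous (fun t => G t * mB d t) := hGc.mul (mB_cont d)
    rw [← intervalIntegral.integral_add_adjacent_intervals (hc.intervalIntegrable 0 W)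
      (hc.intervalIntegrable W (2 * W))]
    have e1 : (∫ t in W..(2 * W), G t * mB d t) = 0 := by
      have : ∀ t ∈ uIcc W (2 * W), G t * mB d t = (fun _ => (0 : ℝ)) t := by
        intro t ht
        rw [uIcc_of_le (by linarith)] at ht
        simp only
        rw [mB_zero_of_ge hd ht.1, mul_zero]
      rw [intervalIntegral.integral_congr this]
      simp
    rw [e1, add_zero]
    refine intervalIntegral.integral_congr (fun t ht => ?_)
    rw [uIcc_of_le hW.le] at ht
    simp only [hG]
    rw [hgt1 t ht]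
  have hupper : ∀ n, dir (fun x => Pr gt (w n x)) ≤ (∫ t in (0 : ℝ)..W, g t ^ 2 * mB d t) +
      K ^ 2 * (∫ t in (0 : ℝ)..(2 * W), max (mm (w n) t - mB d t) 0) +
        √(η n * (K ^ 4 * T)) := by
    intro n
    have hwn := hN.hw n
    have e1 : dir (fun x => Pr gt (w n x)) = ∫ x, G (w n x) * ‖fderiv ℝ (w n) x‖ ^ 2 := by
      unfold dir
      refine integral_congr_ae (Eventually.of_forall (fun x => ?_))
      simp only
      rw [hwn.norm_fderiv_pr hgtc, mul_pow, sq_abs]
    have e2 := first_variation hd hb hwn (hN.hJ n) hGc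
    have e3 : (∫ x, G (w n x) ^ 2 * ‖fderiv ℝ (w n) x‖ ^ 2) ≤ K ^ 4 * T := by
      have h1 := energy_le hwn (G := fun t => G t ^ 2) (hGc.pow 2) (K := K ^ 4) (fun t => by
        have := pow_le_pow_left₀ (hG0 t) (hGK t) 2
        calc G t ^ 2 ≤ (K ^ 2) ^ 2 := this
          _ = K ^ 4 := by ring)
      refine h1.trans ?_
      have := hN.hdir n
      gcongr
    have e4 : (∫ x, G (w n x) * ‖fderiv ℝ (w n) x‖ ^ 2) - (∫ x, Pr G (w n x)) ≤
        √(η n * (K ^ 4 * T)) := by
      apply Real.le_sqrt_of_sq_le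
      refine e2.trans ?_
      have := hN.hη0 n
      gcongr
    have e5 : (∫ x, Pr G (w n x)) ≤ ∫ t in (0 : ℝ)..(2 * W), G t * mm (w n) t := by
      rw [← layer hwn hGc (show 0 ≤ 2 * W by positivity)]
      refine integral_mono (hwn.pr hGc).int ?_ (fun x => hPrG (w n x))
      exact hwn.int_comp (F := fun y => Pr G (min (max y 0) (2 * W)))
        ((Pr_continuous hGc).comp (by fun_prop)) (by
          simp only [max_self]
          rw [min_eq_left (by positivity)]
          exact Pr_zero G)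
    have e6 := weight_le hN n hGc (K := K ^ 2) (L := 2 * W) (by positivity)
      (fun t _ => hG0 t) (fun t _ => hGK t)
    rw [hmBG] at e6
    linarith
  -- mass side
  set G2 : ℝ → ℝ := fun t => 2 * Pr gt t * gt t with hG2
  have hG2c : Continuous G2 := by
    have := Pr_continuous hgtc
    fun_prop
  have hPrG2 : ∀ y, Pr G2 y = Pr gt y ^ 2 := by
    intro y
    have h1 : ∀ t ∈ uIcc 0 y, HasDerivAt (fun t => Pr gt t ^ 2) (G2 t) t := by
      intro t _
      have := (Pr_hasDerivAt hgtc t).pow 2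
      convert! this using 1
      simp only [hG2]
      ring
    have h2 := intervalIntegral.integral_eq_sub_of_hasDerivAt h1 (hG2c.intervalIntegrable _ _)
    unfold Pr at h2 ⊢
    rw [h2]
    simp
  have hlow : ∀ n, (∫ t in (0 : ℝ)..W, 2 * (∫ τ in (0 : ℝ)..t, g τ) * g t * mB d t) -
      C * (TB d - T + η n + (∫ x, max (w n x - W) 0) +
        ∫ t in (0 : ℝ)..W, max (mm (w n) t - mB d t) 0) ≤ ∫ x, (Pr gt (w n x)) ^ 2 := by
    intro n
    have hwn := hN.hw n
    have hC0 : 0 ≤ C := by
      have := hgC 0 ⟨le_rfl, hW.le⟩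
      simpa using this
    have e1 : (∫ t in (0 : ℝ)..W, G2 t * mm (w n) t) ≤ ∫ x, (Pr gt (w n x)) ^ 2 := by
      rw [← layer hwn hG2c hW.le]
      refine integral_mono ?_ (hwn.pr hgtc).int_sq (fun x => ?_)
      · exact hwn.int_comp (F := fun y => Pr G2 (min (max y 0) W))
          ((Pr_continuous hG2c).comp (by fun_prop)) (by
            simp only [max_self]
            rw [min_eq_left (by positivity)]
            exact Pr_zero G2)
      · simp only
        rw [hPrG2]
        rcases le_total (w n x) 0 with h | h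
        · rw [max_eq_right h, min_eq_left hW.le, Pr_zero, zero_pow two_ne_zero]
          positivity
        · rw [max_eq_left h]
          have h0 : 0 ≤ Pr gt (min (w n x) W) := by
            rw [← Pr_zero gt]
            exact Pr_mono hgtc (le_min h hW.le) (fun t _ => hgt0 t)
          have h1 : Pr gt (min (w n x) W) ≤ Pr gt (w n x) :=
            Pr_mono hgtc (min_le_left _ _) (fun t _ => hgt0 t)
          gcongr
    have e2 : (∫ t in (0 : ℝ)..W, G2 t * mB d t) =
        ∫ t in (0 : ℝ)..W, 2 * (∫ τ in (0 : ℝ)..t, g τ) * g t * mB d t := by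
      refine intervalIntegral.integral_congr (fun t ht => ?_)
      rw [uIcc_of_le hW.le] at ht
      simp only [hG2]
      rw [hgt1 t ht, hPr t ht]
    have e3 : (∫ t in (0 : ℝ)..W, G2 t * mB d t) -
        C * (∫ t in (0 : ℝ)..W, max (mB d t - mm (w n) t) 0) ≤
        ∫ t in (0 : ℝ)..W, G2 t * mm (w n) t := by
      have hi1 := hwn.mm_ii hG2c hW.le
      have hi2 : IntervalIntegrable (fun t => G2 t * mB d t) volume 0 W :=
        (hG2c.mul (mB_cont d)).intervalIntegrable _ _
      have hi3 : IntervalIntegrable (fun t => max (mB d t - mm (w n) t) 0) volume 0 W := by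
        have h1 := ((mB_cont d).intervalIntegrable (μ := volume) 0 W).sub (hwn.mm_ii1 hW.le)
        have h2 : (fun t => max (mB d t - mm (w n) t) 0) =
            fun t => (mB d t - mm (w n) t + |mB d t - mm (w n) t|) / 2 := by
          funext t
          rcases le_total 0 (mB d t - mm (w n) t) with h | h
          · rw [max_eq_left h, abs_of_nonneg h]; ring
          · rw [max_eq_right h, abs_of_nonpos h]; ring
        rw [h2]
        exact (h1.add h1.abs).div_const 2
      rw [← intervalIntegral.integral_const_mul, ← intervalIntegral.integral_sub hi2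
        (hi3.const_mul C)]
      refine intervalIntegral.integral_mono_on hW.le (hi2.sub (hi3.const_mul C)) hi1
        (fun t ht => ?_)
      have f1 : G2 t ≤ C := by
        simp only [hG2]
        rw [hgt1 t ht, hPr t ht]
        exact hgC t ht
      have f0 : 0 ≤ G2 t := by
        simp only [hG2]
        have : 0 ≤ Pr gt t := by
          rw [← Pr_zero gt]
          exact Pr_mono hgtc ht.1 (fun t _ => hgt0 t)
        have := hgt0 t
        positivity
      have f2 := le_max_left (mB d t - mm (w n) t) 0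
      have f3 := le_max_right (mB d t - mm (w n) t) 0
      nlinarith [mul_le_mul_of_nonneg_left f2 f0, mul_le_mul_of_nonneg_right f1 f3]
    have e4 := deficit_le hd hN n
    have e5 := mul_le_mul_of_nonneg_left e4 hC0
    rw [e2] at e3
    linarith
  -- combine
  have hlam := sInf_ray_nonneg (Ω := Ω)
  set lam := sInf (RaySet Ω) with hlamdef
  have hcomb : ∀ n, lam * ((∫ t in (0 : ℝ)..W, 2 * (∫ τ in (0 : ℝ)..t, g τ) * g t * mB d t) -
      C * (TB d - T + η n + (∫ x, max (w n x - W) 0) +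
        ∫ t in (0 : ℝ)..W, max (mm (w n) t - mB d t) 0)) ≤
      (∫ t in (0 : ℝ)..W, g t ^ 2 * mB d t) +
      K ^ 2 * (∫ t in (0 : ℝ)..(2 * W), max (mm (w n) t - mB d t) 0) +
        √(η n * (K ^ 4 * T)) := by
    intro n
    have h1 := ray_le (Ω := Ω) ((hN.hw n).pr hgtc)
    have h2 := mul_le_mul_of_nonneg_left (hlow n) hlam
    have h3 := hupper n
    linarith
  have hl : Tendsto (fun n => lam * ((∫ t in (0 : ℝ)..W,
      2 * (∫ τ in (0 : ℝ)..t, g τ) * g t * mB d t) -
      C * (TB d - T + η n + (∫ x, max (w n x - W) 0) +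
        ∫ t in (0 : ℝ)..W, max (mm (w n) t - mB d t) 0))) atTop
      (𝓝 (lam * ((∫ t in (0 : ℝ)..W, 2 * (∫ τ in (0 : ℝ)..t, g τ) * g t * mB d t) -
      C * (TB d - T + 0 + 0 + 0)))) := by
    refine (tendsto_const_nhds.sub (Tendsto.const_mul _ ?_)).const_mul _
    exact ((tendsto_const_nhds.add hN.hη).add (tendsto_tail hd hb hvol hN)).add
      (tendsto_pp hd hb hvol hN hW.le)
  have hr : Tendsto (fun n => (∫ t in (0 : ℝ)..W, g t ^ 2 * mB d t) +
      K ^ 2 * (∫ t in (0 : ℝ)..(2 * W), max (mm (w n) t - mB d t) 0) +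
        √(η n * (K ^ 4 * T))) atTop
      (𝓝 ((∫ t in (0 : ℝ)..W, g t ^ 2 * mB d t) + K ^ 2 * 0 + √(0 * (K ^ 4 * T)))) := by
    refine (tendsto_const_nhds.add ((tendsto_pp hd hb hvol hN (by positivity)).const_mul _)).add ?_
    exact (Real.continuous_sqrt.tendsto _).comp (hN.hη.mul_const _)
  have := le_of_tendsto_of_tendsto' hl hr hcomb
  simpa using this

end Pool.Agent.Lib.H38.Tor
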