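import Mathlib
import Pool.Agent.Lib.H38.Tor.Limit

set_option autoImplicit false

/-!
# The inequality `λ T ≤ |Ω|`
-/

namespace Pool.Agent.Lib.H38.Tor

open MeasureTheory Set Filter Topology

lemma sq_int_le_vol {d : ℕ} {Ω : Set (E d)} (hΩ : IsOpen Ω) (hfin : volume Ω < ⊤) {u : E d → ℝ}
    (hu : Adm Ω u) : (∫ x, u x) ^ 2 ≤ (volume Ω).toReal * ∫ x, u x ^ 2 := by
  have hzero : ∀ x, x ∉ Ω → u x = 0 := fun x hx =>
    image_eq_zero_of_notMem_tsupport (fun h => hx (hu.sub h))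
  have hm := hΩ.measurableSet
  have e0 : (fun x => (Ω.indicator (fun _ => (1 : ℝ)) x) ^ 2) = Ω.indicator (fun _ => (1 : ℝ)) := by
    funext x
    by_cases hx : x ∈ Ω <;> simp [hx]
  have hf : Integrable (fun x => (Ω.indicator (fun _ => (1 : ℝ)) x) ^ 2) volume := by
    rw [e0]
    exact (integrable_indicator_iff hm).2 (integrableOn_const hfin.ne)
  have e1 : (fun x => (Ω.indicator (fun _ => (1 : ℝ)) x) * u x) = u := by
    funext x
    by_cases hx : x ∈ Ω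
    · simp [hx]
    · simp [hx, hzero x hx]
  have h := cs_real (f := fun x => Ω.indicator (fun _ => (1 : ℝ)) x) (g := u) hf hu.int_sq
    (by rw [e1]; exact hu.int)
  rw [e1, e0, integral_indicator hm] at h
  simpa [Measure.real] using h

/-- CHUNK POLYA: `λ T ≤ |Ω|`. -/
theorem ray_mul_tor_le {d : ℕ} {Ω : Set (E d)} (hΩ : IsOpen Ω) (hfin : volume Ω < ⊤) :
    sInf (RaySet Ω) * sSup (TorSet Ω) ≤ (volume Ω).toReal := by
  have hlam := sInf_ray_nonneg (Ω := Ω)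
  set lam := sInf (RaySet Ω) with hlamdef
  rcases hlam.eq_or_lt with h0 | hpos
  · rw [← h0, zero_mul]
    exact ENNReal.toReal_nonneg
  rw [mul_comm, ← le_div_iff₀ hpos]
  refine Real.sSup_le ?_ (div_nonneg ENNReal.toReal_nonneg hpos.le)
  rintro r ⟨u, h1, h2, h3, h4, rfl⟩
  have hu : Adm Ω u := ⟨h1, h2, h3⟩
  rw [le_div_iff₀ hpos]
  have e1 := sq_int_le_vol hΩ hfin hu
  have e2 := ray_le hu
  have hV : 0 ≤ (volume Ω).toReal := ENNReal.toReal_nonneg
  have hD : 0 ≤ ∫ x, ‖fderiv ℝ u x‖ ^ 2 := integral_nonneg (fun x => by positivity)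
  have e3 : (∫ x, u x) ^ 2 * lam ≤ (volume Ω).toReal * ∫ x, ‖fderiv ℝ u x‖ ^ 2 := by
    calc (∫ x, u x) ^ 2 * lam ≤ ((volume Ω).toReal * ∫ x, u x ^ 2) * lam := by gcongr
      _ = (volume Ω).toReal * (lam * ∫ x, u x ^ 2) := by ring
      _ ≤ _ := by
          unfold dir at e2
          gcongr
  rw [div_mul_eq_mul_div]
  exact div_le_of_le_mul₀ hD hV e3

end Pool.Agent.Lib.H38.Tor
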