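import Mathlib
import Pool.Agent.Lib.H38.Tor.Near
import Pool.Agent.Lib.H38.Tor.Cmp

set_option autoImplicit false

/-!
# Scaling
-/

namespace Pool.Agent.Lib.H38.Tor

open MeasureTheory Set Filter Topology Pointwise

variable {d : ℕ}

/-- rescaled set -/
def scl (R : ℝ) (Ω : Set (E d)) : Set (E d) := {x | R • x ∈ Ω}

lemma Adm.scl {Ω : Set (E d)} {u : E d → ℝ} (hu : Adm Ω u) {R : ℝ} (hR : 0 < R) :
    Adm (scl R Ω) (fun x => u (R • x)) where
  c1 := hu.c1.comp (by fun_prop)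
  cs := by
    have := hu.cs.comp_homeomorph (Homeomorph.smulOfNeZero R hR.ne')
    exact this
  sub := by
    have h1 : tsupport (fun x => u (R • x)) ⊆ (fun x : E d => R • x) ⁻¹' tsupport u := by
      refine closure_minimal ?_ ((isClosed_tsupport u).preimage (by fun_prop))
      intro x hx
      exact subset_tsupport _ hx
    intro x hx
    exact hu.sub (h1 hx)

lemma norm_fderiv_scl {Ω : Set (E d)} {u : E d → ℝ} (hu : Adm Ω u) {R : ℝ} (hR : 0 < R) (x : E d) :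
    ‖fderiv ℝ (fun x => u (R • x)) x‖ = R * ‖fderiv ℝ u (R • x)‖ := by
  have h1 : HasFDerivAt u (fderiv ℝ u (R • x)) (R • x) :=
    (hu.c1.differentiable one_ne_zero _).hasFDerivAt
  have h2 : HasFDerivAt (fun x : E d => R • x) (R • ContinuousLinearMap.id ℝ (E d)) x :=
    (hasFDerivAt_id x).const_smul R
  have h3 := h1.comp x h2
  have h4 : fderiv ℝ (fun x => u (R • x)) x = R • fderiv ℝ u (R • x) := by
    have e : (fderiv ℝ u (R • x)).comp (R • ContinuousLinearMap.id ℝ (E d)) =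
        R • fderiv ℝ u (R • x) := by
      ext y
      simp
    rw [← e]
    exact h3.fderiv
  rw [h4, norm_smul, Real.norm_eq_abs, abs_of_pos hR]

lemma int_scl (f : E d → ℝ) {R : ℝ} (hR : 0 < R) :
    ∫ x, f (R • x) = (R ^ d)⁻¹ * ∫ x, f x := by
  have := Measure.integral_comp_smul (volume : Measure (E d)) f R
  rw [this, smul_eq_mul, abs_of_pos (by positivity)]
  simp

lemma scl_ne {u : E d → ℝ} (h0 : u ≠ 0) {R : ℝ} (hR : 0 < R) : (fun x => u (R • x)) ≠ 0 := by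
  intro h
  apply h0
  funext x
  have := congrFun h (R⁻¹ • x)
  simpa [smul_smul, hR.ne'] using this

lemma scl_scl (Ω : Set (E d)) {R : ℝ} (hR : 0 < R) : scl R⁻¹ (scl R Ω) = Ω := by
  ext x
  simp only [scl, mem_ofPred_eq, smul_smul]
  rw [mul_inv_cancel₀ hR.ne', one_smul]

lemma ray_scl_mem {Ω : Set (E d)} {R : ℝ} (hR : 0 < R) {r : ℝ} (hr : r ∈ RaySet Ω) :
    R ^ 2 * r ∈ RaySet (scl R Ω) := by
  obtain ⟨u, h1, h2, h3, h4, rfl⟩ := hr
  have hu : Adm Ω u := ⟨h1, h2, h3⟩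
  have hv := hu.scl hR
  refine ⟨fun x => u (R • x), hv.c1, hv.cs, hv.sub, scl_ne h4 hR, ?_⟩
  have e1 : (∫ x, ‖fderiv ℝ (fun x => u (R • x)) x‖ ^ 2) =
      (R ^ d)⁻¹ * (R ^ 2 * ∫ x, ‖fderiv ℝ u x‖ ^ 2) := by
    have : (fun x => ‖fderiv ℝ (fun x => u (R • x)) x‖ ^ 2) =
        fun x => (fun y => R ^ 2 * ‖fderiv ℝ u y‖ ^ 2) (R • x) := by
      funext x
      simp only
      rw [norm_fderiv_scl hu hR]
      ring
    rw [this]
    exact (int_scl (fun y => R ^ 2 * ‖fderiv ℝ u y‖ ^ 2) hR).trans (by rw [integral_const_mul])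
  have e2 : (∫ x, u (R • x) ^ 2) = (R ^ d)⁻¹ * ∫ x, u x ^ 2 := int_scl (fun y => u y ^ 2) hR
  rw [e1, e2, mul_div_mul_left _ _ (by positivity), mul_div_assoc]

lemma tor_scl_mem {Ω : Set (E d)} {R : ℝ} (hR : 0 < R) {r : ℝ} (hr : r ∈ TorSet Ω) :
    (R ^ (d + 2))⁻¹ * r ∈ TorSet (scl R Ω) := by
  obtain ⟨u, h1, h2, h3, h4, rfl⟩ := hr
  have hu : Adm Ω u := ⟨h1, h2, h3⟩
  have hv := hu.scl hR
  refine ⟨fun x => u (R • x), hv.c1, hv.cs, hv.sub, scl_ne h4 hR, ?_⟩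
  have e1 : (∫ x, ‖fderiv ℝ (fun x => u (R • x)) x‖ ^ 2) =
      (R ^ d)⁻¹ * (R ^ 2 * ∫ x, ‖fderiv ℝ u x‖ ^ 2) := by
    have : (fun x => ‖fderiv ℝ (fun x => u (R • x)) x‖ ^ 2) =
        fun x => (fun y => R ^ 2 * ‖fderiv ℝ u y‖ ^ 2) (R • x) := by
      funext x
      simp only
      rw [norm_fderiv_scl hu hR]
      ring
    rw [this]
    exact (int_scl (fun y => R ^ 2 * ‖fderiv ℝ u y‖ ^ 2) hR).trans (by rw [integral_const_mul])
  have e2 : (∫ x, u (R • x)) = (R ^ d)⁻¹ * ∫ x, u x := int_scl u hR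
  rw [e1, e2]
  rw [show ((R ^ d)⁻¹ * ∫ x, u x) ^ 2 = (R ^ d)⁻¹ * ((R ^ d)⁻¹ * (∫ x, u x) ^ 2) by ring,
    mul_div_mul_left _ _ (by positivity), mul_div_mul_comm, pow_add]
  congr 1
  rw [mul_inv, div_eq_mul_inv]

lemma ray_scl (Ω : Set (E d)) {R : ℝ} (hR : 0 < R) : RaySet (scl R Ω) = (R ^ 2) • RaySet Ω := by
  ext r
  rw [mem_smul_set]
  constructor
  · intro hr
    have := ray_scl_mem (inv_pos.2 hR) hr
    rw [scl_scl Ω hR] at this
    refine ⟨_, this, ?_⟩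
    rw [smul_eq_mul]
    field_simp
  · rintro ⟨r', hr', rfl⟩
    exact ray_scl_mem hR hr'

lemma tor_scl (Ω : Set (E d)) {R : ℝ} (hR : 0 < R) :
    TorSet (scl R Ω) = ((R ^ (d + 2))⁻¹) • TorSet Ω := by
  ext r
  rw [mem_smul_set]
  constructor
  · intro hr
    have := tor_scl_mem (inv_pos.2 hR) hr
    rw [scl_scl Ω hR] at this
    refine ⟨_, this, ?_⟩
    rw [smul_eq_mul, inv_pow, inv_inv]
    field_simp
  · rintro ⟨r', hr', rfl⟩
    exact tor_scl_mem hR hr'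

/-- CHUNK SCALE. -/
theorem reduce {d : ℕ} (hd : 1 ≤ d) {q : ℝ} (_hq : 1 < q)
    (H : ∀ Ω : Set (E d), IsOpen Ω → volume Ω = volume (Metric.ball (0 : E d) 1) →
      sInf (RaySet Ω) * (sSup (TorSet Ω)) ^ q ≤
        sInf (RaySet (Metric.ball (0 : E d) 1)) * (sSup (TorSet (Metric.ball (0 : E d) 1))) ^ q) :
    ∀ Ω : Set (E d), IsOpen Ω → Ω.Nonempty → volume Ω < ⊤ →
      sInf (RaySet Ω) * (sSup (TorSet Ω)) ^ q /
          ((volume Ω).toReal) ^ ((q * ((d : ℝ) + 2) - 2) / (d : ℝ)) ≤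
        sInf (RaySet (Metric.ball (0 : E d) 1)) * (sSup (TorSet (Metric.ball (0 : E d) 1))) ^ q /
          ((volume (Metric.ball (0 : E d) 1)).toReal) ^ ((q * ((d : ℝ) + 2) - 2) / (d : ℝ)) := by
  intro Ω hΩ hne hfin
  have hd' : (1 : ℝ) ≤ d := by exact_mod_cast hd
  have hd0 : d ≠ 0 := by lia
  have hω := omega_pos hd
  set V := (volume Ω).toReal with hV
  have hVpos : 0 < V := ENNReal.toReal_pos (hΩ.measure_pos volume hne).ne' hfin.ne
  set R : ℝ := (V / omega d) ^ ((d : ℝ)⁻¹) with hR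
  have hRpos : 0 < R := Real.rpow_pos_of_pos (by positivity) _
  have hRd : R ^ d = V / omega d := Real.rpow_inv_natCast_pow (by positivity) hd0
  have hopen : IsOpen (scl R Ω) := hΩ.preimage (by fun_prop : Continuous fun x : E d => R • x)
  have hvol : volume (scl R Ω) = volume (Metric.ball (0 : E d) 1) := by
    have h1 : volume (scl R Ω) = ENNReal.ofReal |(R ^ Module.finrank ℝ (E d))⁻¹| * volume Ω :=
      Measure.addHaar_preimage_smul volume hRpos.ne' Ω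
    have h2 : Module.finrank ℝ (E d) = d := by simp
    rw [h1, h2, abs_of_pos (by positivity), hRd, inv_div]
    have h3 : volume Ω = ENNReal.ofReal V := (ENNReal.ofReal_toReal hfin.ne).symm
    have h4 : volume (Metric.ball (0 : E d) 1) = ENNReal.ofReal (omega d) :=
      (ENNReal.ofReal_toReal measure_ball_lt_top.ne).symm
    rw [h3, h4, ← ENNReal.ofReal_mul (by positivity)]
    congr 1
    field_simp
  have hH := H (scl R Ω) hopen hvol
  rw [ray_scl Ω hRpos, tor_scl Ω hRpos, Real.sInf_smul_of_nonneg (by positivity),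
    Real.sSup_smul_of_nonneg (by positivity), smul_eq_mul, smul_eq_mul] at hH
  have hT := sSup_nonneg' (Ω := Ω)
  rw [Real.mul_rpow (by positivity) hT] at hH
  -- exponent bookkeeping
  set e : ℝ := (q * ((d : ℝ) + 2) - 2) / (d : ℝ) with he
  have hVR : V = omega d * R ^ d := by rw [hRd]; field_simp
  have hRe : (R ^ d) ^ e = R ^ (q * ((d : ℝ) + 2) - 2) := by
    rw [← Real.rpow_natCast R d, ← Real.rpow_mul hRpos.le, he]
    congr 1
    field_simp
  have hVe : V ^ e = (omega d) ^ e * R ^ (q * ((d : ℝ) + 2) - 2) := by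
    rw [hVR, Real.mul_rpow hω.le (by positivity), hRe]
  have hRq : ((R ^ (d + 2))⁻¹) ^ q = (R ^ (q * ((d : ℝ) + 2)))⁻¹ := by
    rw [Real.inv_rpow (by positivity), ← Real.rpow_natCast R (d + 2), ← Real.rpow_mul hRpos.le]
    push_cast
    rw [mul_comm q]
  rw [hRq] at hH
  have hsub : R ^ (q * ((d : ℝ) + 2) - 2) = R ^ (q * ((d : ℝ) + 2)) / R ^ 2 := by
    rw [Real.rpow_sub hRpos]
    norm_num
  rw [hVe, hsub]
  have hω' : (volume (Metric.ball (0 : E d) 1)).toReal = omega d := rfl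
  rw [hω']
  have hp1 : 0 < (omega d) ^ e := Real.rpow_pos_of_pos hω _
  have hp2 : 0 < R ^ (q * ((d : ℝ) + 2)) := Real.rpow_pos_of_pos hRpos _
  rw [div_le_div_iff₀ (by positivity) hp1]
  have h5 : sInf (RaySet Ω) * (sSup (TorSet Ω)) ^ q * (omega d) ^ e =
      (R ^ 2 * sInf (RaySet Ω) * ((R ^ (q * ((d : ℝ) + 2)))⁻¹ * (sSup (TorSet Ω)) ^ q)) *
        ((omega d) ^ e * (R ^ (q * ((d : ℝ) + 2)) / R ^ 2)) := by
    field_simp
  rw [h5]
  gcongr

end Pool.Agent.Lib.H38.Tor
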