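import Mathlib
import Pool.Agent.Lib.H38.Tor.Limit
import Pool.Agent.Lib.H38.Tor.Bessel
import Pool.Agent.Lib.H38.Tor.Scale
import Pool.Agent.Lib.H38.Tor.Polya
import Pool.Agent.Lib.H38.Tor.BallTor
import Pool.Agent.Lib.H38.Tor.BallRay

set_option autoImplicit false

/-!
# Assembly
-/

namespace Pool.Agent.Lib.H38.Tor

open MeasureTheory Set Filter Topology

/-- For sets of the volume of the unit ball. -/
theorem unit_case {d : ℕ} (hd : 1 ≤ d) : ∃ Q : ℝ, 1 < Q ∧ ∀ q : ℝ, Q ≤ q →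
    ∀ Ω : Set (E d), IsOpen Ω → volume Ω = volume (Metric.ball (0 : E d) 1) →
      sInf (RaySet Ω) * (sSup (TorSet Ω)) ^ q ≤
        sInf (RaySet (Metric.ball (0 : E d) 1)) *
          (sSup (TorSet (Metric.ball (0 : E d) 1))) ^ q := by
  have hd' : (1 : ℝ) ≤ d := by exact_mod_cast hd
  have hω := omega_pos hd
  have hW := WB_pos hd
  have hballne : (Metric.ball (0 : E d) 1).Nonempty := ⟨0, Metric.mem_ball_self one_pos⟩
  obtain ⟨Λ, hΛmem⟩ := raySet_nonempty (d := d) Metric.isOpen_ball hballne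
  obtain ⟨μ, ψ, ψ', ψ'', hμ, hrad, hψ1, hψpos, hψ'neg⟩ := exists_radial hd (Λ := Λ)
    (fun μ ψ ψ' ψ'' h hpos => ray_ge hd h hpos Λ hΛmem)
  have hμle : μ ≤ sInf (RaySet (Metric.ball (0 : E d) 1)) :=
    le_csInf ⟨Λ, hΛmem⟩ (ray_ge hd hrad hψpos)
  have hTBle := torB_ge hd
  have hTB : 0 < TB d := by unfold TB; positivity
  -- the profile
  set g : ℝ → ℝ := fun t => -(2 * d * ψ' (1 - 2 * d * t)) with hg
  have hψ'c : Continuous ψ' := continuous_iff_continuousAt.2 fun s => (hrad.h2 s).continuousAt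
  have hψc : Continuous ψ := continuous_iff_continuousAt.2 fun s => (hrad.h1 s).continuousAt
  have hgc : Continuous g := by
    have : Continuous (fun t : ℝ => ψ' (1 - 2 * d * t)) := hψ'c.comp (by fun_prop)
    exact (this.const_mul _).neg
  have hmem : ∀ t ∈ Icc 0 (WB d), 1 - 2 * d * t ∈ Icc (0 : ℝ) 1 := by
    intro t ht
    have h1 : 2 * d * t ≤ 1 := by
      have := ht.2
      unfold WB at this
      rw [le_div_iff₀ (by positivity)] at this
      linarith
    have h2 : 0 ≤ 2 * d * t := by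
      have := ht.1
      positivity
    exact ⟨by linarith, by linarith⟩
  have hgpos : ∀ t ∈ Icc 0 (WB d), 0 < g t := by
    intro t ht
    have := hψ'neg _ (hmem t ht)
    rw [hg]
    simp only
    have h2 : 0 < 2 * (d : ℝ) := by linarith
    nlinarith
  have hPr : ∀ t : ℝ, (∫ τ in (0 : ℝ)..t, g τ) = ψ (1 - 2 * d * t) := by
    intro t
    have h1 : ∀ τ ∈ uIcc 0 t, HasDerivAt (fun τ => ψ (1 - 2 * d * τ)) (g τ) τ := by
      intro τ _
      have h2 : HasDerivAt (fun τ : ℝ => 1 - 2 * d * τ) (-(2 * d)) τ := by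
        have := ((hasDerivAt_id τ).const_mul (2 * (d : ℝ))).const_sub 1
        simpa using this
      have h3 := (hrad.h1 (1 - 2 * d * τ)).comp τ h2
      convert! h3 using 1
      rw [hg]
      ring
    rw [intervalIntegral.integral_eq_sub_of_hasDerivAt h1 (hgc.intervalIntegrable _ _)]
    simp [hψ1]
  -- the constants
  set D : ℝ := ∫ t in (0 : ℝ)..WB d,
    2 * ψ (1 - 2 * d * t) * (-(2 * d * ψ' (1 - 2 * d * t))) * mB d t with hD
  have hA : (∫ t in (0 : ℝ)..WB d, g t ^ 2 * mB d t) = μ * D := radial_identity hd hrad hψ1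
  have hDpos : 0 < D := by
    rw [hD]
    have hcont : Continuous (fun t : ℝ =>
        2 * ψ (1 - 2 * d * t) * (-(2 * d * ψ' (1 - 2 * d * t))) * mB d t) := by
      have h1 : Continuous (fun t : ℝ => ψ (1 - 2 * d * t)) := hψc.comp (by fun_prop)
      exact ((h1.const_mul 2).mul hgc).mul (mB_cont d)
    refine intervalIntegral.intervalIntegral_pos_of_pos_on (hcont.intervalIntegrable _ _) ?_ hW
    intro t ht
    have ht' : t ∈ Icc 0 (WB d) := ⟨ht.1.le, ht.2.le⟩
    have h1 := hgpos t ht'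
    have h2 : 2 * (d : ℝ) * t < 1 := by
      have := ht.2
      unfold WB at this
      rw [lt_div_iff₀ (by positivity)] at this
      linarith
    have h3 : 0 < 2 * (d : ℝ) * t := by
      have := ht.1
      positivity
    have h4 : 0 < ψ (1 - 2 * d * t) := hψpos _ ⟨by linarith, by linarith⟩
    have h5 : 0 < mB d t := by
      unfold mB
      have : 0 < √(1 - 2 * d * t) := Real.sqrt_pos.2 (by linarith)
      positivity
    have h6 : 0 < 2 * ψ (1 - 2 * d * t) * g t * mB d t := by positivity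
    exact h6
  obtain ⟨C0, hC0⟩ := (isCompact_Icc (a := (0 : ℝ)) (b := WB d)).exists_bound_of_continuousOn
    (f := fun t => 2 * ψ (1 - 2 * d * t) * g t) (by
      have h1 : Continuous (fun t : ℝ => ψ (1 - 2 * d * t)) := hψc.comp (by fun_prop)
      exact ((h1.const_mul 2).mul hgc).continuousOn)
  set C : ℝ := |C0| + 1 with hC
  have hCpos : 0 < C := by positivity
  have hgC : ∀ t ∈ Icc 0 (WB d), 2 * (∫ τ in (0 : ℝ)..t, g τ) * g t ≤ C := by
    intro t ht
    rw [hPr t]
    have h1 := hC0 t ht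
    have h2 := le_abs_self (2 * ψ (1 - 2 * d * t) * g t)
    rw [Real.norm_eq_abs] at h1
    have h3 := le_abs_self C0
    linarith
  obtain ⟨Q, hQ1, hQ⟩ := final_alg (ω := omega d) (T0 := TB d) (μ := μ) (D := D) (C := C) hω hTB hμ
    hDpos hCpos
  refine ⟨Q, hQ1, fun q hq Ω hΩ hvol => ?_⟩
  have hqpos : 0 < q := by linarith
  have hRHS : μ * TB d ^ q ≤ sInf (RaySet (Metric.ball (0 : E d) 1)) *
      (sSup (TorSet (Metric.ball (0 : E d) 1))) ^ q := by
    have h1 : TB d ^ q ≤ (sSup (TorSet (Metric.ball (0 : E d) 1))) ^ q :=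
      Real.rpow_le_rpow hTB.le hTBle hqpos.le
    have h2 : 0 ≤ sInf (RaySet (Metric.ball (0 : E d) 1)) := sInf_ray_nonneg
    gcongr
  refine le_trans ?_ hRHS
  by_cases hb : BddAbove (TorSet Ω)
  · obtain ⟨h1, h2⟩ := main_limit hd hΩ hvol hb
    have h3 := h2 g C hgc (fun t ht => (hgpos t ht).le) hgC
    rw [hA] at h3
    have h4 : (∫ t in (0 : ℝ)..WB d, 2 * (∫ τ in (0 : ℝ)..t, g τ) * g t * mB d t) = D := by
      rw [hD]
      refine intervalIntegral.integral_congr (fun t _ => ?_)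
      rw [hPr t]
    rw [h4] at h3
    refine hQ q hq _ _ sInf_ray_nonneg sSup_nonneg' h1 ?_ h3
    have h5 := ray_mul_tor_le hΩ (by rw [hvol]; exact measure_ball_lt_top)
    rwa [hvol] at h5
  · rw [Real.sSup_of_not_bddAbove hb, Real.zero_rpow hqpos.ne', mul_zero]
    positivity

end Pool.Agent.Lib.H38.Tor
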